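import Mathlib
import Pool.Agent.H383.AP

open Filter Topology MeasureTheory
open Pool.Agent.H383.AP

namespace Pool.Agent.H425R3.JL

/-- average of a real sequence over a finite set -/
noncomputable def fav (S : Finset ℕ) (g : ℕ → ℝ) : ℝ := (∑ n ∈ S, g n) / S.card

/-- average of a complex sequence over a finite set -/
noncomputable def cav (S : Finset ℕ) (g : ℕ → ℂ) : ℂ := (∑ n ∈ S, g n) / S.card

lemma fav_mono {S : Finset ℕ} {g h : ℕ → ℝ} (H : ∀ n, g n ≤ h n) : fav S g ≤ fav S h := by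
  unfold fav
  apply div_le_div_of_nonneg_right _ (Nat.cast_nonneg _)
  exact Finset.sum_le_sum (fun n _ => H n)

lemma fav_nonneg {S : Finset ℕ} {g : ℕ → ℝ} (H : ∀ n, 0 ≤ g n) : 0 ≤ fav S g := by
  unfold fav
  exact div_nonneg (Finset.sum_nonneg (fun n _ => H n)) (Nat.cast_nonneg _)

lemma fav_add (S : Finset ℕ) (g h : ℕ → ℝ) : fav S (fun n => g n + h n) = fav S g + fav S h := by
  simp only [fav, Finset.sum_add_distrib, add_div]

lemma fav_sub (S : Finset ℕ) (g h : ℕ → ℝ) : fav S (fun n => g n - h n) = fav S g - fav S h := by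
  simp only [fav, Finset.sum_sub_distrib, sub_div]

lemma fav_mul (S : Finset ℕ) (c : ℝ) (g : ℕ → ℝ) : fav S (fun n => c * g n) = c * fav S g := by
  simp only [fav, ← Finset.mul_sum, mul_div_assoc]

lemma fav_const {S : Finset ℕ} (hS : S.Nonempty) (c : ℝ) : fav S (fun _ => c) = c := by
  unfold fav
  rw [Finset.sum_const, nsmul_eq_mul, mul_comm, mul_div_assoc, div_self, mul_one]
  exact_mod_cast (Finset.card_pos.mpr hS).ne'

lemma cav_add (S : Finset ℕ) (g h : ℕ → ℂ) : cav S (g + h) = cav S g + cav S h := by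
  simp only [cav, Pi.add_apply, Finset.sum_add_distrib, add_div]

lemma cav_smul (S : Finset ℕ) (c : ℂ) (g : ℕ → ℂ) : cav S (c • g) = c • cav S g := by
  simp only [cav, Pi.smul_apply, smul_eq_mul, ← Finset.mul_sum, mul_div_assoc]

lemma cav_ofReal (S : Finset ℕ) (g : ℕ → ℝ) : cav S (fun n => ((g n : ℝ) : ℂ)) = ((fav S g : ℝ) : ℂ) := by
  unfold cav fav; push_cast; rfl

lemma norm_cav_sub_le (S : Finset ℕ) (g h : ℕ → ℂ) : ‖cav S g - cav S h‖ ≤ fav S (fun n => ‖g n - h n‖) := by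
  unfold cav fav
  rw [← sub_div, ← Finset.sum_sub_distrib, norm_div, Complex.norm_natCast]
  apply div_le_div_of_nonneg_right _ (Nat.cast_nonneg _)
  exact norm_sum_le _ _

lemma abs_fav_le (S : Finset ℕ) (g : ℕ → ℝ) : |fav S g| ≤ fav S (fun n => |g n|) := by
  unfold fav
  rw [abs_div, Nat.abs_cast]
  apply div_le_div_of_nonneg_right _ (Nat.cast_nonneg _)
  exact Finset.abs_sum_le_sum_abs _ _

/-- trigonometric polynomials with frequencies in a group -/
def TG (Γ : AddSubgroup ℝ) : Submodule ℂ (ℕ → ℂ) := Submodule.span ℂ (chr '' (Γ : Set ℝ))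

lemma TG_chr {Γ : AddSubgroup ℝ} {θ : ℝ} (h : θ ∈ Γ) : chr θ ∈ TG Γ := Submodule.subset_span ⟨θ, h, rfl⟩

lemma TG_one (Γ : AddSubgroup ℝ) : (1 : ℕ → ℂ) ∈ TG Γ := by rw [← chr_zero]; exact TG_chr Γ.zero_mem

lemma TG_le_Trig (Γ : AddSubgroup ℝ) : TG Γ ≤ Trig := by
  unfold TG Trig
  apply Submodule.span_mono
  rintro _ ⟨θ, _, rfl⟩
  exact ⟨θ, rfl⟩

lemma TG_mono {Γ Γ' : AddSubgroup ℝ} (h : Γ ≤ Γ') : TG Γ ≤ TG Γ' := by
  unfold TG
  apply Submodule.span_mono
  exact Set.image_mono h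

lemma TG_mul {Γ : AddSubgroup ℝ} {a b : ℕ → ℂ} (ha : a ∈ TG Γ) (hb : b ∈ TG Γ) : a * b ∈ TG Γ := by
  have h : ∀ θ ∈ Γ, ∀ b ∈ TG Γ, chr θ * b ∈ TG Γ := by
    intro θ hθ b hb
    unfold TG at hb
    induction hb using Submodule.span_induction with
    | mem x hx =>
      obtain ⟨θ', hθ', rfl⟩ := hx
      rw [chr_mul]; exact TG_chr (Γ.add_mem hθ hθ')
    | zero => rw [mul_zero]; exact (TG Γ).zero_mem
    | add x y _ _ hx hy => rw [mul_add]; exact (TG Γ).add_mem hx hy
    | smul c x _ hx => rw [mul_smul_comm]; exact (TG Γ).smul_mem c hx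
  unfold TG at ha
  induction ha using Submodule.span_induction with
  | mem x hx =>
    obtain ⟨θ, hθ, rfl⟩ := hx
    exact h θ hθ b hb
  | zero => rw [zero_mul]; exact (TG Γ).zero_mem
  | add x y _ _ hx hy => rw [add_mul]; exact (TG Γ).add_mem hx hy
  | smul c x _ hx => rw [smul_mul_assoc]; exact (TG Γ).smul_mem c hx

/-- averages of characters along a sequence of finite sets are those of the integers -/
def AvOK (Γ : AddSubgroup ℝ) (S : ℕ → Finset ℕ) : Prop :=
  ∀ θ ∈ Γ, Tendsto (fun j => cav (S j) (chr θ)) atTop (𝓝 (mc θ))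

lemma TG_lim {Γ : AddSubgroup ℝ} {t : ℕ → ℂ} (ht : t ∈ TG Γ) : ∃ L, HasMean t L ∧
    ∀ S, AvOK Γ S → Tendsto (fun j => cav (S j) t) atTop (𝓝 L) := by
  unfold TG at ht
  induction ht using Submodule.span_induction with
  | mem x hx =>
    obtain ⟨θ, hθ, rfl⟩ := hx
    exact ⟨mc θ, chr_mean θ, fun S hS => hS θ hθ⟩
  | zero => exact ⟨0, hasMean_zero, fun S _ => by
      have : ∀ j, cav (S j) 0 = 0 := fun j => by simp [cav]
      simp only [this]; exact tendsto_const_nhds⟩
  | add x y _ _ hx hy =>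
    obtain ⟨L, hL, hS⟩ := hx
    obtain ⟨L', hL', hS'⟩ := hy
    refine ⟨L + L', hL.add hL', fun S h => ?_⟩
    simp only [cav_add]
    exact (hS S h).add (hS' S h)
  | smul c x _ hx =>
    obtain ⟨L, hL, hS⟩ := hx
    refine ⟨c * L, hL.smul c, fun S h => ?_⟩
    simp only [cav_smul]
    exact (hS S h).const_mul c

variable {ι : Type*} [Fintype ι]

/-- sum of the squares -/
noncomputable def q (x : ι → ℝ) : ℝ := ∑ i, (x i)^2

lemma q_nonneg (x : ι → ℝ) : 0 ≤ q x := Finset.sum_nonneg (fun i _ => sq_nonneg _)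

lemma q_cont : Continuous (q : (ι → ℝ) → ℝ) := by
  unfold q; fun_prop

lemma q_le_two (x y : ι → ℝ) : q x ≤ 2 * q (x - y) + 2 * q y := by
  unfold q
  rw [Finset.mul_sum, Finset.mul_sum, ← Finset.sum_add_distrib]
  apply Finset.sum_le_sum
  intro i _
  simp only [Pi.sub_apply]
  nlinarith [sq_nonneg (x i - y i - y i)]

lemma q_far {x y : ι → ℝ} {B : ℝ} (hy : q y ≤ B) (hx : 4 * B < q x) : q x ≤ 4 * q (x - y) := by
  have := q_le_two x y
  linarith

/-- approximation in mean square by the trigonometric polynomials `U M` along the sets `S j` -/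
def ApU (U : ℕ → ℕ → ι → ℝ) (e : ℕ → ι → ℝ) (S : ℕ → Finset ℕ) : Prop :=
  ∀ η : ℝ, 0 < η → ∃ M0 : ℕ, ∀ M : ℕ, M0 ≤ M → ∃ j0 : ℕ, ∀ j : ℕ, j0 ≤ j →
    fav (S j) (fun n => q (e n - U M n)) ≤ η

lemma U_bdd {Γ : AddSubgroup ℝ} {u : ℕ → ι → ℝ} (hu : ∀ i, (fun n => ((u n i : ℝ) : ℂ)) ∈ TG Γ) :
    ∃ B : ℝ, 0 ≤ B ∧ ∀ n i, |u n i| ≤ B := by
  have h : ∀ i, ∃ B : ℝ, 0 ≤ B ∧ ∀ n, |u n i| ≤ B := by
    intro i
    obtain ⟨B, hB0, hB⟩ := Trig_bdd (TG_le_Trig Γ (hu i))
    refine ⟨B, hB0, fun n => ?_⟩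
    have := hB n
    rwa [Complex.norm_real, Real.norm_eq_abs] at this
  choose B hB0 hB using h
  refine ⟨∑ i, B i, Finset.sum_nonneg (fun i _ => hB0 i), fun n i => (hB i n).trans ?_⟩
  exact Finset.single_le_sum (fun i _ => hB0 i) (Finset.mem_univ i)

/-- Weierstrass approximation on bounded trigonometric sequences -/
theorem weier {Γ : AddSubgroup ℝ} {u : ℕ → ι → ℝ} (hu : ∀ i, (fun n => ((u n i : ℝ) : ℂ)) ∈ TG Γ)
    {f : (ι → ℝ) → ℝ} (hf : Continuous f) {η : ℝ} (hη : 0 < η) :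
    ∃ t : ℕ → ℂ, t ∈ TG Γ ∧ ∀ n, ‖((f (u n) : ℝ) : ℂ) - t n‖ ≤ η := by
  obtain ⟨B, hB0, hB⟩ := U_bdd hu
  set K : Set (ι → ℝ) := Set.Icc (fun _ => -B) (fun _ => B) with hK
  have hKc : IsCompact K := isCompact_Icc
  haveI : CompactSpace K := isCompact_iff_compactSpace.mp hKc
  have hmem : ∀ n, u n ∈ K := fun n => ⟨fun i => (abs_le.mp (hB n i)).1, fun i => (abs_le.mp (hB n i)).2⟩
  set v : ℕ → K := fun n => ⟨u n, hmem n⟩ with hv
  let A : Subalgebra ℝ C(K, ℝ) :=
    { carrier := {g | (fun n => ((g (v n) : ℝ) : ℂ)) ∈ TG Γ}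
      mul_mem' := by
        intro a b ha hb
        simp only [Set.mem_setOf_eq] at ha hb ⊢
        have := TG_mul ha hb
        convert this using 1
        funext n; simp
      add_mem' := by
        intro a b ha hb
        simp only [Set.mem_setOf_eq] at ha hb ⊢
        have := (TG Γ).add_mem ha hb
        convert this using 1
        funext n; simp
      algebraMap_mem' := by
        intro r
        simp only [Set.mem_setOf_eq]
        have := (TG Γ).smul_mem (r : ℂ) (TG_one Γ)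
        convert this using 1
        funext n; simp }
  have hsep : A.SeparatesPoints := by
    intro x y hxy
    have : ∃ i, (x : ι → ℝ) i ≠ (y : ι → ℝ) i := by
      by_contra hcon
      push Not at hcon
      exact hxy (Subtype.ext (funext hcon))
    obtain ⟨i, hi⟩ := this
    refine ⟨fun z => (z : ι → ℝ) i, ⟨⟨fun z => (z : ι → ℝ) i, (continuous_apply i).comp continuous_subtype_val⟩, ?_, rfl⟩, hi⟩
    exact hu i
  have htop := ContinuousMap.subalgebra_topologicalClosure_eq_top_of_separatesPoints A hsep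
  have hfK : (⟨fun z : K => f z, by fun_prop⟩ : C(K, ℝ)) ∈ A.topologicalClosure := by
    rw [htop]; exact Algebra.mem_top
  rw [← SetLike.mem_coe, Subalgebra.topologicalClosure_coe, Metric.mem_closure_iff] at hfK
  obtain ⟨g, hg, hd⟩ := hfK η hη
  refine ⟨fun n => ((g (v n) : ℝ) : ℂ), hg, fun n => ?_⟩
  rw [← Complex.ofReal_sub, Complex.norm_real, Real.norm_eq_abs, ← Real.dist_eq]
  have h1 := ContinuousMap.dist_apply_le_dist (f := (⟨fun z : K => f z, by fun_prop⟩ : C(K, ℝ))) (g := g) (v n)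
  exact h1.trans hd.le

/-- uniform integrability consequence and approximation of functions of the sequence -/
theorem approx {Γ : AddSubgroup ℝ} {U : ℕ → ℕ → ι → ℝ} (hU : ∀ M i, (fun n => ((U M n i : ℝ) : ℂ)) ∈ TG Γ)
    {e : ℕ → ι → ℝ} {S : ℕ → Finset ℕ} (hne : ∀ j, (S j).Nonempty) (h : ApU U e S)
    {f : (ι → ℝ) → ℝ} (hf : Continuous f) (hC : ∃ C : ℝ, ∀ x, |f x| ≤ C * (1 + q x)) {η : ℝ} (hη : 0 < η) :
    ∃ t : ℕ → ℂ, t ∈ TG Γ ∧ ∃ j0 : ℕ, ∀ j, j0 ≤ j → fav (S j) (fun n => ‖((f (e n) : ℝ) : ℂ) - t n‖) ≤ η := by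
  obtain ⟨C, hC⟩ := hC
  have hC0 : 0 ≤ C := by
    have h1 := hC 0
    have h2 := abs_nonneg (f 0)
    have h3 : q (0 : ι → ℝ) = 0 := by simp [q]
    rw [h3] at h1; linarith
  -- first approximation, for the large values
  obtain ⟨M0, hM0⟩ := h (η / (32 * (C + 1))) (by positivity)
  obtain ⟨j1, hj1⟩ := hM0 M0 le_rfl
  obtain ⟨B, hB0, hB⟩ := U_bdd (hU M0)
  set B2 : ℝ := (Fintype.card ι) * B^2 with hB2
  have hB20 : 0 ≤ B2 := by positivity
  have hqU : ∀ n, q (U M0 n) ≤ B2 := by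
    intro n
    unfold q
    calc ∑ i, (U M0 n i)^2 ≤ ∑ i : ι, B^2 := Finset.sum_le_sum (fun i _ => by
          rw [← sq_abs]; exact pow_le_pow_left₀ (abs_nonneg _) (hB n i) 2)
      _ = B2 := by rw [Finset.sum_const, Finset.card_univ, nsmul_eq_mul]
  set T : ℝ := 4 * B2 + 1 with hT
  have hT1 : 1 ≤ T := by linarith
  have hT0 : 0 < T := by linarith
  set χ : (ι → ℝ) → ℝ := fun x => max 0 (min 1 (2 - q x / T)) with hχ
  have hχc : Continuous χ := by
    have : Continuous (fun x : ι → ℝ => q x / T) := q_cont.div_const _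
    simp only [hχ]; fun_prop
  have hχ0 : ∀ x, 0 ≤ χ x := fun x => le_max_left _ _
  have hχ1 : ∀ x, χ x ≤ 1 := fun x => max_le (by norm_num) (min_le_left _ _)
  have hχeq : ∀ x, q x ≤ T → χ x = 1 := by
    intro x hx
    have : q x / T ≤ 1 := by rw [div_le_one hT0]; exact hx
    simp only [hχ]
    rw [min_eq_left (by linarith), max_eq_right (by norm_num)]
  have hχz : ∀ x, 2 * T ≤ q x → χ x = 0 := by
    intro x hx
    have : 2 ≤ q x / T := by rw [le_div_iff₀ hT0]; exact hx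
    simp only [hχ]
    rw [max_eq_left]
    exact (min_le_right _ _).trans (by linarith)
  set fK : (ι → ℝ) → ℝ := fun x => f x * χ x with hfK
  have hfKc : Continuous fK := hf.mul hχc
  set Bf : ℝ := C * (1 + 2 * T) with hBf
  have hBf0 : 0 ≤ Bf := by positivity
  have hfKb : ∀ x, |fK x| ≤ Bf := by
    intro x
    simp only [hfK]
    rw [abs_mul, abs_of_nonneg (hχ0 x)]
    by_cases hx : 2 * T ≤ q x
    · rw [hχz x hx, mul_zero]; positivity
    · push Not at hx
      calc |f x| * χ x ≤ |f x| * 1 := mul_le_mul_of_nonneg_left (hχ1 x) (abs_nonneg _)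
        _ ≤ C * (1 + q x) := by rw [mul_one]; exact hC x
        _ ≤ Bf := by rw [hBf]; gcongr
  have hsupp : HasCompactSupport fK := by
    apply HasCompactSupport.intro (K := Metric.closedBall 0 (√(2*T))) (isCompact_closedBall _ _)
    intro x hx
    simp only [hfK]
    rw [hχz x, mul_zero]
    by_contra hcon
    push Not at hcon
    apply hx
    rw [Metric.mem_closedBall, dist_zero_right, pi_norm_le_iff_of_nonneg (Real.sqrt_nonneg _)]
    intro i
    rw [Real.norm_eq_abs]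
    apply Real.abs_le_sqrt
    refine le_trans ?_ hcon.le
    unfold q
    exact Finset.single_le_sum (f := fun i => (x i)^2) (fun i _ => sq_nonneg _) (Finset.mem_univ i)
  have huc : UniformContinuous fK := hsupp.uniformContinuous_of_continuous hfKc
  rw [Metric.uniformContinuous_iff] at huc
  obtain ⟨δ, hδ, huc⟩ := huc (η/4) (by positivity)
  -- second approximation
  obtain ⟨M1, hM1⟩ := h (η / 4 * δ^2 / (2 * (Bf + 1))) (by positivity)
  obtain ⟨j2, hj2⟩ := hM1 M1 le_rfl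
  obtain ⟨t, ht, htn⟩ := weier (hU M1) hfKc (η := η/4) (by positivity)
  refine ⟨t, ht, max j1 j2, fun j hj => ?_⟩
  have a1 := hj1 j (by omega)
  have a2 := hj2 j (by omega)
  have hpt : ∀ n, ‖((f (e n) : ℝ) : ℂ) - t n‖ ≤
      8 * C * q (e n - U M0 n) + 2 * Bf / δ^2 * q (e n - U M1 n) + (η/4 + η/4) := by
    intro n
    have b1 : |f (e n) - fK (e n)| ≤ 8 * C * q (e n - U M0 n) := by
      by_cases hx : q (e n) ≤ T
      · simp only [hfK]
        rw [hχeq _ hx, mul_one, sub_self, abs_zero]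
        have := q_nonneg (e n - U M0 n)
        positivity
      · push Not at hx
        have c1 := q_far (hqU n) (x := e n) (by linarith)
        simp only [hfK]
        have c2 : f (e n) - f (e n) * χ (e n) = f (e n) * (1 - χ (e n)) := by ring
        rw [c2, abs_mul, abs_of_nonneg (by linarith [hχ1 (e n)] : 0 ≤ 1 - χ (e n))]
        calc |f (e n)| * (1 - χ (e n)) ≤ |f (e n)| * 1 :=
              mul_le_mul_of_nonneg_left (by linarith [hχ0 (e n)]) (abs_nonneg _)
          _ ≤ C * (1 + q (e n)) := by rw [mul_one]; exact hC _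
          _ ≤ C * (2 * q (e n)) := by gcongr; linarith
          _ ≤ C * (2 * (4 * q (e n - U M0 n))) := by gcongr
          _ = _ := by ring
    have b2 : |fK (e n) - fK (U M1 n)| ≤ 2 * Bf / δ^2 * q (e n - U M1 n) + η/4 := by
      by_cases hx : dist (e n) (U M1 n) < δ
      · have := (huc hx).le
        rw [Real.dist_eq] at this
        have h2 := q_nonneg (e n - U M1 n)
        have h3 : 0 ≤ 2 * Bf / δ^2 * q (e n - U M1 n) := by positivity
        linarith
      · push Not at hx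
        have c1 : δ^2 ≤ q (e n - U M1 n) := by
          rw [dist_eq_norm] at hx
          by_contra hcon
          push Not at hcon
          have : ‖e n - U M1 n‖ < δ := by
            rw [pi_norm_lt_iff hδ]
            intro i
            rw [Real.norm_eq_abs]
            apply abs_lt_of_sq_lt_sq _ hδ.le
            refine lt_of_le_of_lt ?_ hcon
            unfold q
            exact Finset.single_le_sum (f := fun i => ((e n - U M1 n) i)^2) (fun i _ => sq_nonneg _) (Finset.mem_univ i)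
          linarith
        have c2 : |fK (e n) - fK (U M1 n)| ≤ 2 * Bf := by
          refine (abs_sub _ _).trans ?_
          linarith [hfKb (e n), hfKb (U M1 n)]
        have c3 : 2 * Bf ≤ 2 * Bf / δ^2 * q (e n - U M1 n) := by
          rw [div_mul_eq_mul_div, le_div_iff₀ (by positivity)]
          gcongr
        linarith
    have b3 := htn n
    have e1 : ((f (e n) : ℝ) : ℂ) - t n = ((f (e n) - fK (e n) : ℝ) : ℂ) + ((fK (e n) - fK (U M1 n) : ℝ) : ℂ) +
        (((fK (U M1 n) : ℝ) : ℂ) - t n) := by push_cast; ring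
    rw [e1]
    refine (norm_add_le _ _).trans ?_
    refine (add_le_add (norm_add_le _ _) le_rfl).trans ?_
    rw [Complex.norm_real, Complex.norm_real, Real.norm_eq_abs, Real.norm_eq_abs]
    linarith
  refine (fav_mono hpt).trans ?_
  rw [fav_add, fav_add, fav_mul, fav_mul, fav_const (hne j)]
  have d1 : 8 * C * fav (S j) (fun n => q (e n - U M0 n)) ≤ η/4 := by
    calc 8 * C * fav (S j) (fun n => q (e n - U M0 n)) ≤ 8 * C * (η / (32 * (C + 1))) := by gcongr
      _ ≤ η/4 := by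
        rw [mul_div_assoc', div_le_div_iff₀ (by positivity) (by norm_num)]
        nlinarith
  have d2 : 2 * Bf / δ^2 * fav (S j) (fun n => q (e n - U M1 n)) ≤ η/4 := by
    calc 2 * Bf / δ^2 * fav (S j) (fun n => q (e n - U M1 n)) ≤ 2 * Bf / δ^2 * (η / 4 * δ^2 / (2 * (Bf + 1))) := by gcongr
      _ = (η/4) * (Bf / (Bf + 1)) := by field_simp
      _ ≤ (η/4) * 1 := by
        apply mul_le_mul_of_nonneg_left _ (by positivity)
        rw [div_le_one (by positivity)]; linarith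
      _ = η/4 := mul_one _
  linarith

/-- convergence of the averages -/
theorem conv {Γ : AddSubgroup ℝ} {U : ℕ → ℕ → ι → ℝ} (hU : ∀ M i, (fun n => ((U M n i : ℝ) : ℂ)) ∈ TG Γ)
    {e : ℕ → ι → ℝ} {S : ℕ → Finset ℕ} (hne : ∀ j, (S j).Nonempty) (hS : AvOK Γ S) (h : ApU U e S)
    {f : (ι → ℝ) → ℝ} (hf : Continuous f) (hC : ∃ C : ℝ, ∀ x, |f x| ≤ C * (1 + q x)) :
    ∃ L : ℝ, Tendsto (fun j => fav (S j) (fun n => f (e n))) atTop (𝓝 L) := by
  apply cauchySeq_tendsto_of_complete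
  rw [Metric.cauchySeq_iff]
  intro ε hε
  obtain ⟨t, ht, j1, hj1⟩ := approx hU hne h hf hC (η := ε/4) (by positivity)
  obtain ⟨L, -, hL⟩ := TG_lim ht
  have hc : CauchySeq (fun j => cav (S j) t) := (hL S hS).cauchySeq
  rw [Metric.cauchySeq_iff] at hc
  obtain ⟨j2, hj2⟩ := hc (ε/4) (by positivity)
  refine ⟨max j1 j2, fun m hm n hn => ?_⟩
  have a1 := (norm_cav_sub_le (S m) (fun n => ((f (e n) : ℝ) : ℂ)) t).trans (hj1 m (by omega))
  have a2 := (norm_cav_sub_le (S n) (fun n => ((f (e n) : ℝ) : ℂ)) t).trans (hj1 n (by omega))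
  have a3 := hj2 m (by omega) n (by omega)
  rw [cav_ofReal] at a1 a2
  rw [dist_eq_norm] at a3
  rw [Real.dist_eq, ← Real.norm_eq_abs, ← Complex.norm_real, Complex.ofReal_sub]
  have e1 : ((fav (S m) (fun n => f (e n)) : ℝ) : ℂ) - ((fav (S n) (fun n => f (e n)) : ℝ) : ℂ) =
      (((fav (S m) (fun n => f (e n)) : ℝ) : ℂ) - cav (S m) t) + (cav (S m) t - cav (S n) t) -
      (((fav (S n) (fun n => f (e n)) : ℝ) : ℂ) - cav (S n) t) := by ring
  rw [e1]
  refine lt_of_le_of_lt (norm_sub_le _ _) ?_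
  refine lt_of_le_of_lt (add_le_add (norm_add_le _ _) le_rfl) ?_
  linarith

end Pool.Agent.H425R3.JL
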