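import Mathlib
import Pool.Agent.H425R3.JL.L1

open Filter Topology MeasureTheory
open Pool.Agent.H383.AP

namespace Pool.Agent.H425R3.JL

variable {ι : Type*} [Fintype ι]

lemma sq_bdd {Γ : AddSubgroup ℝ} {U : ℕ → ℕ → ι → ℝ} (hU : ∀ M i, (fun n => ((U M n i : ℝ) : ℂ)) ∈ TG Γ)
    {e : ℕ → ι → ℝ} {S : ℕ → Finset ℕ} (hne : ∀ j, (S j).Nonempty) (h : ApU U e S) :
    ∃ A : ℝ, 0 ≤ A ∧ ∀ j, fav (S j) (fun n => q (e n)) ≤ A := by
  obtain ⟨M0, hM0⟩ := h 1 one_pos
  obtain ⟨j1, hj1⟩ := hM0 M0 le_rfl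
  obtain ⟨B, hB0, hB⟩ := U_bdd (hU M0)
  set B2 : ℝ := (Fintype.card ι) * B^2 with hB2
  have hB20 : 0 ≤ B2 := by positivity
  have hqU : ∀ n, q (U M0 n) ≤ B2 := by
    intro n
    unfold q
    calc ∑ i, (U M0 n i)^2 ≤ ∑ i : ι, B^2 := Finset.sum_le_sum (fun i _ => by
          rw [← sq_abs]; exact pow_le_pow_left₀ (abs_nonneg _) (hB n i) 2)
      _ = B2 := by rw [Finset.sum_const, Finset.card_univ, nsmul_eq_mul]
  have hnn : ∀ j, 0 ≤ fav (S j) (fun n => q (e n)) := fun j => fav_nonneg (fun n => q_nonneg _)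
  refine ⟨(2 + 2 * B2) + ∑ j ∈ Finset.range j1, fav (S j) (fun n => q (e n)), ?_, fun j => ?_⟩
  · have : 0 ≤ ∑ j ∈ Finset.range j1, fav (S j) (fun n => q (e n)) := Finset.sum_nonneg (fun j _ => hnn j)
    positivity
  · by_cases hj : j1 ≤ j
    · have h1 : fav (S j) (fun n => q (e n)) ≤ 2 + 2 * B2 := by
        calc _ ≤ fav (S j) (fun n => 2 * q (e n - U M0 n) + 2 * B2) := fav_mono (fun n => by
              have := q_le_two (e n) (U M0 n)
              linarith [hqU n])
          _ = 2 * fav (S j) (fun n => q (e n - U M0 n)) + 2 * B2 := by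
              rw [fav_add, fav_mul, fav_const (hne j)]
          _ ≤ _ := by linarith [hj1 j hj]
      have : 0 ≤ ∑ j ∈ Finset.range j1, fav (S j) (fun n => q (e n)) := Finset.sum_nonneg (fun j _ => hnn j)
      linarith
    · push Not at hj
      have : fav (S j) (fun n => q (e n)) ≤ ∑ j ∈ Finset.range j1, fav (S j) (fun n => q (e n)) :=
        Finset.single_le_sum (f := fun j => fav (S j) (fun n => q (e n))) (fun j _ => hnn j) (Finset.mem_range.mpr hj)
      linarith

/-- uniform integrability -/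
lemma unif {Γ : AddSubgroup ℝ} {U : ℕ → ℕ → ι → ℝ} (hU : ∀ M i, (fun n => ((U M n i : ℝ) : ℂ)) ∈ TG Γ)
    {e : ℕ → ι → ℝ} {S : ℕ → Finset ℕ} (h : ApU U e S) {η : ℝ} (hη : 0 < η) :
    ∃ T : ℝ, 1 ≤ T ∧ ∃ j0, ∀ j, j0 ≤ j → fav (S j) (fun n => if T < q (e n) then q (e n) else 0) ≤ η := by
  obtain ⟨M0, hM0⟩ := h (η/4) (by positivity)
  obtain ⟨j1, hj1⟩ := hM0 M0 le_rfl
  obtain ⟨B, hB0, hB⟩ := U_bdd (hU M0)
  set B2 : ℝ := (Fintype.card ι) * B^2 with hB2
  have hB20 : 0 ≤ B2 := by positivity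
  have hqU : ∀ n, q (U M0 n) ≤ B2 := by
    intro n
    unfold q
    calc ∑ i, (U M0 n i)^2 ≤ ∑ i : ι, B^2 := Finset.sum_le_sum (fun i _ => by
          rw [← sq_abs]; exact pow_le_pow_left₀ (abs_nonneg _) (hB n i) 2)
      _ = B2 := by rw [Finset.sum_const, Finset.card_univ, nsmul_eq_mul]
  refine ⟨4 * B2 + 1, by linarith, j1, fun j hj => ?_⟩
  calc _ ≤ fav (S j) (fun n => 4 * q (e n - U M0 n)) := fav_mono (fun n => by
        split_ifs with hx
        · exact q_far (hqU n) (by linarith)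
        · have := q_nonneg (e n - U M0 n); positivity)
    _ = 4 * fav (S j) (fun n => q (e n - U M0 n)) := fav_mul _ _ _
    _ ≤ η := by linarith [hj1 j hj]

/-- empirical measures -/
noncomputable def emp (S : Finset ℕ) (e : ℕ → ι → ℝ) : Measure (ι → ℝ) :=
  ((S.card : ℕ) : ENNReal)⁻¹ • ∑ n ∈ S, Measure.dirac (e n)

lemma emp_prob {S : Finset ℕ} (hS : S.Nonempty) (e : ℕ → ι → ℝ) : IsProbabilityMeasure (emp S e) := by
  constructor
  unfold emp
  simp only [Measure.smul_apply, Measure.coe_finsetSum, Finset.sum_apply, measure_univ, Finset.sum_const,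
    nsmul_eq_mul, mul_one, smul_eq_mul]
  apply ENNReal.inv_mul_cancel
  · exact_mod_cast (Finset.card_pos.mpr hS).ne'
  · simp

lemma emp_int (S : Finset ℕ) (e : ℕ → ι → ℝ) {f : (ι → ℝ) → ℝ} (hf : Continuous f) :
    ∫ x, f x ∂(emp S e) = fav S (fun n => f (e n)) := by
  unfold emp fav
  rw [integral_smul_measure, integral_finsetSum_measure]
  · rw [smul_eq_mul, div_eq_inv_mul]
    congr 1
    · rw [ENNReal.toReal_inv, ENNReal.toReal_natCast]
    · apply Finset.sum_congr rfl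
      intro n _
      rw [integral_dirac]
  · intro n _
    exact integrable_dirac' hf.stronglyMeasurable (by simp)

lemma emp_integrable {S : Finset ℕ} (hS : S.Nonempty) (e : ℕ → ι → ℝ) {f : (ι → ℝ) → ℝ} (hf : Continuous f) :
    Integrable f (emp S e) := by
  unfold emp
  apply Integrable.smul_measure
  · rw [integrable_finsetSum_measure]
    intro n _
    exact integrable_dirac' hf.stronglyMeasurable (by simp)
  · rw [ENNReal.inv_ne_top]
    exact_mod_cast (Finset.card_pos.mpr hS).ne'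

lemma emp_lint {S : Finset ℕ} (hS : S.Nonempty) (e : ℕ → ι → ℝ) {f : (ι → ℝ) → ℝ} (hf : Continuous f) (h0 : ∀ x, 0 ≤ f x) :
    ∫⁻ x, ENNReal.ofReal (f x) ∂(emp S e) = ENNReal.ofReal (fav S (fun n => f (e n))) := by
  rw [← emp_int S e hf, ofReal_integral_eq_lintegral_ofReal]
  · exact emp_integrable hS e hf
  · exact Eventually.of_forall h0

lemma K_compact (T : ℝ) : IsCompact {x : ι → ℝ | q x ≤ T} := by
  apply IsCompact.of_isClosed_subset (isCompact_closedBall (0 : ι → ℝ) (√T))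
  · exact isClosed_le q_cont continuous_const
  · intro x hx
    simp only [Set.mem_setOf_eq] at hx
    rw [Metric.mem_closedBall, dist_zero_right, pi_norm_le_iff_of_nonneg (Real.sqrt_nonneg _)]
    intro i
    rw [Real.norm_eq_abs]
    apply Real.abs_le_sqrt
    refine le_trans ?_ hx
    unfold q
    exact Finset.single_le_sum (f := fun i => (x i)^2) (fun i _ => sq_nonneg _) (Finset.mem_univ i)

/-- from bounded test functions to test functions of quadratic growth -/
theorem law_of {Γ : AddSubgroup ℝ} {U : ℕ → ℕ → ι → ℝ} (hU : ∀ M i, (fun n => ((U M n i : ℝ) : ℂ)) ∈ TG Γ)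
    {e : ℕ → ι → ℝ} {S : ℕ → Finset ℕ} (hne : ∀ j, (S j).Nonempty) (h : ApU U e S)
    {μ : ProbabilityMeasure (ι → ℝ)}
    (hb : ∀ g : (ι → ℝ) → ℝ, Continuous g → (∃ B, ∀ x, |g x| ≤ B) →
      Tendsto (fun j => fav (S j) (fun n => g (e n))) atTop (𝓝 (∫ x, g x ∂(μ : Measure (ι → ℝ))))) :
    Integrable q (μ : Measure (ι → ℝ)) ∧
    ∀ f : (ι → ℝ) → ℝ, Continuous f → (∃ C, ∀ x, |f x| ≤ C * (1 + q x)) →
      Tendsto (fun j => fav (S j) (fun n => f (e n))) atTop (𝓝 (∫ x, f x ∂(μ : Measure (ι → ℝ)))) := by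
  obtain ⟨A, hA0, hA⟩ := sq_bdd hU hne h
  -- cutoffs
  set χ : ℕ → (ι → ℝ) → ℝ := fun K x => max 0 (min 1 (2 - q x / (K+1))) with hχ
  have hχc : ∀ K, Continuous (χ K) := by
    intro K
    simp only [hχ]
    have : Continuous (fun x : ι → ℝ => q x / ((K:ℝ)+1)) := q_cont.div_const _
    fun_prop
  have hχ0 : ∀ K x, 0 ≤ χ K x := fun K x => le_max_left _ _
  have hχ1 : ∀ K x, χ K x ≤ 1 := fun K x => max_le (by norm_num) (min_le_left _ _)
  have hχeq : ∀ (K : ℕ) (x : ι → ℝ), q x ≤ K + 1 → χ K x = 1 := by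
    intro K x hx
    have : q x / ((K:ℝ)+1) ≤ 1 := by rw [div_le_one (by positivity)]; exact hx
    simp only [hχ]
    rw [min_eq_left (by linarith), max_eq_right (by norm_num)]
  have hχz : ∀ (K : ℕ) (x : ι → ℝ), 2 * (K + 1) ≤ q x → χ K x = 0 := by
    intro K x hx
    have : 2 ≤ q x / ((K:ℝ)+1) := by rw [le_div_iff₀ (by positivity)]; exact hx
    simp only [hχ]
    rw [max_eq_left]
    exact (min_le_right _ _).trans (by linarith)
  have hcut : ∀ (f : (ι → ℝ) → ℝ), Continuous f → ∀ C : ℝ, 0 ≤ C → (∀ x, |f x| ≤ C * (1 + q x)) → ∀ K : ℕ,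
      (∀ x, |f x * χ K x| ≤ C * (1 + 2 * (K + 1))) := by
    intro f hf C hC0 hC K x
    rw [abs_mul, abs_of_nonneg (hχ0 K x)]
    by_cases hx : 2 * ((K:ℝ) + 1) ≤ q x
    · rw [hχz K x hx, mul_zero]; positivity
    · push Not at hx
      have h1 : |f x| ≤ C * (1 + 2 * (K + 1)) := by
        refine (hC x).trans ?_
        gcongr
      have h2 := hχ1 K x
      have h3 := abs_nonneg (f x)
      nlinarith [hχ0 K x]
  -- integrability of q
  have hq : Integrable (q : (ι → ℝ) → ℝ) (μ : Measure (ι → ℝ)) := by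
    have h1 : ∀ K : ℕ, ∫ x, q x * χ K x ∂(μ : Measure (ι → ℝ)) ≤ A := by
      intro K
      have h2 := hb (fun x => q x * χ K x) (q_cont.mul (hχc K)) ⟨_, hcut q q_cont 1 zero_le_one (fun x => by
        rw [abs_of_nonneg (q_nonneg x)]; linarith) K⟩
      apply le_of_tendsto h2
      refine Eventually.of_forall (fun j => ?_)
      refine le_trans (fav_mono (fun n => ?_)) (hA j)
      calc q (e n) * χ K (e n) ≤ q (e n) * 1 := mul_le_mul_of_nonneg_left (hχ1 K _) (q_nonneg _)
        _ = q (e n) := mul_one _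
    refine ⟨q_cont.aestronglyMeasurable, ?_⟩
    rw [hasFiniteIntegral_iff_ofReal (Eventually.of_forall (fun x => q_nonneg x))]
    have h2 : ∫⁻ x, ENNReal.ofReal (q x) ∂(μ : Measure (ι → ℝ)) ≤
        liminf (fun K : ℕ => ∫⁻ x, ENNReal.ofReal (q x * χ K x) ∂(μ : Measure (ι → ℝ))) atTop := by
      have h3 : ∀ x, ENNReal.ofReal (q x) = liminf (fun K : ℕ => ENNReal.ofReal (q x * χ K x)) atTop := by
        intro x
        symm
        apply Tendsto.liminf_eq
        apply tendsto_const_nhds.congr'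
        obtain ⟨K0, hK0⟩ := exists_nat_ge (q x)
        filter_upwards [eventually_ge_atTop K0] with K hK
        have : (K0:ℝ) ≤ K := by exact_mod_cast hK
        rw [hχeq K x (by linarith), mul_one]
      simp only [h3]
      apply lintegral_liminf_le
      intro K
      exact (q_cont.mul (hχc K)).measurable.ennreal_ofReal
    refine lt_of_le_of_lt h2 ?_
    have h4 : ∀ K : ℕ, ∫⁻ x, ENNReal.ofReal (q x * χ K x) ∂(μ : Measure (ι → ℝ)) ≤ ENNReal.ofReal A := by
      intro K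
      rw [← ofReal_integral_eq_lintegral_ofReal]
      · exact ENNReal.ofReal_le_ofReal (h1 K)
      · apply Integrable.of_bound (q_cont.mul (hχc K)).aestronglyMeasurable (1 * (1 + 2 * (K + 1)))
        refine Eventually.of_forall (fun x => ?_)
        rw [Real.norm_eq_abs]
        exact hcut q q_cont 1 zero_le_one (fun x => by rw [abs_of_nonneg (q_nonneg x)]; linarith) K x
      · exact Eventually.of_forall (fun x => mul_nonneg (q_nonneg x) (hχ0 K x))
    have h5 : liminf (fun K : ℕ => ∫⁻ x, ENNReal.ofReal (q x * χ K x) ∂(μ : Measure (ι → ℝ))) atTop ≤ ENNReal.ofReal A := by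
      refine (liminf_le_liminf (v := fun _ => ENNReal.ofReal A) (Eventually.of_forall h4)).trans ?_
      rw [liminf_const]
    exact lt_of_le_of_lt h5 ENNReal.ofReal_lt_top
  refine ⟨hq, ?_⟩
  intro f hf hC
  obtain ⟨C, hC⟩ := hC
  have hC0 : 0 ≤ C := by
    have h1 := hC 0
    have h2 := abs_nonneg (f 0)
    have h3 : q (0 : ι → ℝ) = 0 := by simp [q]
    rw [h3] at h1; linarith
  have hintf : Integrable f (μ : Measure (ι → ℝ)) := by
    apply Integrable.mono' ((integrable_const (1:ℝ)).add hq |>.const_mul C) hf.aestronglyMeasurable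
    exact Eventually.of_forall (fun x => by
      rw [Real.norm_eq_abs]
      simpa using hC x)
  have hfK : ∀ K : ℕ, Tendsto (fun j => fav (S j) (fun n => f (e n) * χ K (e n))) atTop
      (𝓝 (∫ x, f x * χ K x ∂(μ : Measure (ι → ℝ)))) := fun K =>
    hb (fun x => f x * χ K x) (hf.mul (hχc K)) ⟨_, hcut f hf C hC0 hC K⟩
  have hDCT : Tendsto (fun K : ℕ => ∫ x, f x * χ K x ∂(μ : Measure (ι → ℝ))) atTop (𝓝 (∫ x, f x ∂(μ : Measure (ι → ℝ)))) := by
    apply tendsto_integral_of_dominated_convergence (fun x => |f x|)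
    · intro K; exact (hf.mul (hχc K)).aestronglyMeasurable
    · exact hintf.abs
    · intro K
      refine Eventually.of_forall (fun x => ?_)
      rw [Real.norm_eq_abs, abs_mul, abs_of_nonneg (hχ0 K x)]
      exact mul_le_of_le_one_right (abs_nonneg _) (hχ1 K x)
    · refine Eventually.of_forall (fun x => ?_)
      apply tendsto_const_nhds.congr'
      obtain ⟨K0, hK0⟩ := exists_nat_ge (q x)
      filter_upwards [eventually_ge_atTop K0] with K hK
      have : (K0:ℝ) ≤ K := by exact_mod_cast hK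
      rw [hχeq K x (by linarith), mul_one]
  rw [Metric.tendsto_atTop]
  intro ε hε
  obtain ⟨K1, hK1, N1, hN1⟩ := unif hU h (η := ε / (8 * (C + 1))) (by positivity)
  rw [Metric.tendsto_atTop] at hDCT
  obtain ⟨K2, hK2⟩ := hDCT (ε/4) (by positivity)
  obtain ⟨K3, hK3⟩ := exists_nat_ge K1
  set K := max K2 K3 with hK
  have hKK1 : K1 ≤ (K:ℝ) + 1 := by
    have : (K3:ℝ) ≤ K := by exact_mod_cast le_max_right _ _
    linarith
  have hfK' := hfK K
  rw [Metric.tendsto_atTop] at hfK'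
  obtain ⟨N2, hN2⟩ := hfK' (ε/4) (by positivity)
  refine ⟨max N1 N2, ?_⟩
  intro N hN
  have a1 := hN1 N (by omega)
  have a2 := hN2 N (by omega)
  have a3 := hK2 K (le_max_left _ _)
  rw [Real.dist_eq] at a2 a3 ⊢
  have a4 : |fav (S N) (fun n => f (e n)) - fav (S N) (fun n => f (e n) * χ K (e n))| ≤ ε/4 := by
    rw [← fav_sub]
    have e2 := abs_fav_le (S N) (fun n => f (e n) - f (e n) * χ K (e n))
    have e3 : ∀ n, |f (e n) - f (e n) * χ K (e n)| ≤ (2 * C) * (if K1 < q (e n) then q (e n) else 0) := by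
      intro n
      by_cases hx : q (e n) ≤ K + 1
      · rw [hχeq K _ hx, mul_one, sub_self, abs_zero]
        have := q_nonneg (e n)
        split_ifs <;> positivity
      · push Not at hx
        have hx1 : K1 < q (e n) := by linarith
        rw [if_pos hx1]
        have b1 : f (e n) - f (e n) * χ K (e n) = f (e n) * (1 - χ K (e n)) := by ring
        rw [b1, abs_mul, abs_of_nonneg (by linarith [hχ1 K (e n)] : 0 ≤ 1 - χ K (e n))]
        have b2 : |f (e n)| * (1 - χ K (e n)) ≤ |f (e n)| * 1 :=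
          mul_le_mul_of_nonneg_left (by linarith [hχ0 K (e n)]) (abs_nonneg _)
        have b3 : 1 ≤ q (e n) := by
          have : (0:ℝ) ≤ K := Nat.cast_nonneg K
          linarith
        have b4 := hC (e n)
        nlinarith
    refine e2.trans ((fav_mono e3).trans ?_)
    rw [fav_mul]
    calc 2 * C * fav (S N) (fun n => if K1 < q (e n) then q (e n) else 0) ≤ 2 * C * (ε / (8 * (C + 1))) :=
          mul_le_mul_of_nonneg_left a1 (by positivity)
      _ ≤ ε/4 := by
          rw [mul_div_assoc', div_le_div_iff₀ (by positivity) (by norm_num)]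
          nlinarith
  have e5 : fav (S N) (fun n => f (e n)) - ∫ x, f x ∂(μ : Measure (ι → ℝ)) =
      (fav (S N) (fun n => f (e n)) - fav (S N) (fun n => f (e n) * χ K (e n))) +
      (fav (S N) (fun n => f (e n) * χ K (e n)) - ∫ x, f x * χ K x ∂(μ : Measure (ι → ℝ))) +
      (∫ x, f x * χ K x ∂(μ : Measure (ι → ℝ)) - ∫ x, f x ∂(μ : Measure (ι → ℝ))) := by ring
  rw [e5]
  refine lt_of_le_of_lt (abs_add_le _ _) ?_
  refine lt_of_le_of_lt (add_le_add (abs_add_le _ _) le_rfl) ?_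
  linarith

/-- existence of the limit law -/
theorem law {Γ : AddSubgroup ℝ} {U : ℕ → ℕ → ι → ℝ} (hU : ∀ M i, (fun n => ((U M n i : ℝ) : ℂ)) ∈ TG Γ)
    {e : ℕ → ι → ℝ} {S : ℕ → Finset ℕ} (hne : ∀ j, (S j).Nonempty) (hS : AvOK Γ S) (h : ApU U e S) :
    ∃ μ : ProbabilityMeasure (ι → ℝ), Integrable q (μ : Measure (ι → ℝ)) ∧
    ∀ f : (ι → ℝ) → ℝ, Continuous f → (∃ C, ∀ x, |f x| ≤ C * (1 + q x)) →
      Tendsto (fun j => fav (S j) (fun n => f (e n))) atTop (𝓝 (∫ x, f x ∂(μ : Measure (ι → ℝ)))) := by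
  obtain ⟨A, hA0, hA⟩ := sq_bdd hU hne h
  have hlim : ∀ g : (ι → ℝ) → ℝ, Continuous g → (∃ B, ∀ x, |g x| ≤ B) →
      ∃ L : ℝ, Tendsto (fun j => fav (S j) (fun n => g (e n))) atTop (𝓝 L) := by
    intro g hg hB
    obtain ⟨B, hB⟩ := hB
    refine conv hU hne hS h hg ⟨B, fun x => ?_⟩
    have h1 := hB x
    have h2 : 0 ≤ B := (abs_nonneg _).trans h1
    nlinarith [q_nonneg x]
  haveI : ∀ j, IsProbabilityMeasure (emp (S j) e) := fun j => emp_prob (hne j) e
  set P : ℕ → ProbabilityMeasure (ι → ℝ) := fun j => ⟨emp (S j) e, inferInstance⟩ with hP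
  have htight : IsTightMeasureSet {((ν : ProbabilityMeasure (ι → ℝ)) : Measure (ι → ℝ)) | ν ∈ Set.range P} := by
    rw [isTightMeasureSet_iff_exists_isCompact_measure_compl_le]
    intro ε hε
    by_cases hεt : ε = ⊤
    · refine ⟨∅, isCompact_empty, fun ν _ => ?_⟩
      rw [hεt]; exact le_top
    set T : ℝ := (A + 1) / ε.toReal with hT
    have hε' : 0 < ε.toReal := ENNReal.toReal_pos hε.ne' hεt
    have hT0 : 0 < T := by positivity
    refine ⟨{x | q x ≤ T}, K_compact T, ?_⟩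
    rintro _ ⟨ν, ⟨j, rfl⟩, rfl⟩
    have h1 := mul_meas_ge_le_lintegral (μ := emp (S j) e) (f := fun x => ENNReal.ofReal (q x))
      (q_cont.measurable.ennreal_ofReal) (ENNReal.ofReal T)
    rw [emp_lint (hne j) e q_cont q_nonneg] at h1
    have h2 : (emp (S j) e) {x | q x ≤ T}ᶜ ≤ (emp (S j) e) {x | ENNReal.ofReal T ≤ ENNReal.ofReal (q x)} := by
      apply measure_mono
      intro x hx
      simp only [Set.mem_compl_iff, Set.mem_setOf_eq, not_le] at hx ⊢
      exact ENNReal.ofReal_le_ofReal hx.le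
    have h3 : ENNReal.ofReal T * (emp (S j) e) {x | q x ≤ T}ᶜ ≤ ENNReal.ofReal (A + 1) := by
      refine (mul_le_mul_right h2 _).trans (h1.trans ?_)
      apply ENNReal.ofReal_le_ofReal
      linarith [hA j]
    have h4 : ENNReal.ofReal (A + 1) = ENNReal.ofReal T * ε := by
      conv_rhs => rw [← ENNReal.ofReal_toReal hεt, ← ENNReal.ofReal_mul hT0.le]
      congr 1
      rw [hT]
      field_simp
    rw [h4] at h3
    exact (ENNReal.mul_le_mul_iff_right (by simpa using hT0) ENNReal.ofReal_ne_top).mp h3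
  have hcomp : IsCompact (closure (Set.range P)) := isCompact_closure_of_isTightMeasureSet htight
  let W : Ultrafilter ℕ := Ultrafilter.of atTop
  obtain ⟨μ, -, hμ⟩ := hcomp.ultrafilter_le_nhds (W.map P)
    (by
      rw [Filter.le_principal_iff]
      apply Filter.mem_of_superset (Filter.range_mem_map)
      exact subset_closure)
  have hW : (W : Filter ℕ) ≤ atTop := Ultrafilter.of_le atTop
  have hμ' : Tendsto P (W : Filter ℕ) (𝓝 μ) := hμ
  rw [ProbabilityMeasure.tendsto_iff_forall_integral_tendsto] at hμ'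
  refine ⟨μ, ?_⟩
  apply law_of hU hne h
  intro g hg hB
  obtain ⟨L, hL⟩ := hlim g hg hB
  obtain ⟨B, hB⟩ := hB
  have h1 := hμ' (BoundedContinuousFunction.ofNormedAddCommGroup g hg B hB)
  have h2 : Tendsto (fun j => fav (S j) (fun n => g (e n))) (W : Filter ℕ) (𝓝 (∫ x, g x ∂(μ : Measure (ι → ℝ)))) := by
    refine h1.congr ?_
    intro j
    exact emp_int (S j) e hg
  have h3 := hL.mono_left hW
  rw [← tendsto_nhds_unique h3 h2]
  exact hL

/-- interleaving of two sequences of finite sets -/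
def il (S S' : ℕ → Finset ℕ) (j : ℕ) : Finset ℕ := if j % 2 = 0 then S (j/2) else S' (j/2)

lemma il_even (S S' : ℕ → Finset ℕ) (j : ℕ) : il S S' (2*j) = S j := by
  unfold il; rw [if_pos (by omega)]; congr 1; omega

lemma il_odd (S S' : ℕ → Finset ℕ) (j : ℕ) : il S S' (2*j+1) = S' j := by
  unfold il; rw [if_neg (by omega)]; congr 1; omega

lemma il_tendsto {X : Type*} [TopologicalSpace X] {S S' : ℕ → Finset ℕ} {F : Finset ℕ → X} {L : X}
    (h : Tendsto (fun j => F (S j)) atTop (𝓝 L)) (h' : Tendsto (fun j => F (S' j)) atTop (𝓝 L)) :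
    Tendsto (fun j => F (il S S' j)) atTop (𝓝 L) := by
  rw [tendsto_nhds] at h h' ⊢
  intro s hs hL
  have h1 := h s hs hL
  have h2 := h' s hs hL
  rw [mem_atTop_sets] at h1 h2 ⊢
  obtain ⟨a, ha⟩ := h1
  obtain ⟨b, hb⟩ := h2
  refine ⟨2 * a + 2 * b + 2, fun j hj => ?_⟩
  simp only [Set.mem_preimage, il] at ha hb ⊢
  split_ifs with hj2
  · exact ha (j/2) (by omega)
  · exact hb (j/2) (by omega)

/-- two admissible families give the same law -/
theorem law_transfer {Γ : AddSubgroup ℝ} {U : ℕ → ℕ → ι → ℝ} (hU : ∀ M i, (fun n => ((U M n i : ℝ) : ℂ)) ∈ TG Γ)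
    {e : ℕ → ι → ℝ} {S S' : ℕ → Finset ℕ} (hne : ∀ j, (S j).Nonempty) (hS : AvOK Γ S) (h : ApU U e S)
    (hne' : ∀ j, (S' j).Nonempty) (hS' : AvOK Γ S') (h' : ApU U e S')
    {f : (ι → ℝ) → ℝ} (hf : Continuous f) (hC : ∃ C, ∀ x, |f x| ≤ C * (1 + q x)) {L : ℝ}
    (hL : Tendsto (fun j => fav (S j) (fun n => f (e n))) atTop (𝓝 L)) :
    Tendsto (fun j => fav (S' j) (fun n => f (e n))) atTop (𝓝 L) := by
  have hne2 : ∀ j, (il S S' j).Nonempty := by
    intro j; unfold il; split_ifs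
    · exact hne _
    · exact hne' _
  have hS2 : AvOK Γ (il S S') := fun θ hθ => il_tendsto (F := fun A => cav A (chr θ)) (hS θ hθ) (hS' θ hθ)
  have h2 : ApU U e (il S S') := by
    intro η hη
    obtain ⟨M1, h1⟩ := h η hη
    obtain ⟨M2, h2⟩ := h' η hη
    refine ⟨max M1 M2, fun M hM => ?_⟩
    obtain ⟨j1, hj1⟩ := h1 M (by omega)
    obtain ⟨j2, hj2⟩ := h2 M (by omega)
    refine ⟨2 * j1 + 2 * j2 + 2, fun j hj => ?_⟩
    unfold il
    split_ifs
    · exact hj1 _ (by omega)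
    · exact hj2 _ (by omega)
  obtain ⟨L2, hL2⟩ := conv hU hne2 hS2 h2 hf hC
  have h3 : Tendsto (fun j => fav (il S S' (2*j)) (fun n => f (e n))) atTop (𝓝 L2) :=
    hL2.comp (tendsto_atTop_mono (fun j => by simp only [id]; omega) tendsto_id : Tendsto (fun j : ℕ => 2*j) atTop atTop)
  have h4 : Tendsto (fun j => fav (il S S' (2*j+1)) (fun n => f (e n))) atTop (𝓝 L2) :=
    hL2.comp (tendsto_atTop_mono (fun j => by simp only [id]; omega) tendsto_id : Tendsto (fun j : ℕ => 2*j+1) atTop atTop)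
  simp only [il_even] at h3
  simp only [il_odd] at h4
  rw [tendsto_nhds_unique hL h3]
  exact h4

end Pool.Agent.H425R3.JL
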