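import Mathlib
import Pool.Agent.H373R2.T7.Minor
import Pool.Agent.H425R3.JL.L1

open Filter Topology
open Pool.Agent.H383.AP

namespace Pool.Agent.H425R3.JL

open Pool.Agent.H807R2.Dav (ee norm_ee ee_eq)

lemma ee_chr (θ : ℝ) (n : ℕ) : ee ((n:ℝ) * θ) = chr θ n := by
  rw [ee_eq]; rfl

/-- a power of the logarithm is smaller than any linear function -/
lemma log_pow_small (k : ℕ) (c : ℝ) : ∃ N0 : ℕ, 3 ≤ N0 ∧ ∀ N : ℕ, N0 ≤ N → 1 ≤ Real.log N ∧ c * Real.log N ^ k ≤ N := by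
  obtain ⟨x0, h0⟩ := Pool.Agent.H373R2.T7.ev_log' k c
  obtain ⟨x1, h1⟩ := Pool.Agent.H373R2.T7.ev_L' 1
  refine ⟨max (max x0 x1) 3, le_max_right _ _, fun N hN => ⟨h1 N (by omega), (h0 N (by omega)).trans ?_⟩⟩
  have hN1 : (1:ℝ) ≤ N := by exact_mod_cast (by omega : 1 ≤ N)
  rw [Real.sqrt_le_left (by linarith)]
  nlinarith

/-- minor arcs, in the form of a hypothesis on rational approximations with small denominators -/
theorem minor_use (U : ℕ) : ∃ B N0 : ℕ, ∀ N : ℕ, N0 ≤ N → ∀ θ : ℝ,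
    (∀ q : ℕ, 1 ≤ q → (q:ℝ) < Real.log N ^ B → ∀ p : ℤ, Real.log N ^ B / (N * q) < |θ - p / q|) →
    ‖∑ n ∈ Finset.Icc 1 N, ((ArithmeticFunction.vonMangoldt n : ℝ) : ℂ) * chr θ n‖ ≤ N / Real.log N ^ U := by
  obtain ⟨B, N1, h⟩ := Pool.Agent.H373R2.T7.minor_primes U
  obtain ⟨N2, hN2, h2⟩ := log_pow_small B 1
  refine ⟨B, max N1 N2, fun N hN θ hθ => ?_⟩
  obtain ⟨hl, hlB⟩ := h2 N (by omega)
  rw [one_mul] at hlB
  have hN0 : (0:ℝ) < N := by exact_mod_cast (by omega : 0 < N)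
  have hLB : 0 < Real.log N ^ B := by positivity
  set Q : ℕ := ⌊(N:ℝ) / Real.log N ^ B⌋₊ with hQ
  have hQ1 : 1 ≤ Q := by
    rw [hQ]; apply Nat.le_floor
    rw [Nat.cast_one, le_div_iff₀ hLB, one_mul]; exact hlB
  have hQ2 : (N:ℝ) / Real.log N ^ B < Q + 1 := Nat.lt_floor_add_one _
  have hQ3 : (Q:ℝ) ≤ N / Real.log N ^ B := Nat.floor_le (by positivity)
  obtain ⟨r, hr1, hr2⟩ := Real.exists_rat_abs_sub_le_and_den_le θ hQ1
  have hden : 0 < r.den := r.den_pos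
  have hden' : (0:ℝ) < r.den := by exact_mod_cast hden
  have hrc : (r : ℝ) = (r.num : ℝ) / (r.den : ℝ) := by exact_mod_cast (Rat.num_div_den r).symm
  rw [hrc] at hr1
  have hge : Real.log N ^ B ≤ r.den := by
    by_contra hcon
    push Not at hcon
    have h3 := hθ r.den hden hcon r.num
    have h4 : 1 / (((Q:ℝ) + 1) * r.den) ≤ Real.log N ^ B / (N * r.den) := by
      rw [div_le_div_iff₀ (by positivity) (by positivity)]
      rw [div_lt_iff₀ hLB] at hQ2
      nlinarith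
    linarith
  have hsq : |θ - r.num / r.den| ≤ 1 / (r.den:ℝ)^2 := by
    refine hr1.trans ?_
    apply one_div_le_one_div_of_le (by positivity)
    have : (r.den:ℝ) ≤ Q := by exact_mod_cast hr2
    nlinarith
  have hfin := h N (by omega) r.den hge ((by exact_mod_cast hr2 : (r.den:ℝ) ≤ Q).trans hQ3) r.num
    (Rat.isCoprime_num_den r) θ hsq
  simp only [ee_chr] at hfin
  exact hfin

/-- irrational algebraic integers -/
theorem minor_alg (U : ℕ) {θ : ℝ} (hirr : Irrational θ) (hint : IsIntegral ℤ θ) : ∃ N0 : ℕ, ∀ N : ℕ, N0 ≤ N →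
    ‖∑ n ∈ Finset.Icc 1 N, ((ArithmeticFunction.vonMangoldt n : ℝ) : ℂ) * chr θ n‖ ≤ N / Real.log N ^ U := by
  obtain ⟨B, N1, h⟩ := minor_use U
  obtain ⟨f, hf1, hf2⟩ := hint
  have hf0 : f ≠ 0 := hf1.ne_zero
  obtain ⟨A, hA, hL⟩ := Liouville.exists_pos_real_of_irrational_root hirr hf0 (by
    rw [Polynomial.eval_map]; exact hf2)
  set D := f.natDegree with hD
  obtain ⟨N2, hN2, h2⟩ := log_pow_small (B + B * D + 1) (A + 1)
  refine ⟨max N1 N2, fun N hN => h N (by omega) θ ?_⟩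
  intro q hq hqB p
  obtain ⟨hl, hlB⟩ := h2 N (by omega)
  have hN0 : (0:ℝ) < N := by exact_mod_cast (by omega : 0 < N)
  have hq0 : (0:ℝ) < q := by exact_mod_cast hq
  have hq1 : (1:ℝ) ≤ q := by exact_mod_cast hq
  have h3 := hL p (q - 1)
  have e : (((q - 1 : ℕ) : ℝ) + 1) = q := by
    rw [Nat.cast_sub hq]; push_cast; ring
  rw [e] at h3
  have hqD : (q:ℝ)^D ≤ Real.log N ^ (B * D) := by
    rw [pow_mul]
    exact pow_le_pow_left₀ hq0.le hqB.le D
  have hl0 : 0 < Real.log N := by linarith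
  rw [div_lt_iff₀ (by positivity)]
  set Δ := |θ - p / q| with hΔ
  have hΔ0 : 0 ≤ Δ := abs_nonneg _
  -- 1 ≤ log^{BD} * Δ * A
  have h4 : 1 ≤ Real.log N ^ (B * D) * (Δ * A) := h3.trans (by gcongr)
  -- log^B < Δ * N * q
  have h5 : Real.log N ^ B * (A * Real.log N ^ (B * D)) < N := by
    have e1 : Real.log N ^ (B + B * D + 1) = Real.log N ^ B * Real.log N ^ (B * D) * Real.log N := by
      rw [pow_succ, pow_add]
    rw [e1] at hlB
    have e2 : 0 < Real.log N ^ B * Real.log N ^ (B * D) := by positivity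
    have e3 : Real.log N ^ B * Real.log N ^ (B * D) ≤ Real.log N ^ B * Real.log N ^ (B * D) * Real.log N :=
      le_mul_of_one_le_right e2.le hl
    nlinarith
  have hLBp : 0 < Real.log N ^ B := by positivity
  by_contra hcon
  push Not at hcon
  -- Δ * N ≤ Δ * (N*q) ≤ log^B
  have h6 : Δ * N ≤ Real.log N ^ B := by
    refine le_trans ?_ hcon
    have : 0 ≤ Δ * N := by positivity
    nlinarith
  have h7 : (1:ℝ) * N ≤ Real.log N ^ (B * D) * A * (Δ * N) := by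
    calc (1:ℝ) * N ≤ (Real.log N ^ (B * D) * (Δ * A)) * N := by gcongr
      _ = _ := by ring
  have h8 : Real.log N ^ (B * D) * A * (Δ * N) ≤ Real.log N ^ (B * D) * A * Real.log N ^ B := by gcongr
  nlinarith

lemma sq_of_rat {B : ℕ} {x y : ℝ} (hx : ∃ k : ℤ, x = k) (hy : ∃ k : ℤ, y = k) (hy0 : y ≠ 0)
    (h : y * √(B:ℝ) = x) : IsSquare B := by
  by_contra hcon
  have hirr := (irrational_sqrt_natCast_iff (n := B)).mpr hcon
  obtain ⟨k, rfl⟩ := hx
  obtain ⟨l, rfl⟩ := hy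
  apply hirr
  refine ⟨(k:ℚ) / l, ?_⟩
  push_cast
  rw [div_eq_iff hy0]
  linarith

lemma ne_of_not_sq {A B q : ℕ} (hq : 1 ≤ q) (hAB : A ≠ B) (hns : ¬ (IsSquare A ∧ IsSquare B)) {u v : ℤ}
    (hu : u = q ∨ u = -q) (hv : v = q ∨ v = -q) (p : ℤ) : (u:ℝ) * √(A:ℝ) + v * √(B:ℝ) ≠ p := by
  intro h
  have hq0 : (q:ℤ) ≠ 0 := by exact_mod_cast (by omega : q ≠ 0)
  have hu2 : (u:ℝ)^2 = (q:ℝ)^2 := by rcases hu with rfl | rfl <;> push_cast <;> ring
  have hv2 : (v:ℝ)^2 = (q:ℝ)^2 := by rcases hv with rfl | rfl <;> push_cast <;> ring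
  have hu0 : (u:ℝ) ≠ 0 := by
    rcases hu with rfl | rfl
    · exact_mod_cast hq0
    · push_cast; simpa using (by exact_mod_cast hq0 : (q:ℝ) ≠ 0)
  have hv0 : (v:ℝ) ≠ 0 := by
    rcases hv with rfl | rfl
    · exact_mod_cast hq0
    · push_cast; simpa using (by exact_mod_cast hq0 : (q:ℝ) ≠ 0)
  have sA : √(A:ℝ)^2 = A := Real.sq_sqrt (Nat.cast_nonneg A)
  have sB : √(B:ℝ)^2 = B := Real.sq_sqrt (Nat.cast_nonneg B)
  have hq0' : (q:ℝ)^2 ≠ 0 := by
    have : (q:ℝ) ≠ 0 := by exact_mod_cast (by omega : q ≠ 0)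
    positivity
  by_cases hp : p = 0
  · subst hp
    have h1 : (u:ℝ) * √(A:ℝ) = -(v * √(B:ℝ)) := by push_cast at h; linarith
    have h2 : ((u:ℝ) * √(A:ℝ))^2 = (v * √(B:ℝ))^2 := by rw [h1]; ring
    rw [mul_pow, mul_pow, hu2, hv2, sA, sB] at h2
    have h3 := mul_left_cancel₀ hq0' h2
    exact hAB (by exact_mod_cast h3)
  · have hp' : (p:ℝ) ≠ 0 := by exact_mod_cast hp
    apply hns
    constructor
    · apply sq_of_rat (x := ((p^2 + q^2 * A - q^2 * B : ℤ) : ℝ)) (y := ((2 * p * u : ℤ) : ℝ)) ⟨_, rfl⟩ ⟨_, rfl⟩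
      · push_cast; exact mul_ne_zero (mul_ne_zero two_ne_zero hp') hu0
      · have h1 : (v:ℝ) * √(B:ℝ) = p - u * √(A:ℝ) := by linarith
        have h2 : ((v:ℝ) * √(B:ℝ))^2 = (p - u * √(A:ℝ))^2 := by rw [h1]
        rw [mul_pow, hv2, sB] at h2
        have h3 : ((p:ℝ) - u * √(A:ℝ))^2 = p^2 - 2 * p * u * √(A:ℝ) + u^2 * √(A:ℝ)^2 := by ring
        rw [h3, hu2, sA] at h2
        push_cast
        linarith
    · apply sq_of_rat (x := ((p^2 + q^2 * B - q^2 * A : ℤ) : ℝ)) (y := ((2 * p * v : ℤ) : ℝ)) ⟨_, rfl⟩ ⟨_, rfl⟩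
      · push_cast; exact mul_ne_zero (mul_ne_zero two_ne_zero hp') hv0
      · have h1 : (u:ℝ) * √(A:ℝ) = p - v * √(B:ℝ) := by linarith
        have h2 : ((u:ℝ) * √(A:ℝ))^2 = (p - v * √(B:ℝ))^2 := by rw [h1]
        rw [mul_pow, hu2, sA] at h2
        have h3 : ((p:ℝ) - v * √(B:ℝ))^2 = p^2 - 2 * p * v * √(B:ℝ) + v^2 * √(B:ℝ)^2 := by ring
        rw [h3, hv2, sB] at h2
        push_cast
        linarith

/-- the norm inequality -/
lemma norm4 {A B q : ℕ} (hq : 1 ≤ q) (hAB : A ≠ B) (hns : ¬ (IsSquare A ∧ IsSquare B)) (p : ℤ) :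
    1 ≤ |(q:ℝ) * (√(A:ℝ) - √(B:ℝ)) - p| * (2 * q * (√(A:ℝ) + √(B:ℝ)) + 1)^3 := by
  set x : ℝ := q * √(A:ℝ) with hx
  set y : ℝ := q * √(B:ℝ) with hy
  have hx0 : 0 ≤ x := by positivity
  have hy0 : 0 ≤ y := by positivity
  have e1 : (q:ℝ) * (√(A:ℝ) - √(B:ℝ)) - p = x - y - p := by rw [hx, hy]; ring
  have e2 : 2 * (q:ℝ) * (√(A:ℝ) + √(B:ℝ)) + 1 = 2 * (x + y) + 1 := by rw [hx, hy]; ring
  rw [e1, e2]
  by_cases hbig : 1 ≤ |x - y - p|
  · have : (1:ℝ) ≤ (2 * (x + y) + 1)^3 := by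
      apply one_le_pow₀; linarith
    nlinarith
  push Not at hbig
  have hp : |(p:ℝ)| ≤ x + y + 1 := by
    have h1 := abs_lt.mp hbig
    rw [abs_le]; constructor <;> linarith
  have hp' := abs_le.mp hp
  have hx2 : x^2 = (q:ℝ)^2 * A := by rw [hx, mul_pow, Real.sq_sqrt (Nat.cast_nonneg A)]
  have hy2 : y^2 = (q:ℝ)^2 * B := by rw [hy, mul_pow, Real.sq_sqrt (Nat.cast_nonneg B)]
  set Z : ℤ := (q^2 * A + p^2 - q^2 * B)^2 - 4 * q^2 * A * p^2 with hZ
  have hprod : (x - y - p) * ((x + y - p) * (-x - y - p) * (-x + y - p)) = (Z:ℝ) := by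
    rw [hZ]; push_cast
    have : (x - y - p) * ((x + y - p) * (-x - y - p) * (-x + y - p)) = (x^2 + p^2 - y^2)^2 - 4 * x^2 * p^2 := by ring
    rw [this, hx2, hy2]
    ring
  have h1 : x - y - p ≠ 0 := by
    intro h
    apply ne_of_not_sq hq hAB hns (u := q) (v := -q) (Or.inl rfl) (Or.inr rfl) p
    push_cast; rw [hx, hy] at h; linarith
  have h2 : x + y - p ≠ 0 := by
    intro h
    apply ne_of_not_sq hq hAB hns (u := q) (v := q) (Or.inl rfl) (Or.inl rfl) p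
    push_cast; rw [hx, hy] at h; linarith
  have h3 : -x - y - p ≠ 0 := by
    intro h
    apply ne_of_not_sq hq hAB hns (u := -q) (v := -q) (Or.inr rfl) (Or.inr rfl) p
    push_cast; rw [hx, hy] at h; linarith
  have h4 : -x + y - p ≠ 0 := by
    intro h
    apply ne_of_not_sq hq hAB hns (u := -q) (v := q) (Or.inr rfl) (Or.inl rfl) p
    push_cast; rw [hx, hy] at h; linarith
  have hZ0 : Z ≠ 0 := by
    intro h
    rw [h, Int.cast_zero] at hprod
    exact (mul_ne_zero h1 (mul_ne_zero (mul_ne_zero h2 h3) h4)) hprod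
  have hZ1 : (1:ℝ) ≤ |(Z:ℝ)| := by
    have : (1:ℤ) ≤ |Z| := Int.one_le_abs hZ0
    exact_mod_cast this
  rw [← hprod, abs_mul, abs_mul, abs_mul] at hZ1
  have b2 : |x + y - p| ≤ 2 * (x + y) + 1 := by rw [abs_le]; constructor <;> linarith
  have b3 : |-x - y - p| ≤ 2 * (x + y) + 1 := by rw [abs_le]; constructor <;> linarith
  have b4 : |-x + y - p| ≤ 2 * (x + y) + 1 := by rw [abs_le]; constructor <;> linarith
  have hW : 0 ≤ 2 * (x + y) + 1 := by linarith
  calc (1:ℝ) ≤ |x - y - p| * (|x + y - p| * |-x - y - p| * |-x + y - p|) := hZ1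
    _ ≤ |x - y - p| * ((2 * (x + y) + 1) * (2 * (x + y) + 1) * (2 * (x + y) + 1)) := by gcongr
    _ = _ := by ring

/-- differences of square roots, uniformly -/
theorem minor_sqrt (K U : ℕ) : ∃ N0 : ℕ, ∀ N : ℕ, N0 ≤ N → ∀ A B : ℕ, (A:ℝ) ≤ Real.log N ^ K → (B:ℝ) ≤ Real.log N ^ K →
    A ≠ B → ¬ (IsSquare A ∧ IsSquare B) →
    ‖∑ n ∈ Finset.Icc 1 N, ((ArithmeticFunction.vonMangoldt n : ℝ) : ℂ) * chr (√(A:ℝ) - √(B:ℝ)) n‖ ≤ N / Real.log N ^ U := by
  obtain ⟨D, N1, h⟩ := minor_use U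
  obtain ⟨N2, hN2, h2⟩ := log_pow_small (D + 3 * (D + K) + 1) 126
  refine ⟨max N1 N2, fun N hN A B hA hB hAB hns => h N (by omega) _ ?_⟩
  intro q hq hqB p
  obtain ⟨hl, hlB⟩ := h2 N (by omega)
  have hN0 : (0:ℝ) < N := by exact_mod_cast (by omega : 0 < N)
  have hq0 : (0:ℝ) < q := by exact_mod_cast hq
  have hq1 : (1:ℝ) ≤ q := by exact_mod_cast hq
  have hl0 : 0 < Real.log N := by linarith
  set ℓ := Real.log N with hℓ
  have h3 := norm4 hq hAB hns p
  have sK : ∀ C : ℕ, (C:ℝ) ≤ ℓ^K → √(C:ℝ) ≤ ℓ^K := by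
    intro C hC
    have hK1 : 1 ≤ ℓ^K := one_le_pow₀ hl
    rw [Real.sqrt_le_left (by linarith)]
    nlinarith
  have hW : 2 * (q:ℝ) * (√(A:ℝ) + √(B:ℝ)) + 1 ≤ 5 * ℓ^(D+K) := by
    have a1 := sK A hA
    have a2 := sK B hB
    have a3 : (q:ℝ) * (√(A:ℝ) + √(B:ℝ)) ≤ ℓ^D * (2 * ℓ^K) := by
      apply mul_le_mul hqB.le (by linarith) (by positivity) (by positivity)
    have a4 : 1 ≤ ℓ^(D+K) := one_le_pow₀ hl
    rw [pow_add] at a4 ⊢
    linarith
  have hW3 : (2 * (q:ℝ) * (√(A:ℝ) + √(B:ℝ)) + 1)^3 ≤ 125 * ℓ^(3 * (D+K)) := by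
    calc _ ≤ (5 * ℓ^(D+K))^3 := by
          apply pow_le_pow_left₀ (by positivity) hW
      _ = _ := by rw [mul_pow, ← pow_mul]; norm_num; ring
  set Δ := |(√(A:ℝ) - √(B:ℝ)) - p / q| with hΔ
  have e1 : |(q:ℝ) * (√(A:ℝ) - √(B:ℝ)) - p| = q * Δ := by
    rw [hΔ, ← abs_of_pos hq0, ← abs_mul, abs_of_pos hq0]
    congr 1
    field_simp
  rw [e1] at h3
  have h4 : 1 ≤ q * Δ * (125 * ℓ^(3 * (D+K))) := h3.trans (by gcongr)
  rw [div_lt_iff₀ (by positivity)]
  by_contra hcon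
  push Not at hcon
  have h6 : ℓ^D * (125 * ℓ^(3 * (D+K))) < N := by
    have e2 : ℓ^(D + 3 * (D + K) + 1) = ℓ^D * ℓ^(3 * (D+K)) * ℓ := by rw [pow_succ, pow_add]
    rw [e2] at hlB
    have e3 : 0 < ℓ^D * ℓ^(3 * (D+K)) := by positivity
    have e4 : ℓ^D * ℓ^(3 * (D+K)) ≤ ℓ^D * ℓ^(3 * (D+K)) * ℓ := le_mul_of_one_le_right e3.le hl
    nlinarith
  have h7 : (1:ℝ) * N ≤ (Δ * (N * q)) * (125 * ℓ^(3 * (D+K))) := by
    calc (1:ℝ) * N ≤ (q * Δ * (125 * ℓ^(3 * (D+K)))) * N := by gcongr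
      _ = _ := by ring
  have h8 : (Δ * (N * q)) * (125 * ℓ^(3 * (D+K))) ≤ ℓ^D * (125 * ℓ^(3 * (D+K))) := by gcongr
  linarith

/-- partial summation with decreasing weights -/
lemma abel_anti (a : ℕ) (w : ℕ → ℝ) (z : ℕ → ℂ) (C : ℝ) (hw : ∀ l, a < l → w (l+1) ≤ w l) (hw0 : ∀ l, a < l → 0 ≤ w l)
    (b : ℕ) (hb : a < b) (hB : ∀ b', a < b' → b' ≤ b → ‖∑ l ∈ Finset.Ioc a b', z l‖ ≤ C) :
    ‖∑ l ∈ Finset.Ioc a b, (w l : ℂ) * z l‖ ≤ w (a+1) * C := by
  have key : ∀ b', a + 1 ≤ b' → b' ≤ b →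
      ‖∑ l ∈ Finset.Ioc a b', (w l : ℂ) * z l - (w b' : ℂ) * ∑ l ∈ Finset.Ioc a b', z l‖ ≤ (w (a+1) - w b') * C := by
    intro b' hb'
    induction b', hb' using Nat.le_induction with
    | base => intro _; simp
    | succ c hc ih =>
      intro hcb
      have h1 := ih (by omega)
      rw [Finset.sum_Ioc_succ_top (by omega), Finset.sum_Ioc_succ_top (by omega)]
      have h2 : ∑ l ∈ Finset.Ioc a c, (w l : ℂ) * z l + (w (c + 1) : ℂ) * z (c + 1) - (w (c + 1) : ℂ) * (∑ l ∈ Finset.Ioc a c, z l + z (c + 1)) =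
          (∑ l ∈ Finset.Ioc a c, (w l : ℂ) * z l - (w c : ℂ) * ∑ l ∈ Finset.Ioc a c, z l) + ((w c - w (c + 1) : ℝ) : ℂ) * ∑ l ∈ Finset.Ioc a c, z l := by
        push_cast; ring
      rw [h2]
      refine (norm_add_le _ _).trans ?_
      rw [norm_mul, Complex.norm_real, Real.norm_eq_abs, abs_of_nonneg (by linarith [hw c (by omega)])]
      have h3 := hB c (by omega) (by omega)
      have h4 : (w c - w (c + 1)) * ‖∑ l ∈ Finset.Ioc a c, z l‖ ≤ (w c - w (c + 1)) * C :=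
        mul_le_mul_of_nonneg_left h3 (by linarith [hw c (by omega)])
      linarith
  have h1 := key b (by omega) le_rfl
  have h2 := hB b hb le_rfl
  have h3 : ∑ l ∈ Finset.Ioc a b, (w l : ℂ) * z l = (∑ l ∈ Finset.Ioc a b, (w l : ℂ) * z l - (w b : ℂ) * ∑ l ∈ Finset.Ioc a b, z l) +
      (w b : ℂ) * ∑ l ∈ Finset.Ioc a b, z l := by ring
  rw [h3]
  refine (norm_add_le _ _).trans ?_
  rw [norm_mul, Complex.norm_real, Real.norm_eq_abs, abs_of_nonneg (hw0 b hb)]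
  have h4 : w b * ‖∑ l ∈ Finset.Ioc a b, z l‖ ≤ w b * C := mul_le_mul_of_nonneg_left h2 (hw0 b hb)
  linarith

/-- the set of primes up to `N` -/
noncomputable def PR (N : ℕ) : Finset ℕ := (Finset.Icc 1 N).filter Nat.Prime

lemma PR_card (N : ℕ) : (PR N).card = Nat.primeCounting N := by
  unfold PR
  rw [Nat.primeCounting, Nat.primeCounting', Nat.count_eq_card_filter_range]
  congr 1
  ext p
  simp only [Finset.mem_filter, Finset.mem_Icc, Finset.mem_range]
  constructor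
  · rintro ⟨⟨h1, h2⟩, h3⟩; exact ⟨by omega, h3⟩
  · rintro ⟨h1, h3⟩; exact ⟨⟨h3.one_lt.le, by omega⟩, h3⟩

/-- from the von Mangoldt function to primes -/
theorem to_primes {g : ℕ → ℂ} (hg : ∀ n, ‖g n‖ ≤ 1) {N : ℕ} (hN : 9 ≤ N) {D : ℝ}
    (h : ∀ t : ℕ, Nat.sqrt N ≤ t → t ≤ N → ‖∑ n ∈ Finset.Icc 1 t, ((ArithmeticFunction.vonMangoldt n : ℝ) : ℂ) * g n‖ ≤ D) :
    ‖∑ p ∈ PR N, g p‖ ≤ 9 * √(N:ℝ) + 4 * D / Real.log N := by
  have hN0 : (0:ℝ) < N := by exact_mod_cast (by omega : 0 < N)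
  have hN1 : (1:ℝ) ≤ N := by exact_mod_cast (by omega : 1 ≤ N)
  set L := Nat.sqrt N with hL
  have hL1 : L * L ≤ N := Nat.sqrt_le N
  have hL2 : N < (L+1) * (L+1) := Nat.lt_succ_sqrt N
  have hL3 : 3 ≤ L := by rw [hL, Nat.le_sqrt]; omega
  have hLs : (L:ℝ) ≤ √(N:ℝ) := by
    apply Real.le_sqrt_of_sq_le
    rw [sq]; exact_mod_cast hL1
  have hLs2 : √(N:ℝ) ≤ (L:ℝ) + 1 := by
    rw [Real.sqrt_le_left (by positivity), sq]
    exact_mod_cast hL2.le
  have hlogN : 0 < Real.log N := Real.log_pos (by exact_mod_cast (by omega : 1 < N))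
  set ϑ : ℕ → ℝ := fun n => if n.Prime then Real.log n else 0 with hϑ
  set D' : ℝ := D + 2 * √(N:ℝ) * Real.log N with hD'
  have hD0 : 0 ≤ D := (norm_nonneg _).trans (h N (Nat.sqrt_le_self N) le_rfl)
  have hA : ∀ t : ℕ, L ≤ t → t ≤ N → ‖∑ n ∈ Finset.Icc 1 t, ((ϑ n : ℝ) : ℂ) * g n‖ ≤ D' := by
    intro t ht htN
    have h1 := h t ht htN
    have ht1 : (1:ℝ) ≤ t := by exact_mod_cast (by omega : 1 ≤ t)
    have h2 : ‖∑ n ∈ Finset.Icc 1 t, ((ArithmeticFunction.vonMangoldt n : ℝ) : ℂ) * g n -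
        ∑ n ∈ Finset.Icc 1 t, ((ϑ n : ℝ) : ℂ) * g n‖ ≤ 2 * √(N:ℝ) * Real.log N := by
      rw [← Finset.sum_sub_distrib]
      refine (norm_sum_le _ _).trans ?_
      have h3 : ∀ n ∈ Finset.Icc 1 t, ‖((ArithmeticFunction.vonMangoldt n : ℝ) : ℂ) * g n - ((ϑ n : ℝ) : ℂ) * g n‖ ≤
          (if ¬ n.Prime then ArithmeticFunction.vonMangoldt n else 0) := by
        intro n _
        rw [← sub_mul, norm_mul, ← Complex.ofReal_sub, Complex.norm_real, Real.norm_eq_abs]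
        simp only [hϑ]
        by_cases hp : n.Prime
        · rw [if_pos hp, ArithmeticFunction.vonMangoldt_apply_prime hp, sub_self, abs_zero, zero_mul]
          rw [if_neg (by simpa using hp)]
        · rw [if_neg hp, if_pos hp, sub_zero, abs_of_nonneg ArithmeticFunction.vonMangoldt_nonneg]
          exact mul_le_of_le_one_right ArithmeticFunction.vonMangoldt_nonneg (hg n)
      refine (Finset.sum_le_sum h3).trans ?_
      rw [← Finset.sum_filter]
      have h4 := Chebyshev.psi_sub_theta_eq_sum_not_prime (t:ℝ)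
      rw [Nat.floor_natCast] at h4
      have h5 : Finset.Icc 1 t = Finset.Ioc 0 t := by ext n; simp only [Finset.mem_Icc, Finset.mem_Ioc]; omega
      rw [h5, ← h4]
      refine (Chebyshev.psi_sub_theta_le ht1).trans ?_
      have htN' : (t:ℝ) ≤ N := by exact_mod_cast htN
      have : Real.log t ≤ Real.log N := Real.log_le_log (by linarith) htN'
      have h0 : 0 ≤ Real.log t := Real.log_nonneg ht1
      have : √(t:ℝ) ≤ √(N:ℝ) := Real.sqrt_le_sqrt htN'
      gcongr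
    have h3 : ∑ n ∈ Finset.Icc 1 t, ((ϑ n : ℝ) : ℂ) * g n = ∑ n ∈ Finset.Icc 1 t, ((ArithmeticFunction.vonMangoldt n : ℝ) : ℂ) * g n -
        (∑ n ∈ Finset.Icc 1 t, ((ArithmeticFunction.vonMangoldt n : ℝ) : ℂ) * g n - ∑ n ∈ Finset.Icc 1 t, ((ϑ n : ℝ) : ℂ) * g n) := by ring
    rw [h3]
    refine (norm_sub_le _ _).trans ?_
    linarith
  have hLN : L < N := by nlinarith
  have hab := abel_anti L (fun n => 1 / Real.log n) (fun n => ((ϑ n : ℝ) : ℂ) * g n) (2 * D')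
    (by
      intro l hl
      have : (1:ℝ) < l := by exact_mod_cast (by omega : 1 < l)
      apply one_div_le_one_div_of_le (Real.log_pos this)
      apply Real.log_le_log (by linarith)
      push_cast; linarith)
    (by
      intro l hl
      have : (1:ℝ) ≤ l := by exact_mod_cast (by omega : 1 ≤ l)
      exact div_nonneg zero_le_one (Real.log_nonneg this))
    N hLN
    (by
      intro b' hb1 hb2
      have h1 : ∑ l ∈ Finset.Ioc L b', ((ϑ l : ℝ) : ℂ) * g l = ∑ l ∈ Finset.Icc 1 b', ((ϑ l : ℝ) : ℂ) * g l - ∑ l ∈ Finset.Icc 1 L, ((ϑ l : ℝ) : ℂ) * g l := by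
        rw [eq_sub_iff_add_eq, add_comm, ← Finset.sum_union]
        · apply Finset.sum_congr _ (fun _ _ => rfl)
          ext n; simp only [Finset.mem_union, Finset.mem_Icc, Finset.mem_Ioc]; omega
        · rw [Finset.disjoint_left]
          intro n h1 h2
          rw [Finset.mem_Icc] at h1
          rw [Finset.mem_Ioc] at h2
          omega
      rw [h1]
      refine (norm_sub_le _ _).trans ?_
      have := hA b' hb1.le hb2
      have := hA L le_rfl hLN.le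
      linarith)
  have hsplit : ∑ p ∈ PR N, g p = ∑ p ∈ PR L, g p + ∑ l ∈ Finset.Ioc L N, (((1 / Real.log l : ℝ)) : ℂ) * (((ϑ l : ℝ) : ℂ) * g l) := by
    have h1 : PR N = PR L ∪ (Finset.Ioc L N).filter Nat.Prime := by
      unfold PR
      rw [← Finset.filter_union]
      congr 1
      ext n; simp only [Finset.mem_union, Finset.mem_Icc, Finset.mem_Ioc]; omega
    rw [h1, Finset.sum_union]
    · congr 1
      rw [Finset.sum_filter]
      apply Finset.sum_congr rfl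
      intro l hl
      rw [Finset.mem_Ioc] at hl
      simp only [hϑ]
      by_cases hp : l.Prime
      · rw [if_pos hp, if_pos hp, ← mul_assoc, ← Complex.ofReal_mul, one_div, inv_mul_cancel₀, Complex.ofReal_one, one_mul]
        exact (Real.log_pos (by exact_mod_cast hp.one_lt)).ne'
      · rw [if_neg hp, if_neg hp]; simp
    · rw [Finset.disjoint_left]
      intro n h1 h2
      unfold PR at h1
      rw [Finset.mem_filter, Finset.mem_Icc] at h1
      rw [Finset.mem_filter, Finset.mem_Ioc] at h2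
      omega
  rw [hsplit]
  refine (norm_add_le _ _).trans ?_
  have h1 : ‖∑ p ∈ PR L, g p‖ ≤ L := by
    refine (norm_sum_le _ _).trans ?_
    calc ∑ p ∈ PR L, ‖g p‖ ≤ ∑ p ∈ PR L, (1:ℝ) := Finset.sum_le_sum (fun p _ => hg p)
      _ = ((PR L).card : ℝ) := by simp
      _ ≤ L := by
        have : (PR L).card ≤ L := by
          unfold PR
          refine (Finset.card_filter_le _ _).trans ?_
          rw [Nat.card_Icc]; omega
        exact_mod_cast this
  have h2 : (1 / Real.log ((L+1 : ℕ):ℝ)) * (2 * D') ≤ (2 / Real.log N) * (2 * D') := by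
    have hD'0 : 0 ≤ D' := by positivity
    apply mul_le_mul_of_nonneg_right _ (by positivity)
    have h3 : Real.log N / 2 ≤ Real.log ((L+1 : ℕ):ℝ) := by
      rw [← Real.log_sqrt hN0.le]
      apply Real.log_le_log (Real.sqrt_pos.mpr hN0)
      push_cast; exact hLs2
    rw [div_le_div_iff₀ (by linarith) hlogN]
    linarith
  have h3 := hab.trans h2
  have h4 : (2 / Real.log N) * (2 * D') = 8 * √(N:ℝ) + 4 * D / Real.log N := by
    rw [hD']; field_simp; ring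
  rw [h4] at h3
  have h5 := add_le_add h1 h3
  linarith

lemma log_three {N t : ℕ} (hN : 9 ≤ N) (ht : Nat.sqrt N ≤ t) : 3 ≤ t ∧ Real.log N ≤ 3 * Real.log t := by
  have h3 : 3 ≤ Nat.sqrt N := by rw [Nat.le_sqrt]; omega
  have ht3 : 3 ≤ t := h3.trans ht
  refine ⟨ht3, ?_⟩
  have hsq : N < (t+1) * (t+1) :=
    lt_of_lt_of_le (Nat.lt_succ_sqrt N) (Nat.mul_le_mul (by omega) (by omega))
  have h4 : N ≤ t^3 := by nlinarith [sq_nonneg t]
  have h5 : (N:ℝ) ≤ (t:ℝ)^3 := by exact_mod_cast h4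
  have hN0 : (0:ℝ) < N := by exact_mod_cast (by omega : 0 < N)
  calc Real.log N ≤ Real.log ((t:ℝ)^3) := Real.log_le_log hN0 h5
    _ = 3 * Real.log t := by rw [Real.log_pow]; norm_num

theorem prime_of (U : ℕ) {g : ℕ → ℂ} (hg : ∀ n, ‖g n‖ ≤ 1) {N : ℕ} (hN : 9 ≤ N)
    (h : ∀ t : ℕ, Nat.sqrt N ≤ t → t ≤ N → ‖∑ n ∈ Finset.Icc 1 t, ((ArithmeticFunction.vonMangoldt n : ℝ) : ℂ) * g n‖ ≤
      t / Real.log t ^ U) :
    ‖∑ p ∈ PR N, g p‖ ≤ 9 * √(N:ℝ) + 4 * 3^U * N / Real.log N ^ (U+1) := by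
  have hN0 : (0:ℝ) < N := by exact_mod_cast (by omega : 0 < N)
  have hlogN : 0 < Real.log N := Real.log_pos (by exact_mod_cast (by omega : 1 < N))
  have h4 := to_primes hg hN (D := 3^U * N / Real.log N ^ U) (by
    intro t ht htN
    obtain ⟨ht3, hlog⟩ := log_three hN ht
    refine (h t ht htN).trans ?_
    have htN' : (t:ℝ) ≤ N := by exact_mod_cast htN
    have ht0 : (0:ℝ) < t := by exact_mod_cast (by omega : 0 < t)
    have hlt : 0 < Real.log t := by linarith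
    rw [div_le_div_iff₀ (by positivity) (by positivity)]
    have h5 : Real.log N ^ U ≤ (3 * Real.log t)^U := pow_le_pow_left₀ hlogN.le hlog U
    rw [mul_pow] at h5
    calc (t:ℝ) * Real.log N ^ U ≤ N * (3 ^ U * Real.log t ^ U) := by gcongr
      _ = _ := by ring)
  refine h4.trans (le_of_eq ?_)
  congr 1
  rw [pow_succ]
  field_simp

/-- lower bound for the number of primes -/
lemma pi_low : ∃ N0 : ℕ, ∀ N : ℕ, N0 ≤ N → (N:ℝ) / (2 * Real.log N) ≤ ((PR N).card : ℝ) := by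
  obtain ⟨N1, hN1, h1⟩ := log_pow_small 1 20
  refine ⟨max N1 3, fun N hN => ?_⟩
  obtain ⟨hl, hl2⟩ := h1 N (by omega)
  rw [pow_one] at hl2
  have hN0 : (0:ℝ) < N := by exact_mod_cast (by omega : 0 < N)
  have hN1' : (1:ℝ) ≤ N := by exact_mod_cast (by omega : 1 ≤ N)
  rw [PR_card]
  refine le_trans ?_ (Chebyshev.pi_ge N)
  have h2 := Real.log_two_gt_d9
  have h3 : Real.log ((N:ℝ) + 1) ≤ 2 * Real.log N := by
    have : Real.log ((N:ℝ)+1) ≤ Real.log (2 * N) := Real.log_le_log (by linarith) (by linarith)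
    rw [Real.log_mul (by norm_num) hN0.ne'] at this
    have h4 : Real.log 2 ≤ Real.log N := Real.log_le_log (by norm_num) (by exact_mod_cast (by omega : 2 ≤ N))
    linarith
  rw [div_le_div_iff₀ (by positivity) (by linarith)]
  have h5 : (N:ℝ) / 2 ≤ N * Real.log 2 - Real.log (N+1) := by nlinarith
  nlinarith

/-- primes minus one, up to `j + 2` -/
noncomputable def PS (j : ℕ) : Finset ℕ := (PR (j+2)).image (fun p => p - 1)

lemma PS_sum {M : Type*} [AddCommMonoid M] (j : ℕ) (g : ℕ → M) : ∑ n ∈ PS j, g n = ∑ p ∈ PR (j+2), g (p - 1) := by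
  unfold PS
  rw [Finset.sum_image]
  intro p hp p' hp' h
  unfold PR at hp hp'
  rw [Finset.mem_coe, Finset.mem_filter, Finset.mem_Icc] at hp hp'
  simp only at h
  omega

lemma PS_card (j : ℕ) : (PS j).card = (PR (j+2)).card := by
  have := PS_sum j (fun _ => 1)
  simpa using this

lemma PS_ne (j : ℕ) : (PS j).Nonempty := by
  unfold PS
  rw [Finset.image_nonempty]
  refine ⟨2, ?_⟩
  unfold PR
  rw [Finset.mem_filter, Finset.mem_Icc]
  exact ⟨⟨by omega, by omega⟩, Nat.prime_two⟩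

/-- the group of real algebraic integers -/
noncomputable def GI : AddSubgroup ℝ := (integralClosure ℤ ℝ).toSubring.toAddSubgroup

lemma mem_GI {θ : ℝ} : θ ∈ GI ↔ IsIntegral ℤ θ := Iff.rfl

lemma GI_int_or_irr {θ : ℝ} (h : θ ∈ GI) : (∃ k : ℤ, θ = k) ∨ Irrational θ := by
  by_cases hirr : Irrational θ
  · exact Or.inr hirr
  left
  rw [Irrational, not_not] at hirr
  obtain ⟨r, rfl⟩ := hirr
  have h1 : IsIntegral ℤ (r:ℚ) := by
    rw [mem_GI] at h
    have := (isIntegral_algebraMap_iff (R := ℤ) (A := ℚ) (B := ℝ) (algebraMap ℚ ℝ).injective (x := r))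
    exact this.mp h
  obtain ⟨k, hk⟩ := IsIntegrallyClosed.isIntegral_iff.mp h1
  refine ⟨k, ?_⟩
  rw [← hk]
  simp

lemma sqrt_GI (n : ℕ) : √(n:ℝ) ∈ GI := by
  rw [mem_GI]
  refine ⟨Polynomial.X^2 - Polynomial.C (n:ℤ), Polynomial.monic_X_pow_sub_C _ (by norm_num), ?_⟩
  simp [Real.sq_sqrt (Nat.cast_nonneg n)]

/-- averages of the characters along the primes -/
theorem AvOK_PS : AvOK GI PS := by
  intro θ hθ
  have hcav : ∀ j, cav (PS j) (chr θ) = (∑ p ∈ PR (j+2), chr θ (p-1)) / (PR (j+2)).card := by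
    intro j
    unfold cav
    rw [PS_sum, PS_card]
  have hshift : ∀ p : ℕ, 1 ≤ p → chr θ (p-1) = Complex.exp (((2 * Real.pi * (-θ) : ℝ) : ℂ) * Complex.I) * chr θ p := by
    intro p hp
    unfold chr
    rw [← Complex.exp_add, Nat.cast_sub hp]
    congr 1
    push_cast; ring
  have hPRpos : ∀ j, (0:ℝ) < (PR (j+2)).card := by
    intro j
    have := Finset.card_pos.mpr (PS_ne j)
    rw [PS_card] at this
    exact_mod_cast this
  rcases GI_int_or_irr hθ with hk | hirr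
  · -- integer
    have h1 : ∀ j, cav (PS j) (chr θ) = 1 := by
      intro j
      obtain ⟨k, rfl⟩ := hk
      have h2 : ∀ n, chr (k:ℝ) n = 1 := by
        intro n
        unfold chr
        rw [show (((2 * Real.pi * (n * (k:ℝ)) : ℝ) : ℂ) * Complex.I) = ((n * k : ℤ) : ℂ) * (2 * Real.pi * Complex.I) by push_cast; ring]
        exact Complex.exp_int_mul_two_pi_mul_I _
      unfold cav
      simp only [h2, Finset.sum_const, nsmul_eq_mul, mul_one]
      apply div_self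
      have := hPRpos j
      rw [← PS_card] at this
      exact_mod_cast this.ne'
    simp only [h1]
    have : mc θ = 1 := by unfold mc; rw [if_pos hk]
    rw [this]
    exact tendsto_const_nhds
  · have hmc : mc θ = 0 := by
      unfold mc
      rw [if_neg]
      rintro ⟨k, rfl⟩
      exact hirr ⟨k, by simp⟩
    rw [hmc]
    obtain ⟨N1, h1⟩ := minor_alg 2 hirr (mem_GI.mp hθ)
    obtain ⟨N2, h2⟩ := pi_low
    obtain ⟨N3, hN3, h3⟩ := log_pow_small 1 1
    -- the bound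
    have hbound : ∀ N : ℕ, max (max (N1^2 + 9) N2) ((N3 + 1)^2) ≤ N → ‖(∑ p ∈ PR N, chr θ p) / ((PR N).card : ℂ)‖ ≤
        18 * Real.log N / √(N:ℝ) + 72 / Real.log N^2 := by
      intro N hN
      have hNN : N1^2 + 9 ≤ N := le_trans (le_max_left _ _) (le_trans (le_max_left _ _) hN)
      have hNN2 : N2 ≤ N := le_trans (le_max_right _ _) (le_trans (le_max_left _ _) hN)
      have hNN3 : (N3+1)^2 ≤ N := le_trans (le_max_right _ _) hN
      have hN9 : 9 ≤ N := by omega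
      have hN0 : (0:ℝ) < N := by exact_mod_cast (by omega : 0 < N)
      have hN31 : N3 ≤ N := by nlinarith
      obtain ⟨hl, -⟩ := h3 N hN31
      have hl0 : 0 < Real.log N := by linarith
      have h4 := prime_of 2 (g := chr θ) (fun n => (norm_chr θ n).le) hN9 (by
        intro t ht htN
        apply h1 t
        refine le_trans ?_ ht
        rw [Nat.le_sqrt]; nlinarith)
      have h5 := h2 N hNN2
      have h6 : 0 < (N:ℝ) / (2 * Real.log N) := by positivity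
      rw [norm_div, Complex.norm_natCast]
      calc ‖∑ p ∈ PR N, chr θ p‖ / ((PR N).card : ℝ) ≤ (9 * √(N:ℝ) + 4 * 3^2 * N / Real.log N ^ (2+1)) / ((N:ℝ) / (2 * Real.log N)) := by
            gcongr
        _ = 18 * Real.log N / √(N:ℝ) + 72 / Real.log N^2 := by
            have e1 : (N:ℝ) = √(N:ℝ) * √(N:ℝ) := (Real.mul_self_sqrt hN0.le).symm
            have hs : 0 < √(N:ℝ) := Real.sqrt_pos.mpr hN0
            rw [add_div]
            congr 1
            · nth_rewrite 2 [e1]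
              field_simp
              norm_num
            · field_simp
              norm_num
              ring
    have hlim : Tendsto (fun N : ℕ => 18 * Real.log N / √(N:ℝ) + 72 / Real.log N^2) atTop (𝓝 0) := by
      have h6 : Tendsto (fun x : ℝ => Real.log x / √x) atTop (𝓝 0) := by
        have := (isLittleO_log_rpow_atTop (by norm_num : (0:ℝ) < 1/2)).tendsto_div_nhds_zero
        refine this.congr (fun x => ?_)
        rw [Real.sqrt_eq_rpow]
      have h7 : Tendsto (fun N : ℕ => 18 * (Real.log N / √(N:ℝ))) atTop (𝓝 (18 * 0)) :=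
        (h6.comp tendsto_natCast_atTop_atTop).const_mul 18
      have h8 : Tendsto (fun N : ℕ => 72 / Real.log N^2) atTop (𝓝 0) := by
        apply Tendsto.const_div_atTop
        have : Tendsto (fun N : ℕ => Real.log (N:ℝ)) atTop atTop := Real.tendsto_log_atTop.comp tendsto_natCast_atTop_atTop
        exact (tendsto_pow_atTop (by norm_num)).comp this
      have h9 := h7.add h8
      rw [mul_zero, add_zero] at h9
      refine h9.congr (fun N => ?_)
      ring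
    have hlim2 : Tendsto (fun N : ℕ => (∑ p ∈ PR N, chr θ p) / ((PR N).card : ℂ)) atTop (𝓝 0) := by
      rw [tendsto_zero_iff_norm_tendsto_zero]
      apply squeeze_zero' (Eventually.of_forall (fun N => norm_nonneg _)) _ hlim
      rw [eventually_atTop]
      exact ⟨_, hbound⟩
    have hlim3 := (hlim2.comp (tendsto_add_atTop_nat 2)).const_mul (Complex.exp (((2 * Real.pi * (-θ) : ℝ) : ℂ) * Complex.I))
    rw [mul_zero] at hlim3
    refine hlim3.congr (fun j => ?_)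
    simp only [Function.comp_apply]
    rw [hcav, ← mul_div_assoc, Finset.mul_sum]
    congr 1
    apply Finset.sum_congr rfl
    intro p hp
    unfold PR at hp
    rw [Finset.mem_filter, Finset.mem_Icc] at hp
    exact (hshift p hp.1.1).symm

/-- uniform bound for differences of square roots -/
theorem primes_sqrt (K U : ℕ) : ∃ N0 : ℕ, ∀ N : ℕ, N0 ≤ N → ∀ A B : ℕ, (A:ℝ) ≤ Real.log N ^ K → (B:ℝ) ≤ Real.log N ^ K →
    A ≠ B → ¬ (IsSquare A ∧ IsSquare B) →
    ‖∑ p ∈ PR N, chr (√(A:ℝ) - √(B:ℝ)) p‖ ≤ 9 * √(N:ℝ) + 4 * 3^U * N / Real.log N ^ (U+1) := by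
  obtain ⟨N1, h1⟩ := minor_sqrt (2*K) U
  obtain ⟨x1, hx1⟩ := Pool.Agent.H373R2.T7.ev_L' 3
  refine ⟨max ((N1+1)^2) (max ((x1+1)^2) 9), fun N hN A B hA hB hAB hns => ?_⟩
  have hNN1 : (N1+1)^2 ≤ N := le_trans (le_max_left _ _) hN
  have hNN2 : (x1+1)^2 ≤ N := le_trans (le_max_left _ _) (le_trans (le_max_right _ _) hN)
  have hN9 : 9 ≤ N := le_trans (le_max_right _ _) (le_trans (le_max_right _ _) hN)
  apply prime_of U (fun n => (norm_chr _ n).le) hN9
  intro t ht htN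
  obtain ⟨ht3, hlog⟩ := log_three hN9 ht
  have hlogN : 0 < Real.log N := Real.log_pos (by exact_mod_cast (by omega : 1 < N))
  have hl3 : 3 ≤ Real.log t := hx1 t (by
    refine le_trans ?_ ht
    rw [Nat.le_sqrt]; nlinarith)
  have hpow : Real.log N ^ K ≤ Real.log t ^ (2*K) := by
    rw [pow_mul]
    apply pow_le_pow_left₀ hlogN.le
    nlinarith
  exact h1 t (by
    refine le_trans ?_ ht
    rw [Nat.le_sqrt]; nlinarith) A B (hA.trans hpow) (hB.trans hpow) hAB hns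

end Pool.Agent.H425R3.JL
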