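import Mathlib
import Pool.Agent.H383.GenW

open MeasureTheory Filter Topology
open Pool.Agent.H383.AP Pool.Agent.H383.Gauss
open Pool.Agent.H383.Gen Pool.Agent.H383.GW

namespace Pool.Agent.H425R3.JL

open Pool.Agent.H383

variable {a : ℕ → ℝ} {φ : ℝ} {w : ℝ → ℂ}

/-- power decay of the tail function -/
lemma Tl_pow : ∃ C : ℝ, 0 < C ∧ ∀ M : ℕ, 1 ≤ M → Tl M ≤ C * (M:ℝ) ^ (-(1/200):ℝ) := by
  have hs : Summable (fun q : ℕ => (((q + 1 : ℕ)):ℝ) ^ (-(201/200):ℝ)) := by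
    have h : Summable (fun q : ℕ => (q:ℝ) ^ (-(201/200):ℝ)) := by
      rw [Real.summable_nat_rpow]; norm_num
    exact (summable_nat_add_iff 1).mpr h
  set Z : ℝ := ∑' q : ℕ, (((q + 1 : ℕ)):ℝ) ^ (-(201/200):ℝ) with hZ
  have hZ0 : 0 ≤ Z := tsum_nonneg (fun q => by positivity)
  refine ⟨Z + 1, by positivity, fun M hM => ?_⟩
  have hM0 : (0:ℝ) < M := by exact_mod_cast hM
  have h1 : ∀ q : ℕ, (((q + M : ℕ)):ℝ) ^ (-(101/100):ℝ) ≤ (M:ℝ) ^ (-(1/200):ℝ) * (((q + 1 : ℕ)):ℝ) ^ (-(201/200):ℝ) := by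
    intro q
    have hp : (0:ℝ) < ((q + M : ℕ):ℝ) := by exact_mod_cast (by omega : 0 < q + M)
    have e : (((q + M : ℕ)):ℝ) ^ (-(101/100):ℝ) = (((q + M : ℕ)):ℝ) ^ (-(1/200):ℝ) * (((q + M : ℕ)):ℝ) ^ (-(201/200):ℝ) := by
      rw [← Real.rpow_add hp]; norm_num
    rw [e]
    apply mul_le_mul _ _ (by positivity) (by positivity)
    · apply Real.rpow_le_rpow_of_nonpos hM0 _ (by norm_num)
      push_cast; linarith [(Nat.cast_nonneg q : (0:ℝ) ≤ q)]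
    · apply Real.rpow_le_rpow_of_nonpos (by positivity) _ (by norm_num)
      exact_mod_cast (by omega : q + 1 ≤ q + M)
  have h2 : Summable (fun q : ℕ => (M:ℝ) ^ (-(1/200):ℝ) * (((q + 1 : ℕ)):ℝ) ^ (-(201/200):ℝ)) := hs.mul_left _
  have h3 : Summable (fun q : ℕ => (((q + M : ℕ)):ℝ) ^ (-(101/100):ℝ)) :=
    Summable.of_nonneg_of_le (fun q => by positivity) h1 h2
  have h4 : Tl M ≤ (M:ℝ) ^ (-(1/200):ℝ) * Z := by
    unfold Tl
    rw [hZ, ← tsum_mul_left]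
    exact h3.tsum_le_tsum h1 h2
  refine h4.trans ?_
  rw [mul_comm]
  apply mul_le_mul_of_nonneg_right (by linarith) (by positivity)

lemma a_le (ha : Bd a) : ∃ C : ℝ, 0 < C ∧ ∀ m : ℕ, 1 ≤ m → |a m| ≤ C := by
  obtain ⟨C, hC, h⟩ := ha
  refine ⟨C, hC, fun m hm => (h m hm).trans ?_⟩
  have hs : 1 ≤ √(m:ℝ) := by
    rw [Real.one_le_sqrt]; exact_mod_cast hm
  have : (√(m:ℝ)) ^ (-(37/25):ℝ) ≤ 1 := Real.rpow_le_one_of_one_le_of_nonpos hs (by norm_num)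
  nlinarith

lemma sum_a_le (ha : Bd a) : ∃ C : ℝ, 0 < C ∧ ∀ M : ℕ, ∑ m ∈ Finset.Icc 1 (M^2), |a m| ≤ C * (M:ℝ)^2 := by
  obtain ⟨C, hC, h⟩ := a_le ha
  refine ⟨C, hC, fun M => ?_⟩
  calc ∑ m ∈ Finset.Icc 1 (M^2), |a m| ≤ ∑ m ∈ Finset.Icc 1 (M^2), C :=
        Finset.sum_le_sum (fun m hm => h m (Finset.mem_Icc.mp hm).1)
    _ = C * (M:ℝ)^2 := by
        rw [Finset.sum_const, Nat.card_Icc, nsmul_eq_mul, Nat.add_sub_cancel]; push_cast; ring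

lemma abs_U_le (a : ℕ → ℝ) (φ R : ℝ) (M : ℕ) : |U a φ R M| ≤ ∑ m ∈ Finset.Icc 1 (M^2), |a m| := by
  unfold U
  refine (Finset.abs_sum_le_sum_abs _ _).trans (Finset.sum_le_sum (fun m _ => ?_))
  rw [abs_mul]
  calc |a m| * |Real.cos (2 * Real.pi * (R * √(m:ℝ)) - φ)| ≤ |a m| * 1 :=
        mul_le_mul_of_nonneg_left (Real.abs_cos_le_one _) (abs_nonneg _)
    _ = _ := mul_one _

/-- low frequencies, quantitative -/
lemma WS_lowq (ha : Bd a) (φ : ℝ) (hw : Wt w) (κ : ℝ) : ∃ K : ℝ, 0 < K ∧ ∀ M : ℕ, 1 ≤ M → ∀ R δ : ℝ, 0 < δ →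
    |∑ m ∈ Finset.Icc 1 (M^2), wt a φ w (R + κ * δ) δ m - U a φ R M| ≤ K * (M:ℝ)^3 * δ := by
  have hpi := Real.pi_pos
  obtain ⟨Cl, hCl, hl⟩ := hw.lip
  obtain ⟨Ca, hCa, haC⟩ := a_le ha
  refine ⟨Ca * (Cl + 2 * Real.pi * |κ|), by positivity, ?_⟩
  intro M hM R δ hδ
  unfold U
  rw [← Finset.sum_sub_distrib]
  refine (Finset.abs_sum_le_sum_abs _ _).trans ?_
  have hpt : ∀ m ∈ Finset.Icc 1 (M^2), |wt a φ w (R + κ * δ) δ m - a m * Real.cos (2 * Real.pi * (R * √(m:ℝ)) - φ)| ≤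
      Ca * ((Cl + 2 * Real.pi * |κ|) * M) * δ := by
    intro m hm
    rw [Finset.mem_Icc] at hm
    have hm0 : (0:ℝ) < m := by exact_mod_cast hm.1
    have hs : 0 < √(m:ℝ) := Real.sqrt_pos.mpr hm0
    have hsM : √(m:ℝ) ≤ M := by
      rw [Real.sqrt_le_left (by positivity)]
      exact_mod_cast hm.2
    unfold GW.wt
    rw [← mul_sub, abs_mul, mul_assoc Ca]
    apply mul_le_mul (haC m hm.1) _ (abs_nonneg _) hCa.le
    set θ' : ℝ := 2 * Real.pi * ((R + κ * δ) * √(m:ℝ)) - φ with hθ'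
    set θ : ℝ := 2 * Real.pi * (R * √(m:ℝ)) - φ with hθ
    have h1 : (Complex.exp ((θ' : ℂ) * Complex.I) * w (√(m:ℝ) * δ)).re - Real.cos θ =
        (Complex.exp ((θ' : ℂ) * Complex.I) * (w (√(m:ℝ) * δ) - 1)).re + (Real.cos θ' - Real.cos θ) := by
      rw [mul_sub, Complex.sub_re, mul_one, Complex.exp_ofReal_mul_I_re]; ring
    rw [h1]
    have h2 : |(Complex.exp ((θ' : ℂ) * Complex.I) * (w (√(m:ℝ) * δ) - 1)).re| ≤ Cl * (√(m:ℝ) * δ) := by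
      refine (Complex.abs_re_le_norm _).trans ?_
      rw [norm_mul, Complex.norm_exp_ofReal_mul_I, one_mul]
      exact hl _ (by positivity)
    have h5 : |Real.cos θ' - Real.cos θ| ≤ 2 * Real.pi * |κ| * (√(m:ℝ) * δ) := by
      refine (Real.abs_cos_sub_cos_le θ' θ).trans ?_
      have e : θ' - θ = (2 * Real.pi * √(m:ℝ) * δ) * κ := by rw [hθ', hθ]; ring
      rw [e, abs_mul, abs_of_pos (by positivity : 0 < 2 * Real.pi * √(m:ℝ) * δ)]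
      apply le_of_eq; ring
    calc _ ≤ _ + _ := abs_add_le _ _
      _ ≤ Cl * (√(m:ℝ) * δ) + 2 * Real.pi * |κ| * (√(m:ℝ) * δ) := add_le_add h2 h5
      _ = (Cl + 2 * Real.pi * |κ|) * √(m:ℝ) * δ := by ring
      _ ≤ _ := by gcongr
  refine (Finset.sum_le_sum hpt).trans ?_
  rw [Finset.sum_const, Nat.card_Icc, nsmul_eq_mul, Nat.add_sub_cancel]
  push_cast
  apply le_of_eq
  ring

lemma rpow_le_base {N : ℝ} (hN : 1 ≤ N) {x y : ℝ} (h : x ≤ y) : N ^ x ≤ N ^ y :=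
  Real.rpow_le_rpow_of_exponent_le hN h

variable {E : ℝ → ℝ}

set_option maxHeartbeats 8000000 in
theorem ap_auxq (ha : Bd a) (ha0 : a 0 = 0) (hw : Wt w) {κ₁ κ₂ C0 : ℝ} (hC0 : 0 < C0)
    (hS : Sand E a φ w κ₁ κ₂ C0) {α : ℝ} (hα : 0 < α) {X : ℝ} (hX : 4 ≤ X)
    {Rn : ℕ → ℝ} (hRn : ∃ C₁ : ℝ, ∀ n : ℕ, |Rn n - (X + n * α)| ≤ C₁ / (n + 1)) :
    ∃ C : ℝ, 0 < C ∧ ∃ N0 : ℕ, ∀ N : ℕ, N0 ≤ N → ∀ M : ℕ, 1 ≤ M → (M:ℝ) ≤ (N:ℝ) ^ (1/100:ℝ) →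
    ∑ n ∈ Finset.Ico (N/2) N, (E (Rn n) - U a φ (X + n * α) M)^2 ≤ C * (Tl M + (N:ℝ) ^ (-(13/600):ℝ)) * N := by
  obtain ⟨Ct, hCt, htail⟩ := WS_tail (a := a) (φ := φ) (w := w) ha ha0 hw
  obtain ⟨K₁, hK₁, hlow₁⟩ := WS_lowq ha φ hw κ₁
  obtain ⟨K₂, hK₂, hlow₂⟩ := WS_lowq ha φ hw κ₂
  obtain ⟨Ca, hCa, haC⟩ := ha
  obtain ⟨Cw, hCw, hwd⟩ := hw.dec
  obtain ⟨C1, hC1, N1, hD⟩ := D_ms_gen hα (show 0 < Ca * (Cw + 1) by positivity)
  obtain ⟨C₁, hRn⟩ := hRn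
  have hpi := Real.pi_pos
  set c := min 1 α with hc
  have hc0 : 0 < c := by positivity
  -- the constant in front of the pointwise error
  set Cg : ℝ := (K₁ + K₂) + 2 * Ct * (α/4) ^ (-(24/25):ℝ) + C0 * (X + α) ^ (51/100:ℝ) + C0 with hCg
  have hCg0 : 0 < Cg := by positivity
  set Cu : ℝ := 4 * Cg^2 + 4 * C0^2 * (c ^ (-(3/4):ℝ) * 4) with hCu
  have hCu0 : 0 < Cu := by positivity
  have hpert : ∀ᶠ N : ℕ in atTop, 3 * |C₁| * (N:ℝ) ^ (-(23/48):ℝ) < 1 :=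
    (tend_nat_rpow (y := 23/48) (by norm_num) (3 * |C₁|)).eventually (gt_mem_nhds one_pos)
  have hMN : ∀ᶠ N : ℕ in atTop, 4 * ((N:ℝ) ^ (1/100:ℝ) + 1) ≤ α * N := by
    have h1 := tend_nat_rpow (y := 99/100) (by norm_num) 4
    have h2 := tend_nat_rpow (y := 1) (by norm_num) 4
    filter_upwards [h1.eventually (gt_mem_nhds (show 0 < α/2 by positivity)),
      h2.eventually (gt_mem_nhds (show 0 < α/2 by positivity)), eventually_ge_atTop 1] with N a1 a2 a3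
    have hN0 : (0:ℝ) < N := by exact_mod_cast a3
    have e1 : 4 * (N:ℝ) ^ (1/100:ℝ) = 4 * (N:ℝ) ^ (-(99/100):ℝ) * N := by
      have : (N:ℝ) ^ (1/100:ℝ) = (N:ℝ) ^ (-(99/100):ℝ) * (N:ℝ) ^ (1:ℝ) := by
        rw [← Real.rpow_add hN0]; norm_num
      rw [this, Real.rpow_one]; ring
    have e2 : (4:ℝ) = 4 * (N:ℝ) ^ (-(1:ℝ)) * N := by
      rw [Real.rpow_neg_one, mul_assoc, inv_mul_cancel₀ hN0.ne', mul_one]
    have e3 : 4 * (N:ℝ) ^ (-(99/100):ℝ) * N ≤ α/2 * N := by gcongr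
    have e4 : 4 * (N:ℝ) ^ (-(1:ℝ)) * N ≤ α/2 * N := by gcongr
    linarith
  have hev := hpert.and hMN
  rw [eventually_atTop] at hev
  obtain ⟨N2, hN2⟩ := hev
  refine ⟨8 * C1 + Cu, by positivity, max (max N1 N2) 4, ?_⟩
  intro N hN M hM hMle
  have hNN1 : N1 ≤ N := by omega
  have hNN2 : N2 ≤ N := by omega
  have hN4 : 4 ≤ N := by omega
  have hN4' : (4:ℝ) ≤ N := by exact_mod_cast hN4
  have hN0 : (0:ℝ) < N := by linarith
  have hN1' : (1:ℝ) ≤ N := by linarith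
  have hαN : 4 * ((M:ℝ)+1) ≤ α * N := by
    have := (hN2 N hNN2).2
    linarith
  have hM' : (1:ℝ) ≤ M := by exact_mod_cast hM
  set δ : ℝ := (N:ℝ) ^ (-(25/48):ℝ) with hδ
  have hδ0 : 0 < δ := by positivity
  have hδ1 : δ ≤ 1/2 := by
    have h1 : δ ≤ (4:ℝ) ^ (-(25/48):ℝ) := Real.rpow_le_rpow_of_nonpos (by norm_num) hN4' (by norm_num)
    have h2 : (4:ℝ) ^ (-(25/48):ℝ) ≤ (4:ℝ) ^ (-(1/2):ℝ) := Real.rpow_le_rpow_of_exponent_le (by norm_num) (by norm_num)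
    have h3 : (4:ℝ) ^ (-(1/2):ℝ) = 1/2 := by
      rw [Real.rpow_neg (by norm_num), ← Real.sqrt_eq_rpow, show (4:ℝ) = 2^2 by norm_num, Real.sqrt_sq (by norm_num)]
      norm_num
    linarith
  set Y : ℕ := ⌊α * N / 2⌋₊ with hY
  have hY2 : 2 * (Y:ℝ) ≤ α * N := by
    have := Nat.floor_le (by positivity : 0 ≤ α * N / 2)
    linarith
  have hY4 : α * N / 4 ≤ Y := by
    have := Nat.lt_floor_add_one (α * N / 2)
    rw [← hY] at this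
    linarith
  have hMY : M ≤ Y := by
    have : (M:ℝ) ≤ Y := by linarith
    exact_mod_cast this
  have hY1 : 1 ≤ Y := by omega
  have hτ : Ct * δ ^ (-(3/2):ℝ) * (Y:ℝ) ^ (-(24/25):ℝ) ≤ Ct * (α/4) ^ (-(24/25):ℝ) * (N:ℝ) ^ (-(143/800):ℝ) := by
    have e1 : δ ^ (-(3/2):ℝ) = (N:ℝ) ^ (25/32:ℝ) := by
      rw [hδ, ← Real.rpow_mul hN0.le]; norm_num
    have e2 : (Y:ℝ) ^ (-(24/25):ℝ) ≤ (α/4) ^ (-(24/25):ℝ) * (N:ℝ) ^ (-(24/25):ℝ) := by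
      rw [← Real.mul_rpow (by positivity) hN0.le]
      apply Real.rpow_le_rpow_of_nonpos (by positivity) _ (by norm_num)
      linarith
    calc Ct * δ ^ (-(3/2):ℝ) * (Y:ℝ) ^ (-(24/25):ℝ) ≤ Ct * (N:ℝ) ^ (25/32:ℝ) * ((α/4) ^ (-(24/25):ℝ) * (N:ℝ) ^ (-(24/25):ℝ)) := by
          rw [e1]; exact mul_le_mul_of_nonneg_left e2 (by positivity)
      _ = Ct * (α/4) ^ (-(24/25):ℝ) * ((N:ℝ) ^ (25/32:ℝ) * (N:ℝ) ^ (-(24/25):ℝ)) := by ring
      _ = _ := by rw [← Real.rpow_add hN0]; norm_num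
  -- the middle range
  set mid : ℝ → ℕ → ℝ := fun X' n => ∑ m ∈ Finset.Ioc (M^2) (Y^2), wt a φ w (X' + n * α) δ m with hmid
  have hmidb : ∀ X' : ℝ, ∑ n ∈ Finset.range N, (mid X' n)^2 ≤ C1 * N * Tl M := by
    intro X'
    set b : ℕ → ℂ := fun m => ac a φ X' m * w (√(m:ℝ) * δ) with hb
    have h1 := hD N b M Y hNN1 hM hY2 (by
      intro m hm
      have hm0 : (0:ℝ) < m := by exact_mod_cast hm
      have hs : 0 < √(m:ℝ) := Real.sqrt_pos.mpr hm0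
      rw [← hδ]
      simp only [hb]
      rw [norm_mul, norm_ac]
      unfold hf
      have h2 := haC m hm
      have h3 := hw.one (√(m:ℝ) * δ) (by positivity)
      have h4 := hwd (√(m:ℝ) * δ) (by positivity)
      set y := √(m:ℝ) * δ with hy
      have hy0 : 0 < y := by positivity
      rw [show δ * √(m:ℝ) = y by rw [hy]; ring]
      have h5 : ‖w y‖ ≤ (Cw + 1) * min 1 (y ^ (-(3/2):ℝ)) := by
        rcases min_choice (1:ℝ) (y ^ (-(3/2):ℝ)) with hc | hc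
        · rw [hc]; linarith
        · rw [hc]
          have : 0 ≤ y ^ (-(3/2):ℝ) := by positivity
          linarith
      calc |a m| * ‖w y‖ ≤ (Ca * (√(m:ℝ)) ^ (-(37/25):ℝ)) * ((Cw + 1) * min 1 (y ^ (-(3/2):ℝ))) :=
            mul_le_mul h2 h5 (norm_nonneg _) (by positivity)
        _ = _ := by ring)
    refine le_trans ?_ h1
    apply Finset.sum_le_sum
    intro n _
    have h2 : mid X' n = (∑ m ∈ Finset.Ioc (M^2) (Y^2), b m *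
      Complex.exp (((2 * Real.pi * (n * (α * √(m:ℝ))) : ℝ) : ℂ) * Complex.I)).re := by
      simp only [hmid, hb]
      rw [Complex.re_sum]
      apply Finset.sum_congr rfl
      intro m _
      unfold GW.wt
      rw [← Complex.re_ofReal_mul]
      congr 1
      have h3 := ac_shift a φ X' α m n
      unfold chr at h3
      have h4 : ac a φ X' m * w (√(m:ℝ) * δ) * Complex.exp (((2 * Real.pi * (n * (α * √(m:ℝ))) : ℝ) : ℂ) * Complex.I) =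
          ac a φ (X' + n * α) m * w (√(m:ℝ) * δ) := by rw [h3]; ring
      rw [h4]
      unfold ac
      ring
    rw [h2, ← sq_abs]
    exact pow_le_pow_left₀ (abs_nonneg _) (Complex.abs_re_le_norm _) 2
  -- pointwise bound
  have hpt : ∀ n ∈ Finset.Ico (N/2) N, (E (Rn n) - U a φ (X + n * α) M)^2 ≤
      4 * ((Cg * (N:ℝ) ^ (-(13/1200):ℝ))^2 + C0^2 * (((N:ℝ) ^ (25/48:ℝ)) ^ (26/25:ℝ) * (X + n * α) ^ (-(24/25):ℝ)) +
        (mid (X + κ₁ * δ) n)^2 + (mid (X + κ₂ * δ) n)^2) := by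
    intro n hn
    rw [Finset.mem_Ico] at hn
    have hn' : (n:ℝ) ≤ N := by exact_mod_cast hn.2.le
    set R : ℝ := X + n * α with hR
    have hn0 : (0:ℝ) ≤ n := Nat.cast_nonneg n
    have hR2 : 4 ≤ R := by rw [hR]; nlinarith
    have hR0 : 0 < R := by linarith
    have hshift : |Rn n - R| ≤ δ := by
      have s1 := hRn n
      rw [← hR] at s1
      have s2 : (N:ℝ)/3 ≤ n + 1 := by
        have : N ≤ 2 * (n + 1) := by omega
        have : (N:ℝ) ≤ 2 * (n + 1) := by exact_mod_cast this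
        linarith
      have s3 : C₁ / (n + 1) ≤ 3 * |C₁| / N := by
        calc C₁ / (n + 1) ≤ |C₁| / (n + 1) := by gcongr; exact le_abs_self _
          _ ≤ |C₁| / (N/3) := by gcongr
          _ = _ := by field_simp
      have s4 := (hN2 N hNN2).1
      have s5 : 3 * |C₁| / N ≤ δ := by
        rw [div_le_iff₀ hN0]
        have e : δ * N = (N:ℝ) ^ (23/48:ℝ) := by
          rw [hδ]
          nth_rewrite 2 [← Real.rpow_one (N:ℝ)]
          rw [← Real.rpow_add hN0]; norm_num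
        rw [e]
        have e2 : (N:ℝ) ^ (-(23/48):ℝ) * (N:ℝ) ^ (23/48:ℝ) = 1 := by
          rw [← Real.rpow_add hN0]; norm_num
        have e3 : 0 < (N:ℝ) ^ (23/48:ℝ) := by positivity
        calc 3 * |C₁| = (3 * |C₁| * (N:ℝ) ^ (-(23/48):ℝ)) * (N:ℝ) ^ (23/48:ℝ) := by
              rw [mul_assoc, e2, mul_one]
          _ ≤ 1 * (N:ℝ) ^ (23/48:ℝ) := by gcongr
          _ = _ := one_mul _
      linarith
    have h1 := hS.up R (Rn n) δ hR2 hδ0 hδ1 hshift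
    have h2 := hS.lo R (Rn n) δ hR2 hδ0 hδ1 hshift
    -- decomposition of WS
    have hdec : ∀ (κ K : ℝ), |∑ m ∈ Finset.Icc 1 (M^2), wt a φ w (R + κ * δ) δ m - U a φ R M| ≤ K * (M:ℝ)^3 * δ →
        |WS a φ w (R + κ * δ) δ - U a φ R M| ≤
        K * (M:ℝ)^3 * δ + |mid (X + κ * δ) n| + Ct * δ ^ (-(3/2):ℝ) * (Y:ℝ) ^ (-(24/25):ℝ) := by
      intro κ K hK
      have t1 := htail δ hδ0 (R + κ * δ) Y hY1
      have e3 : X + κ * δ + n * α = R + κ * δ := by rw [hR]; ring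
      have hsplit : ∑ m ∈ Finset.Icc 1 (Y^2), wt a φ w (R + κ * δ) δ m =
          ∑ m ∈ Finset.Icc 1 (M^2), wt a φ w (R + κ * δ) δ m + mid (X + κ * δ) n := by
        simp only [hmid]
        rw [e3, ← Finset.sum_union]
        · apply Finset.sum_congr _ (fun _ _ => rfl)
          have : M^2 ≤ Y^2 := Nat.pow_le_pow_left hMY 2
          ext m
          simp only [Finset.mem_union, Finset.mem_Icc, Finset.mem_Ioc]
          omega
        · rw [Finset.disjoint_left]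
          intro m hm1 hm2
          rw [Finset.mem_Icc] at hm1
          rw [Finset.mem_Ioc] at hm2
          omega
      rw [hsplit] at t1
      set L := ∑ m ∈ Finset.Icc 1 (M^2), wt a φ w (R + κ * δ) δ m
      have e : WS a φ w (R + κ * δ) δ - U a φ R M =
          (WS a φ w (R + κ * δ) δ - (L + mid (X + κ * δ) n)) + (L - U a φ R M) + mid (X + κ * δ) n := by ring
      rw [e]
      calc _ ≤ |(WS a φ w (R + κ * δ) δ - (L + mid (X + κ * δ) n)) + (L - U a φ R M)| + |mid (X + κ * δ) n| := abs_add_le _ _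
        _ ≤ |WS a φ w (R + κ * δ) δ - (L + mid (X + κ * δ) n)| + |L - U a φ R M| + |mid (X + κ * δ) n| := by
            gcongr; exact abs_add_le _ _
        _ ≤ _ := by linarith
    have d1 := hdec κ₁ K₁ (hlow₁ M hM R δ hδ0)
    have d2 := hdec κ₂ K₂ (hlow₂ M hM R δ hδ0)
    have d1' := abs_le.mp d1
    have d2' := abs_le.mp d2
    have hm1 := abs_nonneg (mid (X + κ₁ * δ) n)
    have hm2 := abs_nonneg (mid (X + κ₂ * δ) n)
    have hKδ : 0 < K₁ * (M:ℝ)^3 * δ := by positivity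
    have hKδ2 : 0 < K₂ * (M:ℝ)^3 * δ := by positivity
    have hτ0 : 0 ≤ Ct * δ ^ (-(3/2):ℝ) * (Y:ℝ) ^ (-(24/25):ℝ) := by positivity
    -- the error
    have her1 : C0 * (δ * R ^ (51/100:ℝ)) ≤ C0 * (X + α) ^ (51/100:ℝ) * (N:ℝ) ^ (-(13/1200):ℝ) := by
      have g1 : R ≤ (X + α) * N := by
        rw [hR]
        have : (n:ℝ) * α ≤ N * α := mul_le_mul_of_nonneg_right hn' hα.le
        nlinarith
      have g2 : R ^ (51/100:ℝ) ≤ (X + α) ^ (51/100:ℝ) * (N:ℝ) ^ (51/100:ℝ) := by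
        rw [← Real.mul_rpow (by positivity) hN0.le]
        exact Real.rpow_le_rpow hR0.le g1 (by norm_num)
      calc C0 * (δ * R ^ (51/100:ℝ)) ≤ C0 * (δ * ((X + α) ^ (51/100:ℝ) * (N:ℝ) ^ (51/100:ℝ))) := by gcongr
        _ = C0 * (X + α) ^ (51/100:ℝ) * ((N:ℝ) ^ (-(25/48):ℝ) * (N:ℝ) ^ (51/100:ℝ)) := by rw [hδ]; ring
        _ = _ := by rw [← Real.rpow_add hN0]; norm_num
    have her3 : C0 * δ ^ (2/5:ℝ) = C0 * (N:ℝ) ^ (-(5/24):ℝ) := by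
      rw [hδ, ← Real.rpow_mul hN0.le]; norm_num
    have hM3 : (M:ℝ)^3 * δ ≤ (N:ℝ) ^ (-(13/1200):ℝ) := by
      have g1 : (M:ℝ)^3 ≤ (N:ℝ) ^ (3/100:ℝ) := by
        calc (M:ℝ)^3 ≤ ((N:ℝ) ^ (1/100:ℝ))^3 := by gcongr
          _ = (N:ℝ) ^ (3/100:ℝ) := by
            rw [← Real.rpow_natCast, ← Real.rpow_mul hN0.le]; norm_num
      calc (M:ℝ)^3 * δ ≤ (N:ℝ) ^ (3/100:ℝ) * (N:ℝ) ^ (-(25/48):ℝ) := by rw [hδ]; gcongr
        _ = (N:ℝ) ^ (3/100 + -(25/48):ℝ) := (Real.rpow_add hN0 _ _).symm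
        _ ≤ _ := rpow_le_base hN1' (by norm_num)
    have hpw1 : (N:ℝ) ^ (-(143/800):ℝ) ≤ (N:ℝ) ^ (-(13/1200):ℝ) := rpow_le_base hN1' (by norm_num)
    have hpw2 : (N:ℝ) ^ (-(5/24):ℝ) ≤ (N:ℝ) ^ (-(13/1200):ℝ) := rpow_le_base hN1' (by norm_num)
    set er2 : ℝ := C0 * (R ^ (-(12/25):ℝ) * δ ^ (-(13/25):ℝ)) with her2
    have her20 : 0 ≤ er2 := by positivity
    have her2sq : er2^2 = C0^2 * (((N:ℝ) ^ (25/48:ℝ)) ^ (26/25:ℝ) * R ^ (-(24/25):ℝ)) := by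
      rw [her2, mul_pow, mul_pow]
      have i1 : (R ^ (-(12/25):ℝ))^2 = R ^ (-(24/25):ℝ) := by
        rw [← Real.rpow_natCast, ← Real.rpow_mul hR0.le]; norm_num
      have i2 : (δ ^ (-(13/25):ℝ))^2 = ((N:ℝ) ^ (25/48:ℝ)) ^ (26/25:ℝ) := by
        rw [hδ, ← Real.rpow_natCast, ← Real.rpow_mul (by positivity), ← Real.rpow_mul hN0.le, ← Real.rpow_mul hN0.le]
        norm_num
      rw [i1, i2]; ring
    have hG0 : (K₁ + K₂) * ((M:ℝ)^3 * δ) + 2 * (Ct * δ ^ (-(3/2):ℝ) * (Y:ℝ) ^ (-(24/25):ℝ)) + C0 * (δ * R ^ (51/100:ℝ)) +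
        C0 * δ ^ (2/5:ℝ) ≤ Cg * (N:ℝ) ^ (-(13/1200):ℝ) := by
      have g1 : (K₁ + K₂) * ((M:ℝ)^3 * δ) ≤ (K₁ + K₂) * (N:ℝ) ^ (-(13/1200):ℝ) := by gcongr
      have g2 : 2 * (Ct * δ ^ (-(3/2):ℝ) * (Y:ℝ) ^ (-(24/25):ℝ)) ≤ 2 * Ct * (α/4) ^ (-(24/25):ℝ) * (N:ℝ) ^ (-(13/1200):ℝ) := by
        calc _ ≤ 2 * (Ct * (α/4) ^ (-(24/25):ℝ) * (N:ℝ) ^ (-(143/800):ℝ)) := by linarith
          _ ≤ 2 * (Ct * (α/4) ^ (-(24/25):ℝ) * (N:ℝ) ^ (-(13/1200):ℝ)) := by gcongr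
          _ = _ := by ring
      have g3 : C0 * δ ^ (2/5:ℝ) ≤ C0 * (N:ℝ) ^ (-(13/1200):ℝ) := by rw [her3]; gcongr
      rw [hCg, add_mul, add_mul, add_mul]
      linarith
    have hera : C0 * er R δ = C0 * (δ * R ^ (51/100:ℝ)) + er2 + C0 * δ ^ (2/5:ℝ) := by rw [er, her2]; ring
    rw [hera] at h1 h2
    have hp1 : 0 ≤ C0 * (δ * R ^ (51/100:ℝ)) := by positivity
    have hp2 : 0 ≤ C0 * δ ^ (2/5:ℝ) := by positivity
    have hrg : (K₁ + K₂) * ((M:ℝ)^3 * δ) = K₁ * (M:ℝ)^3 * δ + K₂ * (M:ℝ)^3 * δ := by ring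
    have htot : |E (Rn n) - U a φ R M| ≤ Cg * (N:ℝ) ^ (-(13/1200):ℝ) + er2 + |mid (X + κ₁ * δ) n| + |mid (X + κ₂ * δ) n| := by
      rw [abs_le]
      constructor
      · linarith
      · linarith
    calc (E (Rn n) - U a φ R M)^2 = |E (Rn n) - U a φ R M|^2 := (sq_abs _).symm
      _ ≤ (Cg * (N:ℝ) ^ (-(13/1200):ℝ) + er2 + |mid (X + κ₁ * δ) n| + |mid (X + κ₂ * δ) n|)^2 := pow_le_pow_left₀ (abs_nonneg _) htot 2
      _ ≤ 4 * ((Cg * (N:ℝ) ^ (-(13/1200):ℝ))^2 + er2^2 + |mid (X + κ₁ * δ) n|^2 + |mid (X + κ₂ * δ) n|^2) := lip_sum_four _ _ _ _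
      _ = _ := by rw [sq_abs, sq_abs, her2sq]
  -- summing
  have hs1 := hmidb (X + κ₁ * δ)
  have hs2 := hmidb (X + κ₂ * δ)
  have hTl := Tl_nonneg M
  have hC1T : 0 ≤ C1 * Tl M := by positivity
  -- the average of the second error
  have havg : ((N:ℝ) ^ (25/48:ℝ)) ^ (26/25:ℝ) * ∑ n ∈ Finset.range N, (X + n * α) ^ (-(24/25):ℝ) ≤
      (c ^ (-(3/4):ℝ) * 4) * (N:ℝ) ^ (-(13/600):ℝ) * N := by
    have h2 : ∑ n ∈ Finset.range N, (X + n * α) ^ (-(24/25):ℝ) ≤ c ^ (-(3/4):ℝ) * (4 * (N:ℝ) ^ (1/4:ℝ)) := by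
      calc ∑ n ∈ Finset.range N, (X + n * α) ^ (-(24/25):ℝ) ≤
          ∑ n ∈ Finset.range N, c ^ (-(3/4):ℝ) * ((n:ℝ) + 1) ^ (-(3/4):ℝ) := by
            apply Finset.sum_le_sum
            intro n _
            have hn : (0:ℝ) ≤ n := Nat.cast_nonneg n
            have hR : 1 ≤ X + n * α := by nlinarith
            have hcR : c * ((n:ℝ) + 1) ≤ X + n * α := by
              have a1 : c ≤ 1 := min_le_left _ _
              have a2 : c ≤ α := min_le_right _ _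
              nlinarith
            calc (X + n * α) ^ (-(24/25):ℝ) ≤ (X + n * α) ^ (-(3/4):ℝ) :=
                  Real.rpow_le_rpow_of_exponent_le hR (by norm_num)
              _ ≤ (c * ((n:ℝ) + 1)) ^ (-(3/4):ℝ) :=
                  Real.rpow_le_rpow_of_nonpos (by positivity) hcR (by norm_num)
              _ = _ := Real.mul_rpow hc0.le (by positivity)
        _ = c ^ (-(3/4):ℝ) * ∑ n ∈ Finset.range N, ((n:ℝ) + 1) ^ (-(3/4):ℝ) := by rw [Finset.mul_sum]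
        _ ≤ _ := by
            apply mul_le_mul_of_nonneg_left (sum_quarter N) (by positivity)
    calc _ ≤ ((N:ℝ) ^ (25/48:ℝ)) ^ (26/25:ℝ) * (c ^ (-(3/4):ℝ) * (4 * (N:ℝ) ^ (1/4:ℝ))) := by gcongr
      _ = c ^ (-(3/4):ℝ) * 4 * ((N:ℝ) ^ (13/24:ℝ) * (N:ℝ) ^ (1/4:ℝ)) := by
          rw [← Real.rpow_mul hN0.le]
          norm_num
          ring
      _ = c ^ (-(3/4):ℝ) * 4 * (N:ℝ) ^ (13/24 + 1/4:ℝ) := by rw [← Real.rpow_add hN0]
      _ ≤ c ^ (-(3/4):ℝ) * 4 * (N:ℝ) ^ (-(13/600) + 1:ℝ) := by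
          apply mul_le_mul_of_nonneg_left _ (by positivity)
          exact rpow_le_base hN1' (by norm_num)
      _ = _ := by rw [Real.rpow_add hN0, Real.rpow_one]; ring
  have hsq : (Cg * (N:ℝ) ^ (-(13/1200):ℝ))^2 = Cg^2 * (N:ℝ) ^ (-(13/600):ℝ) := by
    rw [mul_pow, ← Real.rpow_natCast ((N:ℝ) ^ (-(13/1200):ℝ)), ← Real.rpow_mul hN0.le]
    norm_num
  calc ∑ n ∈ Finset.Ico (N/2) N, (E (Rn n) - U a φ (X + n * α) M)^2
      ≤ ∑ n ∈ Finset.Ico (N/2) N, 4 * ((Cg * (N:ℝ) ^ (-(13/1200):ℝ))^2 + C0^2 * (((N:ℝ) ^ (25/48:ℝ)) ^ (26/25:ℝ) * (X + n * α) ^ (-(24/25):ℝ)) +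
        (mid (X + κ₁ * δ) n)^2 + (mid (X + κ₂ * δ) n)^2) := Finset.sum_le_sum hpt
    _ ≤ ∑ n ∈ Finset.range N, 4 * ((Cg * (N:ℝ) ^ (-(13/1200):ℝ))^2 + C0^2 * (((N:ℝ) ^ (25/48:ℝ)) ^ (26/25:ℝ) * (X + n * α) ^ (-(24/25):ℝ)) +
        (mid (X + κ₁ * δ) n)^2 + (mid (X + κ₂ * δ) n)^2) := by
        apply Finset.sum_le_sum_of_subset_of_nonneg
        · intro n hn
          rw [Finset.mem_Ico] at hn
          exact Finset.mem_range.mpr hn.2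
        · intro n _ _
          have : 0 ≤ X + n * α := by positivity
          positivity
    _ = 4 * (N * (Cg^2 * (N:ℝ) ^ (-(13/600):ℝ)) + C0^2 * (((N:ℝ) ^ (25/48:ℝ)) ^ (26/25:ℝ) * ∑ n ∈ Finset.range N, (X + n * α) ^ (-(24/25):ℝ)) +
        ∑ n ∈ Finset.range N, (mid (X + κ₁ * δ) n)^2 + ∑ n ∈ Finset.range N, (mid (X + κ₂ * δ) n)^2) := by
          rw [← Finset.mul_sum]
          congr 1
          simp only [Finset.sum_add_distrib]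
          rw [Finset.sum_const, Finset.card_range, nsmul_eq_mul, hsq, ← Finset.mul_sum, ← Finset.mul_sum]
    _ ≤ 4 * (N * (Cg^2 * (N:ℝ) ^ (-(13/600):ℝ)) + C0^2 * ((c ^ (-(3/4):ℝ) * 4) * (N:ℝ) ^ (-(13/600):ℝ) * N) +
          C1 * N * Tl M + C1 * N * Tl M) := by
          gcongr
    _ = (8 * C1 * Tl M + Cu * (N:ℝ) ^ (-(13/600):ℝ)) * N := by
          rw [hCu]; ring
    _ ≤ (8 * C1 + Cu) * (Tl M + (N:ℝ) ^ (-(13/600):ℝ)) * N := by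
          apply mul_le_mul_of_nonneg_right _ hN0.le
          have p1 : 0 ≤ (N:ℝ) ^ (-(13/600):ℝ) := by positivity
          nlinarith [mul_nonneg hC1.le p1, mul_nonneg hCu0.le hTl]

end Pool.Agent.H425R3.JL
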