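import Mathlib
import Pool.Agent.H425R3.JL.Q1

open MeasureTheory Filter Topology
open Pool.Agent.H383.AP Pool.Agent.H383.Gauss
open Pool.Agent.H383.Gen Pool.Agent.H383.GW

namespace Pool.Agent.H425R3.JL

open Pool.Agent.H383

variable {a : ℕ → ℝ} {φ : ℝ} {w : ℝ → ℂ} {E : ℝ → ℝ}

theorem ap_q (ha : Bd a) (ha0 : a 0 = 0) (hw : Wt w) {κ₁ κ₂ C0 : ℝ} (hC0 : 0 < C0)
    (hS : Sand E a φ w κ₁ κ₂ C0) {α : ℝ} (hα : 0 < α) (X : ℝ)
    {Rn : ℕ → ℝ} (hRn : ∃ C₁ : ℝ, ∀ n : ℕ, |Rn n - (X + n * α)| ≤ C₁ / (n + 1)) :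
    ∃ C : ℝ, 0 < C ∧ ∃ N0 : ℕ, ∀ N : ℕ, N0 ≤ N → ∀ M : ℕ, 1 ≤ M → (M:ℝ) ≤ (N:ℝ) ^ (1/200:ℝ) →
    ∑ n ∈ Finset.range N, (E (Rn n) - U a φ (X + n * α) M)^2 ≤ C * (Tl M + (N:ℝ) ^ (-(1/100):ℝ)) * N := by
  have hAp := GW.ap_of ha ha0 hw hC0 hS hα X hRn
  obtain ⟨A, hA0, hA⟩ := hAp.b2.sq_bdd
  obtain ⟨Cs, hCs, hsum⟩ := sum_a_le ha
  obtain ⟨C₁, hRn⟩ := hRn
  obtain ⟨n0, hn0⟩ := exists_nat_ge ((4 - X)/α)
  have hX' : 4 ≤ X + n0 * α := by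
    rw [div_le_iff₀ hα] at hn0; linarith
  have hRn' : ∃ C₁ : ℝ, ∀ n : ℕ, |Rn (n0 + n) - ((X + n0 * α) + n * α)| ≤ C₁ / (n + 1) := ⟨|C₁|, by
    intro n
    have s1 := hRn (n0 + n)
    have e : X + n0 * α + n * α = X + ((n0 + n : ℕ):ℝ) * α := by push_cast; ring
    rw [e]
    refine s1.trans ?_
    have hn : (0:ℝ) ≤ n := Nat.cast_nonneg n
    have hn0' : (0:ℝ) ≤ n0 := Nat.cast_nonneg n0
    calc C₁ / (((n0 + n : ℕ):ℝ) + 1) ≤ |C₁| / (((n0 + n : ℕ):ℝ) + 1) := by gcongr; exact le_abs_self _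
      _ ≤ |C₁| / (n + 1) := by
          gcongr
          push_cast; linarith⟩
  obtain ⟨C, hC, N1, h⟩ := ap_auxq ha ha0 hw hC0 hS hα hX' hRn'
  refine ⟨3 * C + 8 * (n0 + 1) * (A + Cs^2 + 1), by positivity, max ((N1 + 1)^2) 4, ?_⟩
  intro N hN M hM hMN
  have hN4 : 4 ≤ N := by omega
  have hNN1 : (N1+1)^2 ≤ N := by omega
  have hN0 : (0:ℝ) < N := by exact_mod_cast (by omega : 0 < N)
  have hN1 : (1:ℝ) ≤ N := by exact_mod_cast (by omega : 1 ≤ N)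
  have hM' : (1:ℝ) ≤ M := by exact_mod_cast hM
  set L : ℕ := ⌈√(N:ℝ)⌉₊ with hL
  have hL1 : √(N:ℝ) ≤ L := Nat.le_ceil _
  have hs1 : 1 ≤ √(N:ℝ) := by rw [Real.one_le_sqrt]; exact hN1
  have hL2 : (L:ℝ) ≤ 2 * √(N:ℝ) := by
    have := Nat.ceil_lt_add_one (Real.sqrt_nonneg (N:ℝ))
    linarith
  have hLN1 : N1 ≤ L := by
    have h1 : ((N1 + 1 : ℕ):ℝ) ≤ √(N:ℝ) := by
      apply Real.le_sqrt_of_sq_le
      exact_mod_cast hNN1
    have : ((N1 + 1 : ℕ):ℝ) ≤ L := h1.trans hL1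
    have : N1 + 1 ≤ L := by exact_mod_cast this
    omega
  set f : ℕ → ℝ := fun n => (E (Rn (n0 + n)) - U a φ (X + n0 * α + n * α) M)^2 with hf
  have hf0 : ∀ n, 0 ≤ f n := fun n => sq_nonneg _
  have hTl := Tl_nonneg M
  set P : ℝ := (N:ℝ) ^ (-(1/100):ℝ) with hP
  have hP0 : 0 < P := by positivity
  have hblock : ∀ N', L ≤ N' → ∑ n ∈ Finset.Ico (N'/2) N', f n ≤ (C * (Tl M + P)) * N' := by
    intro N' hN'
    have hsq : √(N:ℝ) ≤ N' := hL1.trans (by exact_mod_cast hN')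
    have hN'0 : (0:ℝ) < N' := by linarith
    have hM2 : (M:ℝ) ≤ (N':ℝ) ^ (1/100:ℝ) := by
      refine hMN.trans ?_
      calc (N:ℝ) ^ (1/200:ℝ) = (√(N:ℝ)) ^ (1/100:ℝ) := by
            rw [Real.sqrt_eq_rpow, ← Real.rpow_mul hN0.le]; norm_num
        _ ≤ _ := Real.rpow_le_rpow (Real.sqrt_nonneg _) hsq (by norm_num)
    have h1 := h N' (by omega) M hM hM2
    refine h1.trans ?_
    have h2 : (N':ℝ) ^ (-(13/600):ℝ) ≤ P := by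
      calc (N':ℝ) ^ (-(13/600):ℝ) ≤ (√(N:ℝ)) ^ (-(13/600):ℝ) :=
            Real.rpow_le_rpow_of_nonpos (by linarith) hsq (by norm_num)
        _ = (N:ℝ) ^ (-(13/1200):ℝ) := by
            rw [Real.sqrt_eq_rpow, ← Real.rpow_mul hN0.le]; norm_num
        _ ≤ _ := rpow_le_base hN1 (by norm_num)
    gcongr
  have hdy := dyadic hf0 (K := C * (Tl M + P)) (by positivity) (N0 := L) hblock N
  -- small n
  set e : ℕ → ℝ := fun n => (E (Rn n) - U a φ (X + n * α) M)^2 with he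
  have he0 : ∀ n, 0 ≤ e n := fun n => sq_nonneg _
  have hfe : ∀ n : ℕ, f n = e (n0 + n) := by
    intro n
    simp only [he, hf]
    have : X + n0 * α + n * α = X + ((n0 + n : ℕ):ℝ) * α := by push_cast; ring
    rw [this]
  have hUb : ∀ R : ℝ, (U a φ R M)^2 ≤ Cs^2 * (M:ℝ)^4 := by
    intro R
    have h1 := (abs_U_le a φ R M).trans (hsum M)
    rw [← sq_abs]
    calc |U a φ R M|^2 ≤ (Cs * (M:ℝ)^2)^2 := pow_le_pow_left₀ (abs_nonneg _) h1 2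
      _ = _ := by ring
  have hsmall : ∀ K : ℕ, ∑ n ∈ Finset.range K, e n ≤ 2 * (A + Cs^2 * (M:ℝ)^4) * K := by
    intro K
    have h1 : ∑ n ∈ Finset.range K, (E (Rn n))^2 ≤ A * K := by
      have h2 := hA K
      unfold rm at h2
      rcases Nat.eq_zero_or_pos K with rfl | hK
      · simp
      · have hK0 : (0:ℝ) < K := by exact_mod_cast hK
        rwa [div_le_iff₀ hK0] at h2
    calc ∑ n ∈ Finset.range K, e n ≤ ∑ n ∈ Finset.range K, (2 * (E (Rn n))^2 + 2 * (Cs^2 * (M:ℝ)^4)) := by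
          apply Finset.sum_le_sum
          intro n _
          simp only [he]
          have := hUb (X + n * α)
          nlinarith [sq_nonneg (E (Rn n) + U a φ (X + n * α) M)]
      _ = 2 * ∑ n ∈ Finset.range K, (E (Rn n))^2 + K * (2 * (Cs^2 * (M:ℝ)^4)) := by
          rw [Finset.sum_add_distrib, ← Finset.mul_sum, Finset.sum_const, Finset.card_range, nsmul_eq_mul]
      _ ≤ 2 * (A * K) + K * (2 * (Cs^2 * (M:ℝ)^4)) := by linarith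
      _ = _ := by ring
  have hrange : ∑ n ∈ Finset.range N, e n ≤ ∑ n ∈ Finset.range n0, e n + ∑ n ∈ Finset.range N, f n := by
    have h1 : ∑ n ∈ Finset.range N, e n ≤ ∑ n ∈ Finset.range (n0 + N), e n :=
      Finset.sum_le_sum_of_subset_of_nonneg (Finset.range_subset_range.mpr (by omega)) (fun n _ _ => he0 n)
    refine h1.trans (le_of_eq ?_)
    rw [Finset.sum_range_add]
    congr 1
    exact Finset.sum_congr rfl (fun n _ => (hfe n).symm)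
  have hfL : ∑ n ∈ Finset.range L, f n ≤ ∑ n ∈ Finset.range (n0 + L), e n := by
    rw [Finset.sum_range_add]
    have h1 : ∑ n ∈ Finset.range L, f n = ∑ n ∈ Finset.range L, e (n0 + n) :=
      Finset.sum_congr rfl (fun n _ => hfe n)
    have h2 : 0 ≤ ∑ n ∈ Finset.range n0, e n := Finset.sum_nonneg (fun n _ => he0 n)
    linarith
  have hs2 := hsmall n0
  have hs3 := hsmall (n0 + L)
  push_cast at hs3
  have hM4 : (M:ℝ)^4 ≤ (N:ℝ) ^ (1/50:ℝ) := by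
    calc (M:ℝ)^4 ≤ ((N:ℝ) ^ (1/200:ℝ))^4 := by gcongr
      _ = _ := by rw [← Real.rpow_natCast, ← Real.rpow_mul hN0.le]; norm_num
  have hn00 : (0:ℝ) ≤ n0 := Nat.cast_nonneg n0
  have htot : 2 * (A + Cs^2 * (M:ℝ)^4) * n0 + 2 * (A + Cs^2 * (M:ℝ)^4) * (n0 + L) ≤
      8 * (n0 + 1) * (A + Cs^2 + 1) * P * N := by
    have g1 : (1:ℝ) ≤ (N:ℝ) ^ (1/50:ℝ) := Real.one_le_rpow hN1 (by norm_num)
    have g2 : A + Cs^2 * (M:ℝ)^4 ≤ (A + Cs^2 + 1) * (N:ℝ) ^ (1/50:ℝ) := by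
      have : Cs^2 * (M:ℝ)^4 ≤ Cs^2 * (N:ℝ) ^ (1/50:ℝ) := by gcongr
      nlinarith
    have g3 : (n0:ℝ) + (n0 + L) ≤ 4 * (n0 + 1) * √(N:ℝ) := by nlinarith
    have g4 : √(N:ℝ) * (N:ℝ) ^ (1/50:ℝ) ≤ P * N := by
      calc √(N:ℝ) * (N:ℝ) ^ (1/50:ℝ) = (N:ℝ) ^ (1/2 + 1/50 : ℝ) := by
            rw [Real.sqrt_eq_rpow, ← Real.rpow_add hN0]
        _ ≤ (N:ℝ) ^ (-(1/100) + 1 : ℝ) := rpow_le_base hN1 (by norm_num)
        _ = P * N := by rw [Real.rpow_add hN0, Real.rpow_one]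
    have g5 : 0 ≤ A + Cs^2 * (M:ℝ)^4 := by positivity
    calc 2 * (A + Cs^2 * (M:ℝ)^4) * n0 + 2 * (A + Cs^2 * (M:ℝ)^4) * (n0 + L) =
        2 * (A + Cs^2 * (M:ℝ)^4) * (n0 + (n0 + L)) := by ring
      _ ≤ 2 * ((A + Cs^2 + 1) * (N:ℝ) ^ (1/50:ℝ)) * (4 * (n0 + 1) * √(N:ℝ)) := by gcongr
      _ = 8 * (n0 + 1) * (A + Cs^2 + 1) * (√(N:ℝ) * (N:ℝ) ^ (1/50:ℝ)) := by ring
      _ ≤ 8 * (n0 + 1) * (A + Cs^2 + 1) * (P * N) := by gcongr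
      _ = _ := by ring
  calc ∑ n ∈ Finset.range N, e n ≤ ∑ n ∈ Finset.range n0, e n + ∑ n ∈ Finset.range N, f n := hrange
    _ ≤ 2 * (A + Cs^2 * (M:ℝ)^4) * n0 + (3 * (C * (Tl M + P)) * N + 2 * (A + Cs^2 * (M:ℝ)^4) * (n0 + L)) := by
        linarith
    _ ≤ 3 * (C * (Tl M + P)) * N + 8 * (n0 + 1) * (A + Cs^2 + 1) * P * N := by linarith
    _ ≤ (3 * C + 8 * (n0 + 1) * (A + Cs^2 + 1)) * (Tl M + P) * N := by
        apply le_trans (le_of_eq (by ring : _ = (3 * C * (Tl M + P) + 8 * (n0 + 1) * (A + Cs^2 + 1) * P) * N))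
        apply mul_le_mul_of_nonneg_right _ hN0.le
        have : 0 ≤ 8 * ((n0:ℝ) + 1) * (A + Cs^2 + 1) * Tl M := by positivity
        nlinarith

end Pool.Agent.H425R3.JL
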