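import Mathlib
import Pool.Agent.H425R3.JL.P1
import Pool.Agent.H425R3.JL.Q2

open Filter Topology
open Pool.Agent.H383.AP Pool.Agent.H383.Gauss
open Pool.Agent.H383.Gen

namespace Pool.Agent.H425R3.JL

open Pool.Agent.H383

variable {a : ℕ → ℝ} {φ : ℝ}

/-- tails of the squares of the coefficients, and of the coefficients at squares -/
lemma tails (ha : Bd a) (ha0 : a 0 = 0) {κ : ℕ} (hκ : 0 < κ) {η : ℝ} (hη : 0 < η) : ∃ m0 : ℕ, ∀ T : Finset ℕ, (∀ m ∈ T, m0 < m) →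
    ∑ m ∈ T, |a m|^2 ≤ η ∧ ∑ m ∈ T.filter (fun m => IsSquare (κ * m)), |a m| ≤ η := by
  have hs1 : Summable (fun m : ℕ => |a m|^2) := by
    obtain ⟨C, hC, h⟩ := ha
    have h1 : Summable (fun m : ℕ => C^2 * (m:ℝ) ^ (-(37/25):ℝ)) := by
      apply Summable.mul_left
      rw [Real.summable_nat_rpow]; norm_num
    apply Summable.of_nonneg_of_le (fun m => by positivity) _ h1
    intro m
    rcases Nat.eq_zero_or_pos m with rfl | hm
    · rw [ha0]; simp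
    · have h2 := h m hm
      have hm0 : (0:ℝ) ≤ m := Nat.cast_nonneg m
      calc |a m|^2 ≤ (C * (√(m:ℝ)) ^ (-(37/25):ℝ))^2 := pow_le_pow_left₀ (abs_nonneg _) h2 2
        _ = C^2 * (m:ℝ) ^ (-(37/25):ℝ) := by
          rw [mul_pow]
          congr 1
          rw [← Real.rpow_natCast, ← Real.rpow_mul (Real.sqrt_nonneg _), Real.sqrt_eq_rpow, ← Real.rpow_mul hm0]
          norm_num
  have hs2 : Summable (rt (fun m => |a m|) 0 (√(κ:ℝ)) 0) := by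
    apply rt_summable (a := fun m => |a m|) _ (by simp [ha0]) (Real.sqrt_pos.mpr (by exact_mod_cast hκ)) 0
    obtain ⟨C, hC, h⟩ := ha
    exact ⟨C, hC, fun m hm => by rw [abs_abs]; exact h m hm⟩
  have hs3 : Summable (fun m : ℕ => if IsSquare (κ * m) then |a m| else 0) := by
    refine hs2.congr (fun m => ?_)
    unfold rt
    have hiff : (∃ k : ℤ, √(κ:ℝ) * √(m:ℝ) = k) ↔ IsSquare (κ * m) := by
      rw [← Real.sqrt_mul (Nat.cast_nonneg κ), ← Nat.cast_mul]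
      constructor
      · rintro ⟨k, hk⟩
        by_contra hcon
        exact (irrational_sqrt_natCast_iff.mpr hcon) ⟨(k:ℚ), by rw [hk]; push_cast; rfl⟩
      · rintro ⟨r, hr⟩
        refine ⟨r, ?_⟩
        rw [hr]; push_cast
        exact Real.sqrt_mul_self (Nat.cast_nonneg r)
    by_cases h : IsSquare (κ * m)
    · rw [if_pos (hiff.mpr h), if_pos h]; simp
    · rw [if_neg (fun hh => h (hiff.mp hh)), if_neg h]
  have hv1 := hs1.vanishing (e := Metric.ball 0 η) (Metric.ball_mem_nhds 0 hη)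
  have hv2 := hs3.vanishing (e := Metric.ball 0 η) (Metric.ball_mem_nhds 0 hη)
  obtain ⟨s1, h1⟩ := hv1
  obtain ⟨s2, h2⟩ := hv2
  refine ⟨(s1 ∪ s2).sup id, fun T hT => ?_⟩
  have hd : ∀ s ⊆ s1 ∪ s2, Disjoint T s := by
    intro s hs
    rw [Finset.disjoint_left]
    intro m hm hms
    have a1 := hT m hm
    have a2 : m ≤ (s1 ∪ s2).sup id := Finset.le_sup (f := id) (hs hms)
    omega
  constructor
  · have := h1 T (hd s1 Finset.subset_union_left)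
    rw [Metric.mem_ball, dist_zero_right, Real.norm_eq_abs] at this
    exact (le_abs_self _).trans this.le
  · have := h2 T (hd s2 Finset.subset_union_right)
    rw [Metric.mem_ball, dist_zero_right, Real.norm_eq_abs] at this
    rw [Finset.sum_filter]
    exact (le_abs_self _).trans this.le

/-- the quadratic form of a finite sum of characters over a finite set -/
lemma quad (S T : Finset ℕ) (c : ℕ → ℂ) (θ : ℕ → ℝ) :
    ∑ n ∈ S, ‖∑ m ∈ T, c m * chr (θ m) n‖^2 ≤ ∑ m ∈ T, ∑ m' ∈ T, ‖c m‖ * ‖c m'‖ * ‖∑ n ∈ S, chr (θ m - θ m') n‖ := by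
  have h1 : ∀ n, ((‖∑ m ∈ T, c m * chr (θ m) n‖ : ℝ) : ℂ)^2 = ∑ m ∈ T, ∑ m' ∈ T, c m * (starRingEnd ℂ) (c m') * chr (θ m - θ m') n := by
    intro n
    rw [← Complex.conj_mul', map_sum, Finset.sum_mul_sum, Finset.sum_comm]
    apply Finset.sum_congr rfl
    intro m _
    apply Finset.sum_congr rfl
    intro m' _
    rw [map_mul, chr_conj, sub_eq_add_neg, ← chr_mul, Pi.mul_apply]
    ring
  have h2 : ((∑ n ∈ S, ‖∑ m ∈ T, c m * chr (θ m) n‖^2 : ℝ) : ℂ) =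
      ∑ m ∈ T, ∑ m' ∈ T, c m * (starRingEnd ℂ) (c m') * ∑ n ∈ S, chr (θ m - θ m') n := by
    rw [Complex.ofReal_sum]
    simp only [Complex.ofReal_pow, h1]
    rw [Finset.sum_comm]
    apply Finset.sum_congr rfl
    intro m _
    rw [Finset.sum_comm]
    apply Finset.sum_congr rfl
    intro m' _
    rw [Finset.mul_sum]
  have h3 : ∑ n ∈ S, ‖∑ m ∈ T, c m * chr (θ m) n‖^2 = ‖((∑ n ∈ S, ‖∑ m ∈ T, c m * chr (θ m) n‖^2 : ℝ) : ℂ)‖ := by
    rw [Complex.norm_real, Real.norm_of_nonneg]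
    exact Finset.sum_nonneg (fun n _ => by positivity)
  rw [h3, h2]
  refine (norm_sum_le _ _).trans (Finset.sum_le_sum (fun m _ => ?_))
  refine (norm_sum_le _ _).trans (Finset.sum_le_sum (fun m' _ => ?_))
  rw [norm_mul, norm_mul, RCLike.norm_conj]

/-- splitting of the quadratic form -/
lemma quad_split {κ : ℕ} (hκ : 0 < κ) (T : Finset ℕ) (w : ℕ → ℝ) (hw : ∀ m, 0 ≤ w m) {D ε : ℝ} (hD : 0 ≤ D) (hε : 0 ≤ ε) (Q : ℕ → ℕ → ℝ)
    (h1 : ∀ m m', Q m m' ≤ D) (h2 : ∀ m ∈ T, ∀ m' ∈ T, m ≠ m' → ¬ (IsSquare (κ * m) ∧ IsSquare (κ * m')) → Q m m' ≤ ε) :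
    ∑ m ∈ T, ∑ m' ∈ T, w m * w m' * Q m m' ≤
      D * ∑ m ∈ T, (w m)^2 + D * (∑ m ∈ T.filter (fun m => IsSquare (κ * m)), w m)^2 + ε * (∑ m ∈ T, w m)^2 := by
  classical
  have hpt : ∀ m ∈ T, ∀ m' ∈ T, w m * w m' * Q m m' ≤ (if m = m' then D * (w m)^2 else 0) +
      D * ((if IsSquare (κ * m) then w m else 0) * (if IsSquare (κ * m') then w m' else 0)) + ε * (w m * w m') := by
    intro m hm m' hm'
    have hww : 0 ≤ w m * w m' := mul_nonneg (hw m) (hw m')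
    have i1 : 0 ≤ (if m = m' then D * (w m)^2 else 0) := by split_ifs <;> positivity
    have i2 : 0 ≤ D * ((if IsSquare (κ * m) then w m else 0) * (if IsSquare (κ * m') then w m' else 0)) := by
      have := hw m
      have := hw m'
      split_ifs <;> positivity
    have i3 : 0 ≤ ε * (w m * w m') := by positivity
    by_cases hmm : m = m'
    · subst hmm
      rw [if_pos rfl]
      have := mul_le_mul_of_nonneg_left (h1 m m) hww
      nlinarith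
    · by_cases hsq : IsSquare (κ * m) ∧ IsSquare (κ * m')
      · rw [if_pos hsq.1, if_pos hsq.2] at i2 ⊢
        have := mul_le_mul_of_nonneg_left (h1 m m') hww
        linarith
      · have := mul_le_mul_of_nonneg_left (h2 m hm m' hm' hmm hsq) hww
        linarith
  refine (Finset.sum_le_sum (fun m hm => Finset.sum_le_sum (fun m' hm' => hpt m hm m' hm'))).trans (le_of_eq ?_)
  simp only [Finset.sum_add_distrib]
  congr 1
  · congr 1
    · rw [Finset.mul_sum]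
      apply Finset.sum_congr rfl
      intro m hm
      rw [Finset.sum_ite_eq, if_pos hm]
    · simp only [← Finset.mul_sum]
      congr 1
      rw [Finset.sum_filter, sq, Finset.sum_mul_sum]
      apply Finset.sum_congr rfl
      intro m _
      rw [Finset.mul_sum]
  · simp only [← Finset.mul_sum]
    congr 1
    rw [sq, Finset.sum_mul_sum]
    apply Finset.sum_congr rfl
    intro m _
    rw [Finset.mul_sum]

lemma U_diff (a : ℕ → ℝ) (φ X α : ℝ) {M M1 : ℕ} (h : M ≤ M1) (n : ℕ) :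
    (U a φ (X + n * α) M1 - U a φ (X + n * α) M)^2 ≤ ‖∑ m ∈ Finset.Ioc (M^2) (M1^2), ac a φ X m * chr (α * √(m:ℝ)) n‖^2 := by
  have h1 : U a φ (X + n * α) M1 - U a φ (X + n * α) M = (∑ m ∈ Finset.Ioc (M^2) (M1^2), ac a φ X m * chr (α * √(m:ℝ)) n).re := by
    rw [U_eq_re, U_eq_re, ← Complex.sub_re]
    congr 1
    rw [sub_eq_iff_eq_add, add_comm, ← Finset.sum_union]
    · apply Finset.sum_congr _ (fun _ _ => rfl)
      have : M^2 ≤ M1^2 := Nat.pow_le_pow_left h 2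
      ext m; simp only [Finset.mem_union, Finset.mem_Icc, Finset.mem_Ioc]; omega
    · rw [Finset.disjoint_left]
      intro m hm1 hm2
      rw [Finset.mem_Icc] at hm1
      rw [Finset.mem_Ioc] at hm2
      omega
  rw [h1, ← sq_abs]
  exact pow_le_pow_left₀ (abs_nonneg _) (Complex.abs_re_le_norm _) 2

set_option maxHeartbeats 8000000 in
/-- approximation along the primes -/
theorem ap_primes (ha : Bd a) (ha0 : a 0 = 0) {κ : ℕ} (hκ : 0 < κ) {X : ℝ} {e : ℕ → ℝ}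
    (hq : ∃ C : ℝ, 0 < C ∧ ∃ N0 : ℕ, ∀ N : ℕ, N0 ≤ N → ∀ M : ℕ, 1 ≤ M → (M:ℝ) ≤ (N:ℝ) ^ (1/200:ℝ) →
      ∑ n ∈ Finset.range N, (e n - U a φ (X + n * √(κ:ℝ)) M)^2 ≤ C * (Tl M + (N:ℝ) ^ (-(1/100):ℝ)) * N)
    {η : ℝ} (hη : 0 < η) : ∃ M0 : ℕ, ∀ M : ℕ, M0 ≤ M → ∃ j0 : ℕ, ∀ j : ℕ, j0 ≤ j →
      fav (PS j) (fun n => (e n - U a φ (X + n * √(κ:ℝ)) M)^2) ≤ η := by
  obtain ⟨C, hC, N0, hq⟩ := hq
  obtain ⟨CT, hCT, hTl⟩ := Tl_pow
  obtain ⟨Cs, hCs, hsum⟩ := sum_a_le ha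
  obtain ⟨m0, hm0⟩ := tails ha ha0 hκ (η := min 1 (η/16)) (by positivity)
  refine ⟨m0, fun M hM => ?_⟩
  obtain ⟨k, hk⟩ : ∃ k : ℕ, k = 600 := ⟨600, rfl⟩
  obtain ⟨K, hK⟩ : ∃ K : ℕ, K = 2 * k + 3 := ⟨_, rfl⟩
  obtain ⟨V, hV⟩ : ∃ V : ℕ, V = 4 * k + 1 := ⟨_, rfl⟩
  obtain ⟨N1, hN1⟩ := primes_sqrt K V
  obtain ⟨N2, hN2⟩ := pi_low
  -- the null sequence
  set g : ℕ → ℝ := fun N => 4 * C * (CT * (Real.log N)⁻¹ + Real.log N * (N:ℝ) ^ (-(1/100):ℝ)) +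
    4 * (16 * Cs^2) * (9 * (Real.log N ^ (4*k+1) * (N:ℝ) ^ (-(1/2):ℝ)) + 4 * 3^V * (Real.log N)⁻¹) with hg
  have hlogt : Tendsto (fun N : ℕ => Real.log (N:ℝ)) atTop atTop := Real.tendsto_log_atTop.comp tendsto_natCast_atTop_atTop
  have hpl : ∀ (d : ℕ) (y : ℝ), 0 < y → Tendsto (fun N : ℕ => Real.log (N:ℝ) ^ d * (N:ℝ) ^ (-y)) atTop (𝓝 0) := by
    intro d y hy
    have h1 := (isLittleO_log_rpow_rpow_atTop (d:ℝ) hy).tendsto_div_nhds_zero
    refine (h1.comp tendsto_natCast_atTop_atTop).congr' ?_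
    filter_upwards [eventually_gt_atTop 0] with N hN
    simp only [Function.comp_apply]
    rw [Real.rpow_natCast, Real.rpow_neg (Nat.cast_nonneg N), div_eq_mul_inv]
  have hinv : Tendsto (fun N : ℕ => (Real.log (N:ℝ))⁻¹) atTop (𝓝 0) := tendsto_inv_atTop_zero.comp hlogt
  have hg0 : Tendsto g atTop (𝓝 0) := by
    have h1 : Tendsto (fun N : ℕ => Real.log (N:ℝ) * (N:ℝ) ^ (-(1/100):ℝ)) atTop (𝓝 0) := by
      have := hpl 1 (1/100) (by norm_num)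
      simpa using this
    have h2 := ((hinv.const_mul CT).add h1).const_mul (4 * C)
    have h3 := (((hpl (4*k+1) (1/2) (by norm_num)).const_mul 9).add (hinv.const_mul (4 * 3^V))).const_mul (4 * (16 * Cs^2))
    have h4 := h2.add h3
    simp only [mul_zero, add_zero] at h4
    exact h4
  -- eventual conditions
  have hM1 : ∀ᶠ N : ℕ in atTop, 2 * Real.log (N:ℝ) ^ k ≤ (N:ℝ) ^ (1/200:ℝ) := by
    have h1 := (hpl k (1/200) (by norm_num)).eventually (gt_mem_nhds (show (0:ℝ) < 1/2 by norm_num))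
    filter_upwards [h1, eventually_gt_atTop 0] with N h2 hN
    have hN0 : (0:ℝ) < N := by exact_mod_cast hN
    rw [Real.rpow_neg hN0.le, ← div_eq_mul_inv, div_lt_iff₀ (by positivity)] at h2
    linarith
  have hev : ∀ᶠ N : ℕ in atTop, g N < η/4 ∧ 2 * Real.log (N:ℝ) ^ k ≤ (N:ℝ) ^ (1/200:ℝ) ∧
      ((M:ℝ) + 4 * κ + 10) ≤ Real.log N ∧ N0 ≤ N ∧ N1 ≤ N ∧ N2 ≤ N := by
    filter_upwards [hg0.eventually (gt_mem_nhds (show 0 < η/4 by positivity)), hM1,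
      hlogt.eventually_ge_atTop ((M:ℝ) + 4 * κ + 10), eventually_ge_atTop N0, eventually_ge_atTop N1, eventually_ge_atTop N2]
      with N a1 a2 a3 a4 a5 a6
    exact ⟨a1, a2, a3, a4, a5, a6⟩
  rw [eventually_atTop] at hev
  obtain ⟨j0, hj0⟩ := hev
  refine ⟨j0, fun j hj => ?_⟩
  obtain ⟨h1, h2, h3, h4, h5, h6⟩ := hj0 (j+2) (by omega)
  set N : ℕ := j + 2 with hN
  set ℓ : ℝ := Real.log (N:ℝ) with hℓ
  have hκ0 : (0:ℝ) < κ := by exact_mod_cast hκ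
  have hMn : (0:ℝ) ≤ M := Nat.cast_nonneg M
  have hℓ10 : 10 ≤ ℓ := by linarith
  have hℓ1 : 1 ≤ ℓ := by linarith
  have hℓ0 : 0 < ℓ := by linarith
  have hNp : (0:ℝ) < N := by exact_mod_cast (by omega : 0 < N)
  have hcard : 0 < ((PR N).card : ℝ) := lt_of_lt_of_le (by positivity) (hN2 N h6)
  have hcl := hN2 N h6
  -- the second cutoff
  set M1 : ℕ := ⌈ℓ ^ k⌉₊ with hM1d
  have hk1 : 1 ≤ k := by omega
  have hℓk : ℓ ≤ ℓ^k := le_self_pow₀ hℓ1 (by omega)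
  have hM1a : ℓ^k ≤ M1 := Nat.le_ceil _
  have hM1b : (M1:ℝ) ≤ 2 * ℓ^k := by
    have := Nat.ceil_lt_add_one (by positivity : 0 ≤ ℓ^k)
    linarith
  have hM11 : 1 ≤ M1 := by
    have : (1:ℝ) ≤ M1 := by linarith
    exact_mod_cast this
  have hMM1 : M ≤ M1 := by
    have : (M:ℝ) ≤ M1 := by linarith
    exact_mod_cast this
  have hQ := hq N h4 M1 hM11 (hM1b.trans h2)
  have hTl1 : Tl M1 ≤ CT * ℓ⁻¹ * ℓ⁻¹ := by
    refine (hTl M1 hM11).trans ?_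
    rw [mul_assoc]
    apply mul_le_mul_of_nonneg_left _ hCT.le
    calc (M1:ℝ) ^ (-(1/200):ℝ) ≤ (ℓ^k) ^ (-(1/200):ℝ) := Real.rpow_le_rpow_of_nonpos (by positivity) hM1a (by norm_num)
      _ = ℓ ^ (-3:ℝ) := by
        rw [← Real.rpow_natCast ℓ k, ← Real.rpow_mul hℓ0.le, hk]
        norm_num
      _ ≤ ℓ ^ (-2:ℝ) := rpow_le_base hℓ1 (by norm_num)
      _ = ℓ⁻¹ * ℓ⁻¹ := by
        rw [Real.rpow_neg hℓ0.le, show (2:ℝ) = ((2:ℕ):ℝ) by norm_num, Real.rpow_natCast, sq, mul_inv]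
  -- the middle range
  set T : Finset ℕ := Finset.Ioc (M^2) (M1^2) with hT
  set c : ℕ → ℂ := ac a φ X with hc
  have hnc : ∀ m, ‖c m‖ = |a m| := fun m => norm_ac a φ X m
  have hbig : ∀ m ∈ T, m0 < m := by
    intro m hm
    rw [hT, Finset.mem_Ioc] at hm
    have : M ≤ M^2 := Nat.le_self_pow (by norm_num) M
    omega
  obtain ⟨t1, t2⟩ := hm0 T hbig
  set ε : ℝ := 9 * √(N:ℝ) + 4 * 3^V * N / ℓ ^ (V+1) with hε
  have hε0 : 0 ≤ ε := by positivity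
  have hmid : ∑ n ∈ PS j, ‖∑ m ∈ T, c m * chr (√(κ:ℝ) * √(m:ℝ)) n‖^2 ≤
      (PR N).card * (η/16) + (PR N).card * (η/16) + ε * (Cs * (M1:ℝ)^2)^2 := by
    refine (quad (PS j) T c (fun m => √(κ:ℝ) * √(m:ℝ))).trans ?_
    simp only [hnc]
    refine (quad_split hκ T (fun m => |a m|) (fun m => abs_nonneg _) (D := (PR N).card) (ε := ε) (Nat.cast_nonneg _) hε0
      (fun m m' => ‖∑ n ∈ PS j, chr (√(κ:ℝ) * √(m:ℝ) - √(κ:ℝ) * √(m':ℝ)) n‖) ?_ ?_).trans ?_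
    · intro m m'
      refine (norm_sum_le _ _).trans ?_
      simp only [norm_chr, Finset.sum_const, nsmul_eq_mul, mul_one]
      rw [PS_card]
    · intro m hm m' hm' hmm hns
      have e1 : ∀ m : ℕ, √(κ:ℝ) * √(m:ℝ) = √((κ * m : ℕ):ℝ) := by
        intro m; rw [← Real.sqrt_mul (Nat.cast_nonneg κ)]; push_cast; rfl
      rw [e1, e1, PS_sum]
      set θ := √((κ * m : ℕ):ℝ) - √((κ * m' : ℕ):ℝ) with hθ
      have e2 : ∑ p ∈ PR (j+2), chr θ (p - 1) = Complex.exp (((2 * Real.pi * (-θ) : ℝ) : ℂ) * Complex.I) * ∑ p ∈ PR (j+2), chr θ p := by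
        rw [Finset.mul_sum]
        apply Finset.sum_congr rfl
        intro p hp
        unfold PR at hp
        rw [Finset.mem_filter, Finset.mem_Icc] at hp
        unfold chr
        rw [← Complex.exp_add, Nat.cast_sub hp.1.1]
        congr 1
        push_cast; ring
      rw [e2, norm_mul, Complex.norm_exp_ofReal_mul_I, one_mul]
      have hb : ∀ m ∈ T, ((κ * m : ℕ):ℝ) ≤ ℓ ^ K := by
        intro m hm
        rw [hT, Finset.mem_Ioc] at hm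
        have b1 : (m:ℝ) ≤ (M1:ℝ)^2 := by exact_mod_cast hm.2
        have b2 : (M1:ℝ)^2 ≤ (2 * ℓ^k)^2 := pow_le_pow_left₀ (Nat.cast_nonneg _) hM1b 2
        have b3 : (κ:ℝ) ≤ ℓ := by linarith
        push_cast
        calc (κ:ℝ) * m ≤ ℓ * (2 * ℓ^k)^2 := by
              apply mul_le_mul b3 (b1.trans b2) (Nat.cast_nonneg _) hℓ0.le
          _ = 4 * (ℓ^(2*k) * ℓ) := by ring
          _ ≤ ℓ^2 * (ℓ^(2*k) * ℓ) := by
              apply mul_le_mul_of_nonneg_right _ (by positivity)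
              nlinarith
          _ = ℓ ^ K := by rw [hK]; ring
      have := hN1 N h5 (κ * m) (κ * m') (hb m hm) (hb m' hm') (by
        intro h; exact hmm (Nat.eq_of_mul_eq_mul_left hκ h)) hns
      exact this
    · have hcn : (0:ℝ) ≤ (PR N).card := Nat.cast_nonneg _
      have s1 : ∑ m ∈ T, |a m|^2 ≤ η/16 := t1.trans (min_le_right _ _)
      have s2 : (∑ m ∈ T.filter (fun m => IsSquare (κ * m)), |a m|)^2 ≤ η/16 := by
        have p0 : 0 ≤ ∑ m ∈ T.filter (fun m => IsSquare (κ * m)), |a m| := Finset.sum_nonneg (fun m _ => abs_nonneg _)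
        have p1 := t2.trans (min_le_left _ _)
        have p2 := t2.trans (min_le_right _ _)
        nlinarith
      have s3 : ∑ m ∈ T, |a m| ≤ Cs * (M1:ℝ)^2 := by
        refine le_trans ?_ (hsum M1)
        apply Finset.sum_le_sum_of_subset_of_nonneg
        · intro m hm
          rw [hT, Finset.mem_Ioc] at hm
          rw [Finset.mem_Icc]; omega
        · intro _ _ _; exact abs_nonneg _
      have s30 : 0 ≤ ∑ m ∈ T, |a m| := Finset.sum_nonneg (fun m _ => abs_nonneg _)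
      gcongr
  -- total
  have htot : ∑ n ∈ PS j, (e n - U a φ (X + n * √(κ:ℝ)) M)^2 ≤
      2 * (C * (Tl M1 + (N:ℝ) ^ (-(1/100):ℝ)) * N) +
      2 * ((PR N).card * (η/16) + (PR N).card * (η/16) + ε * (Cs * (M1:ℝ)^2)^2) := by
    have hpt : ∀ n ∈ PS j, (e n - U a φ (X + n * √(κ:ℝ)) M)^2 ≤ 2 * (e n - U a φ (X + n * √(κ:ℝ)) M1)^2 +
        2 * ‖∑ m ∈ T, c m * chr (√(κ:ℝ) * √(m:ℝ)) n‖^2 := by
      intro n _
      have := U_diff a φ X (√(κ:ℝ)) hMM1 n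
      nlinarith [sq_nonneg ((e n - U a φ (X + n * √(κ:ℝ)) M1) - (U a φ (X + n * √(κ:ℝ)) M1 - U a φ (X + n * √(κ:ℝ)) M))]
    refine (Finset.sum_le_sum hpt).trans ?_
    rw [Finset.sum_add_distrib, ← Finset.mul_sum, ← Finset.mul_sum]
    have hsub : PS j ⊆ Finset.range N := by
      intro n hn
      unfold PS at hn
      rw [Finset.mem_image] at hn
      obtain ⟨p, hp, rfl⟩ := hn
      unfold PR at hp
      rw [Finset.mem_filter, Finset.mem_Icc] at hp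
      rw [Finset.mem_range]; omega
    have h7 : ∑ n ∈ PS j, (e n - U a φ (X + n * √(κ:ℝ)) M1)^2 ≤ ∑ n ∈ Finset.range N, (e n - U a φ (X + n * √(κ:ℝ)) M1)^2 :=
      Finset.sum_le_sum_of_subset_of_nonneg hsub (fun _ _ _ => sq_nonneg _)
    linarith
  unfold fav
  rw [PS_card, div_le_iff₀ hcard]
  refine htot.trans ?_
  -- compare with the number of primes
  have hNc : (N:ℝ) ≤ 2 * ℓ * (PR N).card := by
    rw [div_le_iff₀ (by positivity)] at hcl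
    linarith
  have hP0 : 0 < (N:ℝ) ^ (-(1/100):ℝ) := by positivity
  have hcn : (0:ℝ) ≤ (PR N).card := Nat.cast_nonneg _
  have hTln := Tl_nonneg M1
  have u1 : 2 * (C * (Tl M1 + (N:ℝ) ^ (-(1/100):ℝ)) * N) ≤ 4 * C * (CT * ℓ⁻¹ + ℓ * (N:ℝ) ^ (-(1/100):ℝ)) * (PR N).card := by
    calc 2 * (C * (Tl M1 + (N:ℝ) ^ (-(1/100):ℝ)) * N) ≤ 2 * (C * (CT * ℓ⁻¹ * ℓ⁻¹ + (N:ℝ) ^ (-(1/100):ℝ)) * (2 * ℓ * (PR N).card)) := by
          gcongr
      _ = 4 * C * (CT * ℓ⁻¹ * (ℓ⁻¹ * ℓ) + ℓ * (N:ℝ) ^ (-(1/100):ℝ)) * (PR N).card := by ring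
      _ = _ := by rw [inv_mul_cancel₀ hℓ0.ne', mul_one]
  have u2 : ε * (Cs * (M1:ℝ)^2)^2 ≤ 2 * (16 * Cs^2) * (9 * (ℓ ^ (4*k+1) * (N:ℝ) ^ (-(1/2):ℝ)) + 4 * 3^V * ℓ⁻¹) * (PR N).card := by
    have v1 : (Cs * (M1:ℝ)^2)^2 ≤ 16 * Cs^2 * ℓ^(4*k) := by
      calc (Cs * (M1:ℝ)^2)^2 ≤ (Cs * (2 * ℓ^k)^2)^2 := by gcongr
        _ = 16 * Cs^2 * ℓ^(4*k) := by rw [mul_comm 4 k, pow_mul]; ring
    have v2 : ε = N * (9 * (N:ℝ) ^ (-(1/2):ℝ) + 4 * 3^V / ℓ^(V+1)) := by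
      have : √(N:ℝ) = N * (N:ℝ) ^ (-(1/2):ℝ) := by
        nth_rewrite 2 [← Real.rpow_one (N:ℝ)]
        rw [← Real.rpow_add hNp, Real.sqrt_eq_rpow]; norm_num
      rw [hε, this]; ring
    have v3 : 0 ≤ 9 * (N:ℝ) ^ (-(1/2):ℝ) + 4 * 3^V / ℓ^(V+1) := by positivity
    have v4 : ℓ^(4*k) * (ℓ * (4 * 3^V / ℓ^(V+1))) = 4 * 3^V * ℓ⁻¹ := by
      rw [hV]
      have : ℓ^(4*k+1+1) = ℓ^(4*k) * ℓ * ℓ := by ring
      rw [this]
      field_simp
    calc ε * (Cs * (M1:ℝ)^2)^2 ≤ (N * (9 * (N:ℝ) ^ (-(1/2):ℝ) + 4 * 3^V / ℓ^(V+1))) * (16 * Cs^2 * ℓ^(4*k)) := by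
          rw [v2]; gcongr
      _ ≤ ((2 * ℓ * (PR N).card) * (9 * (N:ℝ) ^ (-(1/2):ℝ) + 4 * 3^V / ℓ^(V+1))) * (16 * Cs^2 * ℓ^(4*k)) := by gcongr
      _ = 2 * (16 * Cs^2) * (9 * (ℓ^(4*k) * ℓ * (N:ℝ) ^ (-(1/2):ℝ)) + ℓ^(4*k) * (ℓ * (4 * 3^V / ℓ^(V+1)))) * (PR N).card := by ring
      _ = _ := by rw [v4, pow_succ ℓ (4*k)]
  have hgN : g N * (PR N).card ≤ η/4 * (PR N).card := mul_le_mul_of_nonneg_right h1.le hcn
  have hgN2 : g N * (PR N).card = 4 * C * (CT * ℓ⁻¹ + ℓ * (N:ℝ) ^ (-(1/100):ℝ)) * (PR N).card +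
      2 * (2 * (16 * Cs^2) * (9 * (ℓ ^ (4*k+1) * (N:ℝ) ^ (-(1/2):ℝ)) + 4 * 3^V * ℓ⁻¹) * (PR N).card) := by
    simp only [hg]; ring
  have hlast : 0 ≤ η * (PR N).card := by positivity
  linarith

end Pool.Agent.H425R3.JL
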