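import Mathlib
import Pool.Agent.H425R3.JL.L2
import Pool.Agent.H425R3.JL.P2

open Filter Topology MeasureTheory
open Pool.Agent.H383.AP Pool.Agent.H383.Gauss
open Pool.Agent.H383.Gen

namespace Pool.Agent.H425R3.JL

open Pool.Agent.H383

variable {ι : Type*} [Fintype ι]

lemma ApU_comp {U : ℕ → ℕ → ι → ℝ} {e : ℕ → ι → ℝ} {S : ℕ → Finset ℕ}
    (h : ∀ i, ∀ η : ℝ, 0 < η → ∃ M0 : ℕ, ∀ M : ℕ, M0 ≤ M → ∃ j0 : ℕ, ∀ j : ℕ, j0 ≤ j →
      fav (S j) (fun n => (e n i - U M n i)^2) ≤ η) : ApU U e S := by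
  intro η hη
  have h' := fun i => h i (η / (Fintype.card ι + 1)) (by positivity)
  choose M0 hM0 using h'
  refine ⟨Finset.univ.sup M0, fun M hM => ?_⟩
  have h2 : ∀ i, ∃ j0 : ℕ, ∀ j : ℕ, j0 ≤ j → fav (S j) (fun n => (e n i - U M n i)^2) ≤ η / (Fintype.card ι + 1) :=
    fun i => hM0 i M ((Finset.le_sup (Finset.mem_univ i)).trans hM)
  choose j0 hj0 using h2
  refine ⟨Finset.univ.sup j0, fun j hj => ?_⟩
  have h3 : fav (S j) (fun n => q (e n - U M n)) = ∑ i, fav (S j) (fun n => (e n i - U M n i)^2) := by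
    unfold fav q
    rw [Finset.sum_comm, Finset.sum_div]
    rfl
  rw [h3]
  calc ∑ i, fav (S j) (fun n => (e n i - U M n i)^2) ≤ ∑ i : ι, η / (Fintype.card ι + 1) :=
        Finset.sum_le_sum (fun i _ => hj0 i j ((Finset.le_sup (Finset.mem_univ i)).trans hj))
    _ = Fintype.card ι * (η / (Fintype.card ι + 1)) := by rw [Finset.sum_const, Finset.card_univ, nsmul_eq_mul]
    _ ≤ η := by
        rw [mul_div_assoc', div_le_iff₀ (by positivity)]
        nlinarith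

/-- the model polynomials -/
noncomputable def UU (a : ι → ℕ → ℝ) (φ : ι → ℝ) (α X : ι → ℝ) (M n : ℕ) (i : ι) : ℝ :=
  U (a i) (φ i) (X i + n * α i) M

lemma UU_TG {Γ : AddSubgroup ℝ} {a : ι → ℕ → ℝ} {φ : ι → ℝ} {α X : ι → ℝ} (hΓ : ∀ i, ∀ m : ℕ, α i * √(m:ℝ) ∈ Γ) (M : ℕ) (i : ι) :
    (fun n => ((UU a φ α X M n i : ℝ) : ℂ)) ∈ TG Γ := by
  unfold UU
  rw [U_trig]
  apply Submodule.sum_mem
  intro m _
  exact (TG Γ).add_mem ((TG Γ).smul_mem _ (TG_chr (hΓ i m))) ((TG Γ).smul_mem _ (TG_chr (Γ.neg_mem (hΓ i m))))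

/-- initial segments -/
def RS (j : ℕ) : Finset ℕ := Finset.range (j+1)

lemma RS_ne (j : ℕ) : (RS j).Nonempty := ⟨0, by unfold RS; simp⟩

lemma RS_fav (j : ℕ) (g : ℕ → ℝ) : fav (RS j) g = rm g (j+1) := by
  unfold fav RS rm
  rw [Finset.card_range]

lemma AvOK_RS (Γ : AddSubgroup ℝ) : AvOK Γ RS := by
  intro θ _
  have h := chr_mean θ
  unfold HasMean at h
  refine (h.comp (tendsto_add_atTop_nat 1)).congr (fun j => ?_)
  simp only [Function.comp_apply]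
  unfold cm cav RS
  rw [Finset.card_range]

lemma ApU_RS {a : ι → ℕ → ℝ} {φ : ι → ℝ} {α X : ι → ℝ} {e : ℕ → ι → ℝ}
    (h : ∀ i, Ap (a i) (φ i) (fun n => e n i) (α i) (X i)) : ApU (UU a φ α X) e RS := by
  apply ApU_comp
  intro i η hη
  obtain ⟨M0, hM0⟩ := h i η hη
  refine ⟨M0, fun M hM => ?_⟩
  obtain ⟨N0, hN0⟩ := hM0 M hM
  refine ⟨N0, fun j hj => ?_⟩
  rw [RS_fav]
  exact hN0 (j+1) (by omega)

/-- the law along the integers is the law along the primes -/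
theorem gen_primes {a : ι → ℕ → ℝ} {φ : ι → ℝ} {κ : ι → ℕ} {X : ι → ℝ} {e : ℕ → ι → ℝ}
    (ha : ∀ i, Bd (a i)) (ha0 : ∀ i, a i 0 = 0) (hκ : ∀ i, 0 < κ i)
    (hAp : ∀ i, Ap (a i) (φ i) (fun n => e n i) (√(κ i:ℝ)) (X i))
    (hq : ∀ i, ∃ C : ℝ, 0 < C ∧ ∃ N0 : ℕ, ∀ N : ℕ, N0 ≤ N → ∀ M : ℕ, 1 ≤ M → (M:ℝ) ≤ (N:ℝ) ^ (1/200:ℝ) →
      ∑ n ∈ Finset.range N, (e n i - U (a i) (φ i) (X i + n * √(κ i:ℝ)) M)^2 ≤ C * (Tl M + (N:ℝ) ^ (-(1/100):ℝ)) * N) :
    ∃ μ : ProbabilityMeasure (ι → ℝ), Integrable q (μ : Measure (ι → ℝ)) ∧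
    ∀ f : (ι → ℝ) → ℝ, Continuous f → (∃ C, ∀ x, |f x| ≤ C * (1 + q x)) →
      Tendsto (fun j => fav (RS j) (fun n => f (e n))) atTop (𝓝 (∫ x, f x ∂(μ : Measure (ι → ℝ)))) ∧
      Tendsto (fun j => fav (PS j) (fun n => f (e n))) atTop (𝓝 (∫ x, f x ∂(μ : Measure (ι → ℝ)))) := by
  set α : ι → ℝ := fun i => √(κ i:ℝ) with hα
  have hΓ : ∀ i, ∀ m : ℕ, α i * √(m:ℝ) ∈ GI := by
    intro i m
    simp only [hα]
    rw [← Real.sqrt_mul (Nat.cast_nonneg _), ← Nat.cast_mul]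
    exact sqrt_GI _
  have hU : ∀ M i, (fun n => ((UU a φ α X M n i : ℝ) : ℂ)) ∈ TG GI := fun M i => UU_TG hΓ M i
  have h1 : ApU (UU a φ α X) e RS := ApU_RS hAp
  have h2 : ApU (UU a φ α X) e PS := by
    apply ApU_comp
    intro i η hη
    exact ap_primes (ha i) (ha0 i) (hκ i) (hq i) hη
  obtain ⟨μ, hμ1, hμ2⟩ := law hU RS_ne (AvOK_RS GI) h1
  refine ⟨μ, hμ1, fun f hf hC => ⟨hμ2 f hf hC, ?_⟩⟩
  exact law_transfer hU RS_ne (AvOK_RS GI) h1 PS_ne AvOK_PS h2 hf hC (hμ2 f hf hC)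

/-- uniqueness of the marginal law -/
lemma marg {S : ℕ → Finset ℕ} {e : ℕ → ι → ℝ} {μ : ProbabilityMeasure (ι → ℝ)} {ν : ProbabilityMeasure ℝ} (i : ι)
    (h1 : ∀ f : (ι → ℝ) → ℝ, Continuous f → (∃ C, ∀ x, |f x| ≤ C * (1 + q x)) →
      Tendsto (fun j => fav (S j) (fun n => f (e n))) atTop (𝓝 (∫ x, f x ∂(μ : Measure (ι → ℝ)))))
    (h2 : ∀ f : ℝ → ℝ, Continuous f → (∃ C, ∀ x, |f x| ≤ C) →
      Tendsto (fun j => fav (S j) (fun n => f (e n i))) atTop (𝓝 (∫ x, f x ∂(ν : Measure ℝ)))) :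
    (μ : Measure (ι → ℝ)).map (fun x => x i) = (ν : Measure ℝ) := by
  haveI : IsProbabilityMeasure ((μ : Measure (ι → ℝ)).map (fun x => x i)) :=
    Measure.isProbabilityMeasure_map (measurable_pi_apply i).aemeasurable
  apply ext_of_forall_integral_eq_of_IsFiniteMeasure
  intro f
  rw [integral_map (measurable_pi_apply i).aemeasurable f.continuous.aestronglyMeasurable]
  have hb : ∀ x, |f x| ≤ ‖f‖ := fun x => f.norm_coe_le_norm x
  have a1 := h1 (fun x => f (x i)) (f.continuous.comp (continuous_apply i)) ⟨‖f‖, fun x => by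
    have := hb (x i)
    have := q_nonneg x
    nlinarith [norm_nonneg f]⟩
  have a2 := h2 f f.continuous ⟨‖f‖, hb⟩
  exact tendsto_nhds_unique a1 a2

/-- proportions -/
lemma portm {S : ℕ → Finset ℕ} (hne : ∀ j, (S j).Nonempty) {e : ℕ → ι → ℝ} {μ : ProbabilityMeasure (ι → ℝ)}
    (h1 : ∀ f : (ι → ℝ) → ℝ, Continuous f → (∃ C, ∀ x, |f x| ≤ C * (1 + q x)) →
      Tendsto (fun j => fav (S j) (fun n => f (e n))) atTop (𝓝 (∫ x, f x ∂(μ : Measure (ι → ℝ)))))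
    {A : Set (ι → ℝ)} (hA : (μ : Measure (ι → ℝ)) (frontier A) = 0) [DecidablePred (fun n => e n ∈ A)] :
    Tendsto (fun j => (((S j).filter (fun n => e n ∈ A)).card : ℝ) / (S j).card) atTop (𝓝 ((μ : Measure (ι → ℝ)).real A)) := by
  classical
  haveI : ∀ j, IsProbabilityMeasure (emp (S j) e) := fun j => emp_prob (hne j) e
  set P : ℕ → ProbabilityMeasure (ι → ℝ) := fun j => ⟨emp (S j) e, inferInstance⟩ with hP
  have hw : Tendsto P atTop (𝓝 μ) := by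
    rw [ProbabilityMeasure.tendsto_iff_forall_integral_tendsto]
    intro f
    have a1 := h1 f f.continuous ⟨‖f‖, fun x => by
      have := f.norm_coe_le_norm x
      rw [Real.norm_eq_abs] at this
      have := q_nonneg x
      nlinarith [norm_nonneg f]⟩
    refine a1.congr (fun j => ?_)
    exact (emp_int (S j) e f.continuous).symm
  have h2 := ProbabilityMeasure.tendsto_measure_of_null_frontier_of_tendsto' hw hA
  have h3 := (ENNReal.tendsto_toReal (measure_ne_top _ _)).comp h2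
  refine h3.congr (fun j => ?_)
  simp only [Function.comp_apply, hP, ProbabilityMeasure.coe_mk]
  unfold emp
  rw [Measure.smul_apply, Measure.finsetSum_apply]
  simp only [Measure.dirac_apply, smul_eq_mul]
  have h4 : ∑ n ∈ S j, A.indicator (1 : (ι → ℝ) → ENNReal) (e n) = (((S j).filter (fun n => e n ∈ A)).card : ENNReal) := by
    simp only [Set.indicator_apply, Pi.one_apply]
    rw [← Finset.sum_filter, Finset.sum_const, nsmul_eq_mul, mul_one]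
  rw [h4, ENNReal.toReal_mul, ENNReal.toReal_inv, ENNReal.toReal_natCast, ENNReal.toReal_natCast, div_eq_inv_mul]

end Pool.Agent.H425R3.JL
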