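import Mathlib
import Pool.Agent.H425R3.JL.F1
import Pool.Agent.H383.Full3

open Filter Topology MeasureTheory
open Pool.Agent.H383.AP Pool.Agent.H383.Gauss
open Pool.Agent.H383.Gen

namespace Pool.Agent.H425R3.JL

open Pool.Agent.H383

/-- the hypotheses on an error term needed below -/
structure Data (Ex : ℝ → ℝ) (af : ℕ → ℝ) (φ : ℝ) (κ : ℕ → ℕ) (X : ℕ → ℝ → ℝ) : Prop where
  bd : Bd af
  zero : af 0 = 0
  pos : ∀ a, 0 < a → 0 < κ a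
  ap : ∀ (a : ℕ) (b c : ℝ), 0 < a → (∀ n : ℕ, 0 < (a:ℝ) * (n:ℝ)^2 + b * n + c) →
    Ap af φ (fun n : ℕ => Ex ((a:ℝ) * (n:ℝ)^2 + b * n + c)) (√(κ a:ℝ)) (X a b)
  apq : ∀ (a : ℕ) (b c : ℝ), 0 < a → (∀ n : ℕ, 0 < (a:ℝ) * (n:ℝ)^2 + b * n + c) →
    ∃ C : ℝ, 0 < C ∧ ∃ N0 : ℕ, ∀ N : ℕ, N0 ≤ N → ∀ M : ℕ, 1 ≤ M → (M:ℝ) ≤ (N:ℝ) ^ (1/200:ℝ) →
      ∑ n ∈ Finset.range N, (Ex ((a:ℝ) * (n:ℝ)^2 + b * n + c) - U af φ (X a b + n * √(κ a:ℝ)) M)^2 ≤
        C * (Tl M + (N:ℝ) ^ (-(1/100):ℝ)) * N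
  law1 : ∀ (a : ℕ) (b c : ℝ), 0 < a → (∀ n : ℕ, 0 < (a:ℝ) * (n:ℝ)^2 + b * n + c) →
    ∃ (ν : ProbabilityMeasure ℝ) (g : ℂ → ℂ), Differentiable ℂ g ∧ (∀ x : ℝ, 0 ≤ (g x).re ∧ (g x).im = 0) ∧
      (ν : Measure ℝ) = volume.withDensity (fun x : ℝ => ENNReal.ofReal (g x).re) ∧
      (∀ u v : ℝ, u < v → 0 < (ν : Measure ℝ) (Set.Ioo u v)) ∧
      ∀ f : ℝ → ℝ, Continuous f → (∃ C : ℝ, ∀ x : ℝ, |f x| ≤ C) →
        Tendsto (fun j => fav (RS j) (fun n => f (Ex ((a:ℝ) * (n:ℝ)^2 + b * n + c)))) atTop (𝓝 (∫ x, f x ∂(ν : Measure ℝ)))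

lemma sum_Icc_range {M : Type*} [AddCommMonoid M] (N : ℕ) (g : ℕ → M) :
    ∑ n ∈ Finset.Icc 1 N, g n = ∑ n ∈ Finset.range N, g (n+1) := by
  rw [Finset.range_eq_Ico, Finset.sum_Ico_add' g 0 N 1]
  apply Finset.sum_congr _ (fun _ _ => rfl)
  ext n; simp only [Finset.mem_Icc, Finset.mem_Ico]; omega

open Classical in
theorem final_gen {Ex : ℝ → ℝ} {af : ℕ → ℝ} {φ : ℝ} {κ : ℕ → ℕ} {X : ℕ → ℝ → ℝ} (hD : Data Ex af φ κ X)
    {k : ℕ} (a : Fin k → ℕ) (b c : Fin k → ℝ) (ha : ∀ i, 0 < a i)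
    (hP : ∀ i, ∀ n : ℕ, 1 ≤ n → 0 < (a i:ℝ) * (n:ℝ)^2 + b i * n + c i) :
    ∃ μ : ProbabilityMeasure (Fin k → ℝ),
      Integrable (fun x : Fin k → ℝ => ∑ i, x i ^ 2) (μ : Measure (Fin k → ℝ)) ∧
      (∀ i, ∃ g : ℂ → ℂ, Differentiable ℂ g ∧ (∀ x : ℝ, 0 ≤ (g x).re ∧ (g x).im = 0) ∧
        (μ : Measure (Fin k → ℝ)).map (fun x => x i) = volume.withDensity (fun x : ℝ => ENNReal.ofReal (g x).re) ∧
        ∀ u v : ℝ, u < v → 0 < (μ : Measure (Fin k → ℝ)) {x | u < x i ∧ x i < v}) ∧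
      (∀ f : (Fin k → ℝ) → ℝ, Continuous f → (∃ C : ℝ, ∀ x, |f x| ≤ C * (1 + ∑ i, x i ^ 2)) →
        Tendsto (fun N : ℕ => (∑ n ∈ Finset.Icc 1 N, f (fun i => Ex ((a i:ℝ) * (n:ℝ)^2 + b i * n + c i))) / N)
          atTop (𝓝 (∫ x, f x ∂(μ : Measure (Fin k → ℝ)))) ∧
        Tendsto (fun N : ℕ => (∑ p ∈ (Finset.Icc 1 N).filter Nat.Prime,
            f (fun i => Ex ((a i:ℝ) * (p:ℝ)^2 + b i * p + c i))) / ((Finset.Icc 1 N).filter Nat.Prime).card)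
          atTop (𝓝 (∫ x, f x ∂(μ : Measure (Fin k → ℝ))))) ∧
      (∀ A : Set (Fin k → ℝ), (μ : Measure (Fin k → ℝ)) (frontier A) = 0 →
        Tendsto (fun N : ℕ => (((Finset.Icc 1 N).filter (fun n : ℕ =>
            (fun i => Ex ((a i:ℝ) * (n:ℝ)^2 + b i * n + c i)) ∈ A)).card : ℝ) / N)
          atTop (𝓝 ((μ : Measure (Fin k → ℝ)).real A)) ∧
        Tendsto (fun N : ℕ => (((Finset.Icc 1 N).filter (fun p : ℕ => p.Prime ∧
            (fun i => Ex ((a i:ℝ) * (p:ℝ)^2 + b i * p + c i)) ∈ A)).card : ℝ) / ((Finset.Icc 1 N).filter Nat.Prime).card)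
          atTop (𝓝 ((μ : Measure (Fin k → ℝ)).real A))) := by
  -- shifted polynomials
  set b' : Fin k → ℝ := fun i => 2 * a i + b i with hb'
  set c' : Fin k → ℝ := fun i => a i + b i + c i with hc'
  have hsh : ∀ i, ∀ n : ℕ, (a i:ℝ) * (n:ℝ)^2 + b' i * n + c' i = (a i:ℝ) * ((n+1 : ℕ):ℝ)^2 + b i * ((n+1 : ℕ):ℝ) + c i := by
    intro i n; simp only [hb', hc']; push_cast; ring
  have hP' : ∀ i, ∀ n : ℕ, 0 < (a i:ℝ) * (n:ℝ)^2 + b' i * n + c' i := by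
    intro i n; rw [hsh]; exact hP i (n+1) (by omega)
  set e : ℕ → Fin k → ℝ := fun n i => Ex ((a i:ℝ) * (n:ℝ)^2 + b' i * n + c' i) with he
  set G : ℕ → Fin k → ℝ := fun n i => Ex ((a i:ℝ) * (n:ℝ)^2 + b i * n + c i) with hG
  have heG : ∀ n, e n = G (n+1) := by
    intro n; funext i; simp only [he, hG]; rw [hsh]
  obtain ⟨μ, hμ1, hμ2⟩ := gen_primes (a := fun _ => af) (φ := fun _ => φ) (κ := fun i => κ (a i)) (X := fun i => X (a i) (b' i)) (e := e)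
    (fun _ => hD.bd) (fun _ => hD.zero) (fun i => hD.pos _ (ha i)) (fun i => hD.ap _ _ _ (ha i) (hP' i))
    (fun i => hD.apq _ _ _ (ha i) (hP' i))
  have hR : ∀ (N : ℕ) (g : ℕ → ℝ), (∑ n ∈ Finset.Icc 1 (N+1), g n) / ((N+1 : ℕ):ℝ) = fav (RS N) (fun n => g (n+1)) := by
    intro N g
    rw [sum_Icc_range]
    unfold fav RS
    rw [Finset.card_range]
  have hPr : ∀ (N : ℕ) (g : ℕ → ℝ), (∑ p ∈ (Finset.Icc 1 (N+2)).filter Nat.Prime, g p) / (((Finset.Icc 1 (N+2)).filter Nat.Prime).card : ℝ) =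
      fav (PS N) (fun n => g (n+1)) := by
    intro N g
    unfold fav
    rw [PS_sum, PS_card]
    unfold PR
    congr 1
    apply Finset.sum_congr rfl
    intro p hp
    rw [Finset.mem_filter, Finset.mem_Icc] at hp
    congr 1
    omega
  refine ⟨μ, hμ1, ?_, ?_, ?_⟩
  · intro i
    obtain ⟨ν, g, g1, g2, g3, g4, g5⟩ := hD.law1 (a i) (b' i) (c' i) (ha i) (hP' i)
    have hm : (μ : Measure (Fin k → ℝ)).map (fun x => x i) = (ν : Measure ℝ) :=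
      marg (S := RS) (e := e) i (fun f hf hC => (hμ2 f hf hC).1) g5
    refine ⟨g, g1, g2, by rw [hm, g3], ?_⟩
    intro u v huv
    have h1 := g4 u v huv
    rw [← hm, Measure.map_apply (measurable_pi_apply i) measurableSet_Ioo] at h1
    exact h1
  · intro f hf hC
    obtain ⟨h1, h2⟩ := hμ2 f hf hC
    constructor
    · rw [← tendsto_add_atTop_iff_nat 1]
      refine h1.congr (fun N => ?_)
      rw [hR]
      congr 1
      funext n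
      rw [heG]
    · rw [← tendsto_add_atTop_iff_nat 2]
      refine h2.congr (fun N => ?_)
      rw [hPr]
      congr 1
      funext n
      rw [heG]
  · intro A hA
    have h1 := portm RS_ne (e := e) (fun f hf hC => (hμ2 f hf hC).1) hA
    have h2 := portm PS_ne (e := e) (fun f hf hC => (hμ2 f hf hC).2) hA
    have hcnt : ∀ (S : Finset ℕ) (Q : ℕ → Prop) [DecidablePred Q], ((S.filter Q).card : ℝ) = ∑ n ∈ S, if Q n then (1:ℝ) else 0 := by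
      intro S Q _
      rw [← Finset.sum_filter, Finset.sum_const, nsmul_eq_mul, mul_one]
    constructor
    · rw [← tendsto_add_atTop_iff_nat 1]
      refine h1.congr (fun N => ?_)
      rw [hcnt, hcnt, hR]
      unfold fav
      congr 1
      apply Finset.sum_congr rfl
      intro n _
      rw [heG]
    · rw [← tendsto_add_atTop_iff_nat 2]
      refine h2.congr (fun N => ?_)
      rw [← Finset.filter_filter, hcnt, hcnt, hPr]
      unfold fav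
      congr 1
      apply Finset.sum_congr rfl
      intro n _
      rw [heG]

end Pool.Agent.H425R3.JL
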