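import Mathlib
import Pool.Agent.H425R3.JL.F2
import Pool.Agent.H452R2.Win.V8

open Filter Topology MeasureTheory
open Pool.Agent.H387R2.Vor
open Pool.Agent.H383.AP
open Pool.Agent.H383.Gen

namespace Pool.Agent.H425R3.JL

open Pool.Agent.H383 Pool.Agent.H452R2.Win

/-- the normalised error term of the circle problem -/
noncomputable def Ec (x : ℝ) : ℝ :=
  ((Nat.card {p : ℤ × ℤ // (p.1 : ℝ) ^ 2 + (p.2 : ℝ) ^ 2 ≤ x} : ℝ) - Real.pi * x) / x ^ (1/4 : ℝ)

/-- the normalised error term of the divisor problem -/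
noncomputable def Edv (x : ℝ) : ℝ :=
  ((∑ j ∈ Finset.Icc 1 ⌊x⌋₊, (j.divisors.card : ℝ)) - x * Real.log x
    - (2 * Real.eulerMascheroniConstant - 1) * x) / x ^ (1/4 : ℝ)

open Pool.Agent.H383.Gauss Pool.Agent.H383.Circ in
lemma Ec_eq {x : ℝ} (hx : 0 ≤ x) : En √x = Ec x := by
  rw [En_quad hx]; rfl

open Pool.Agent.H383.Div in
lemma Edv_eq {x : ℝ} (hx : 0 ≤ x) : Ed √x = Edv x := by
  rw [Ed_quad hx]; rfl

open Pool.Agent.H383.Gauss Pool.Agent.H383.Circ in
theorem circ_data : Data Ec ag (3 * Real.pi/4) (fun a => a) (fun a b => b / (2 * √(a:ℝ))) where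
  bd := ag_Bd
  zero := ag_zero
  pos := fun a h => h
  ap := by
    intro a b c ha hP
    have ha' : (0:ℝ) < a := by exact_mod_cast ha
    obtain ⟨C0, hC0, hS⟩ := En_SandW.sand
    have key := GW.ap_of (E := En) ag_Bd ag_zero wg_Wt hC0 hS (Real.sqrt_pos.mpr ha') (b / (2 * √(a:ℝ)))
      (Rn := fun n : ℕ => √((a:ℝ) * (n:ℝ)^2 + b * n + c)) (Pool.Agent.H383.Div.sqrt_quad ha' (fun n => (hP n).le))
    have e : (fun n : ℕ => En (√((a:ℝ) * (n:ℝ)^2 + b * n + c))) = fun n : ℕ => Ec ((a:ℝ) * (n:ℝ)^2 + b * n + c) := by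
      funext n; exact Ec_eq (hP n).le
    rw [e] at key
    exact key
  apq := by
    intro a b c ha hP
    have ha' : (0:ℝ) < a := by exact_mod_cast ha
    obtain ⟨C0, hC0, hS⟩ := En_SandW.sand
    have key := ap_q (E := En) ag_Bd ag_zero wg_Wt hC0 hS (Real.sqrt_pos.mpr ha') (b / (2 * √(a:ℝ)))
      (Rn := fun n : ℕ => √((a:ℝ) * (n:ℝ)^2 + b * n + c)) (Pool.Agent.H383.Div.sqrt_quad ha' (fun n => (hP n).le))
    obtain ⟨C, hC, N0, h⟩ := key
    refine ⟨C, hC, N0, fun N hN M hM hMN => ?_⟩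
    have := h N hN M hM hMN
    simp only [fun n : ℕ => Ec_eq (hP n).le] at this
    exact this
  law1 := by
    intro a b c ha hP
    have ha' : (0:ℝ) < a := by exact_mod_cast ha
    obtain ⟨ν, g, h1, h2, h3, h4, h5, h6, -⟩ := Pool.Agent.H383.Circ.distr3 ha' hP
    refine ⟨ν, g, h1, h2, h3, h4, fun f hf hC => ?_⟩
    obtain ⟨C, hC⟩ := hC
    have h7 := h6 f hf ⟨C, fun x => by
      have := hC x
      have h8 : 0 ≤ C := (abs_nonneg _).trans this
      nlinarith [sq_nonneg x]⟩ 1 one_pos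
    rw [Metric.tendsto_atTop]
    intro η hη
    obtain ⟨N0, h8⟩ := h7 (η/2) (by positivity)
    refine ⟨N0, fun j hj => ?_⟩
    have h9 := h8 (j+1) (by omega) 0 (by
      rw [Nat.cast_zero, Real.zero_rpow (by norm_num)]; exact Nat.cast_nonneg _)
    rw [Real.dist_eq]
    refine lt_of_le_of_lt (le_of_eq ?_) (lt_of_le_of_lt h9 (by linarith))
    congr 2
    unfold fav RS
    rw [Finset.card_range, Nat.zero_add, ← Finset.range_eq_Ico]
    rfl

open Pool.Agent.H383.Div in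
theorem div_data : Data Edv ad (Real.pi/4) (fun a => 4 * a) (fun a b => b / √(a:ℝ)) where
  bd := ad_Bd
  zero := ad_zero
  pos := fun a h => by omega
  ap := by
    intro a b c ha hP
    have ha' : (0:ℝ) < a := by exact_mod_cast ha
    have hsa : 0 < √(a:ℝ) := Real.sqrt_pos.mpr ha'
    obtain ⟨C0, hC0, hS⟩ := (E2_SandW vor).sand
    obtain ⟨C₁, hC₁⟩ := sqrt_quad ha' (fun n => (hP n).le)
    have key := GW.ap_of (E := E2) ad_Bd ad_zero wd_Wt hC0 hS (α := 2 * √(a:ℝ)) (by positivity) (b / √(a:ℝ))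
      (Rn := fun n : ℕ => 2 * √((a:ℝ) * (n:ℝ)^2 + b * n + c)) ⟨2 * C₁, by
        intro n
        have h1 := hC₁ n
        have e : 2 * √((a:ℝ) * (n:ℝ)^2 + b * n + c) - (b / √(a:ℝ) + n * (2 * √(a:ℝ))) =
            2 * (√((a:ℝ) * (n:ℝ)^2 + b * n + c) - (b / (2 * √(a:ℝ)) + n * √(a:ℝ))) := by field_simp
        rw [e, abs_mul, abs_of_pos (by norm_num : (0:ℝ) < 2), mul_div_assoc]
        exact mul_le_mul_of_nonneg_left h1 (by norm_num)⟩
    have e : (fun n : ℕ => E2 (2 * √((a:ℝ) * (n:ℝ)^2 + b * n + c))) = fun n : ℕ => Edv ((a:ℝ) * (n:ℝ)^2 + b * n + c) := by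
      funext n
      unfold E2
      rw [← Edv_eq (hP n).le]
      congr 1
      ring
    rw [e] at key
    have e2 : √((4 * a : ℕ):ℝ) = 2 * √(a:ℝ) := by
      push_cast
      rw [Real.sqrt_mul (by norm_num), show (4:ℝ) = 2^2 by norm_num, Real.sqrt_sq (by norm_num)]
    rw [e2]
    exact key
  apq := by
    intro a b c ha hP
    have ha' : (0:ℝ) < a := by exact_mod_cast ha
    have hsa : 0 < √(a:ℝ) := Real.sqrt_pos.mpr ha'
    obtain ⟨C0, hC0, hS⟩ := (E2_SandW vor).sand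
    obtain ⟨C₁, hC₁⟩ := sqrt_quad ha' (fun n => (hP n).le)
    have key := ap_q (E := E2) ad_Bd ad_zero wd_Wt hC0 hS (α := 2 * √(a:ℝ)) (by positivity) (b / √(a:ℝ))
      (Rn := fun n : ℕ => 2 * √((a:ℝ) * (n:ℝ)^2 + b * n + c)) ⟨2 * C₁, by
        intro n
        have h1 := hC₁ n
        have e : 2 * √((a:ℝ) * (n:ℝ)^2 + b * n + c) - (b / √(a:ℝ) + n * (2 * √(a:ℝ))) =
            2 * (√((a:ℝ) * (n:ℝ)^2 + b * n + c) - (b / (2 * √(a:ℝ)) + n * √(a:ℝ))) := by field_simp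
        rw [e, abs_mul, abs_of_pos (by norm_num : (0:ℝ) < 2), mul_div_assoc]
        exact mul_le_mul_of_nonneg_left h1 (by norm_num)⟩
    obtain ⟨C, hC, N0, h⟩ := key
    have e2 : √((4 * a : ℕ):ℝ) = 2 * √(a:ℝ) := by
      push_cast
      rw [Real.sqrt_mul (by norm_num), show (4:ℝ) = 2^2 by norm_num, Real.sqrt_sq (by norm_num)]
    refine ⟨C, hC, N0, fun N hN M hM hMN => ?_⟩
    have := h N hN M hM hMN
    rw [e2]
    have e : ∀ n : ℕ, E2 (2 * √((a:ℝ) * (n:ℝ)^2 + b * n + c)) = Edv ((a:ℝ) * (n:ℝ)^2 + b * n + c) := by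
      intro n
      unfold E2
      rw [← Edv_eq (hP n).le]
      congr 1
      ring
    simp only [e] at this
    exact this
  law1 := by
    intro a b c ha hP
    have ha' : (0:ℝ) < a := by exact_mod_cast ha
    obtain ⟨ν, g, h1, h2, h3, h4, h5, h6, -⟩ := Pool.Agent.H383.Div.distr3 vor ha' hP
    refine ⟨ν, g, h1, h2, h3, h4, fun f hf hC => ?_⟩
    obtain ⟨C, hC⟩ := hC
    have h7 := h6 f hf ⟨C, fun x => by
      have := hC x
      have h8 : 0 ≤ C := (abs_nonneg _).trans this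
      nlinarith [sq_nonneg x]⟩ 1 one_pos
    rw [Metric.tendsto_atTop]
    intro η hη
    obtain ⟨N0, h8⟩ := h7 (η/2) (by positivity)
    refine ⟨N0, fun j hj => ?_⟩
    have h9 := h8 (j+1) (by omega) 0 (by
      rw [Nat.cast_zero, Real.zero_rpow (by norm_num)]; exact Nat.cast_nonneg _)
    rw [Real.dist_eq]
    refine lt_of_le_of_lt (le_of_eq ?_) (lt_of_le_of_lt h9 (by linarith))
    congr 2
    unfold fav RS
    rw [Finset.card_range, Nat.zero_add, ← Finset.range_eq_Ico]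
    rfl

end Pool.Agent.H425R3.JL
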