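import Mathlib
import Pool.Agent.H425R3.JL.F1

open Filter Topology
open Pool.Agent.H383.AP

namespace Pool.Agent.H425R3.JL

/-- multiplicative functions with values in the closed unit disc -/
def MF (g : ℕ → ℂ) : Prop := (∀ n, ‖g n‖ ≤ 1) ∧ ∀ m n, Nat.Coprime m n → g (m * n) = g m * g n

/-- the number of prime divisors in `P` -/
noncomputable def om (P : Finset ℕ) (n : ℕ) : ℝ := ∑ p ∈ P, if p ∣ n then (1:ℝ) else 0

lemma cnt_dvd (N d : ℕ) : ∑ n ∈ Finset.Ioc 0 N, (if d ∣ n then (1:ℝ) else 0) = ((N / d : ℕ) : ℝ) := by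
  rw [← Finset.sum_filter, Finset.sum_const, nsmul_eq_mul, mul_one, Nat.Ioc_filter_dvd_card_eq_div]

/-- the Turán–Kubilius inequality for a finite set of primes -/
lemma TK (P : Finset ℕ) (hP : ∀ p ∈ P, p.Prime) (N : ℕ) {A : ℝ} (hA : A = ∑ p ∈ P, (1:ℝ) / p) :
    ∑ n ∈ Finset.Ioc 0 N, (om P n - A)^2 ≤ N * A + 2 * A * P.card := by
  have hA0 : 0 ≤ A := by rw [hA]; exact Finset.sum_nonneg (fun p _ => by positivity)
  have h1 : ∑ n ∈ Finset.Ioc 0 N, (om P n)^2 ≤ N * A^2 + N * A := by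
    have e1 : ∑ n ∈ Finset.Ioc 0 N, (om P n)^2 = ∑ p ∈ P, ∑ q ∈ P, ∑ n ∈ Finset.Ioc 0 N, (if p ∣ n then (1:ℝ) else 0) * (if q ∣ n then (1:ℝ) else 0) := by
      unfold om
      simp only [sq, Finset.sum_mul_sum]
      rw [Finset.sum_comm]
      apply Finset.sum_congr rfl
      intro p _
      rw [Finset.sum_comm]
    rw [e1]
    have h2 : ∀ p ∈ P, ∀ q ∈ P, ∑ n ∈ Finset.Ioc 0 N, (if p ∣ n then (1:ℝ) else 0) * (if q ∣ n then (1:ℝ) else 0) ≤
        N * ((1:ℝ)/p * (1/q)) + (if p = q then N * ((1:ℝ)/p) else 0) := by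
      intro p hp q hq
      have hp0 : (0:ℝ) < p := by exact_mod_cast (hP p hp).pos
      have hq0 : (0:ℝ) < q := by exact_mod_cast (hP q hq).pos
      by_cases hpq : p = q
      · subst hpq
        rw [if_pos rfl]
        have h3 : ∑ n ∈ Finset.Ioc 0 N, (if p ∣ n then (1:ℝ) else 0) * (if p ∣ n then (1:ℝ) else 0) = ((N / p : ℕ) : ℝ) := by
          rw [← cnt_dvd]
          apply Finset.sum_congr rfl
          intro n _
          split_ifs <;> simp
        rw [h3]
        have h4 : ((N / p : ℕ) : ℝ) ≤ N * ((1:ℝ)/p) := by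
          rw [mul_one_div]; exact Nat.cast_div_le
        have : 0 ≤ (N:ℝ) * ((1:ℝ)/p * (1/p)) := by positivity
        linarith
      · rw [if_neg hpq, add_zero]
        have h3 : ∑ n ∈ Finset.Ioc 0 N, (if p ∣ n then (1:ℝ) else 0) * (if q ∣ n then (1:ℝ) else 0) = ((N / (p * q) : ℕ) : ℝ) := by
          rw [← cnt_dvd]
          apply Finset.sum_congr rfl
          intro n _
          have hc : Nat.Coprime p q := (Nat.coprime_primes (hP p hp) (hP q hq)).mpr hpq
          by_cases h : p ∣ n ∧ q ∣ n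
          · rw [if_pos h.1, if_pos h.2, if_pos (hc.mul_dvd_of_dvd_of_dvd h.1 h.2), one_mul]
          · have : ¬ p * q ∣ n := fun hh => h ⟨(Dvd.intro _ rfl).trans hh, (Dvd.intro_left _ rfl).trans hh⟩
            rw [if_neg this]
            by_cases hp' : p ∣ n
            · rw [if_neg (fun hh => h ⟨hp', hh⟩), mul_zero]
            · rw [if_neg hp', zero_mul]
        rw [h3]
        have h4 : ((N / (p * q) : ℕ) : ℝ) ≤ N / ((p * q : ℕ):ℝ) := Nat.cast_div_le
        refine h4.trans (le_of_eq ?_)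
        push_cast; field_simp
    refine (Finset.sum_le_sum (fun p hp => Finset.sum_le_sum (fun q hq => h2 p hp q hq))).trans (le_of_eq ?_)
    simp only [Finset.sum_add_distrib]
    congr 1
    · rw [hA, sq, Finset.sum_mul_sum]
      simp only [Finset.mul_sum]
    · rw [hA, Finset.mul_sum]
      apply Finset.sum_congr rfl
      intro p hp
      rw [Finset.sum_ite_eq, if_pos hp]
  have h2 : N * A - P.card ≤ ∑ n ∈ Finset.Ioc 0 N, om P n := by
    unfold om
    rw [Finset.sum_comm]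
    simp only [cnt_dvd]
    have : ∀ p ∈ P, (N:ℝ) * (1/p) - 1 ≤ ((N / p : ℕ) : ℝ) := by
      intro p hp
      have hp0 : (0:ℝ) < p := by exact_mod_cast (hP p hp).pos
      have h3 := Nat.lt_div_mul_add (a := N) (b := p) (hP p hp).pos
      have h4 : (N:ℝ) < ((N / p : ℕ):ℝ) * p + p := by exact_mod_cast h3
      rw [mul_one_div, sub_le_iff_le_add, div_le_iff₀ hp0]
      linarith
    refine le_trans (le_of_eq ?_) (Finset.sum_le_sum this)
    rw [Finset.sum_sub_distrib, ← Finset.mul_sum, ← hA]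
    simp
  have e : ∑ n ∈ Finset.Ioc 0 N, (om P n - A)^2 = ∑ n ∈ Finset.Ioc 0 N, (om P n)^2 - 2 * A * ∑ n ∈ Finset.Ioc 0 N, om P n + N * A^2 := by
    have : ∀ n, (om P n - A)^2 = (om P n)^2 - 2 * A * om P n + A^2 := fun n => by ring
    simp only [this, Finset.sum_add_distrib, Finset.sum_sub_distrib, ← Finset.mul_sum, Finset.sum_const, Nat.card_Ioc, nsmul_eq_mul, Nat.sub_zero]
  rw [e]
  nlinarith [mul_le_mul_of_nonneg_left h2 hA0]

/-- geometric sums are bounded -/
lemma geom_bdd {ξ : ℝ} (h : Irrational ξ) : ∃ B : ℝ, 0 ≤ B ∧ ∀ K : ℕ, ‖∑ m ∈ Finset.Ioc 0 K, chr ξ m‖ ≤ B := by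
  set z : ℂ := chr ξ 1 with hz
  have hzn : ∀ m : ℕ, chr ξ m = z^m := by
    intro m
    rw [hz]; unfold chr
    rw [← Complex.exp_nat_mul]
    congr 1
    push_cast; ring
  have hz1 : z ≠ 1 := by
    intro h1
    rw [hz] at h1
    unfold chr at h1
    rw [Complex.exp_eq_one_iff] at h1
    obtain ⟨n, hn⟩ := h1
    have h2 : ((2 * Real.pi * (((1:ℕ):ℝ) * ξ) : ℝ) : ℂ) * Complex.I = ((2 * Real.pi * n : ℝ) : ℂ) * Complex.I := by
      rw [hn]; push_cast; ring
    have h3 := mul_right_cancel₀ Complex.I_ne_zero h2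
    have h4 : 2 * Real.pi * (((1:ℕ):ℝ) * ξ) = 2 * Real.pi * n := by exact_mod_cast h3
    have h5 := mul_left_cancel₀ (by positivity : 2 * Real.pi ≠ 0) h4
    apply h
    exact ⟨n, by rw [Nat.cast_one, one_mul] at h5; rw [h5]; push_cast; rfl⟩
  have hz2 : 0 < ‖z - 1‖ := norm_pos_iff.mpr (sub_ne_zero.mpr hz1)
  have hzn1 : ‖z‖ = 1 := by rw [hz]; exact norm_chr ξ 1
  refine ⟨2 / ‖z - 1‖, by positivity, fun K => ?_⟩
  have h1 : ∑ m ∈ Finset.Ioc 0 K, chr ξ m = z * ∑ m ∈ Finset.range K, z^m := by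
    rw [Finset.mul_sum, Finset.range_eq_Ico, show Finset.Ioc 0 K = Finset.Ico (0+1) (K+1) by
      ext n; simp only [Finset.mem_Ioc, Finset.mem_Ico]; omega, ← Finset.sum_Ico_add' (fun m => chr ξ m) 0 K 1]
    apply Finset.sum_congr rfl
    intro m _
    rw [hzn, pow_succ, mul_comm]
  rw [h1, norm_mul, hzn1, one_mul, geom_sum_eq hz1, norm_div]
  apply div_le_div_of_nonneg_right _ hz2.le
  refine (norm_sub_le _ _).trans ?_
  rw [norm_pow, hzn1, one_pow, norm_one]; norm_num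

/-- bilinear sums over multiples -/
lemma dvd_sum (N : ℕ) {p : ℕ} (hp : 0 < p) (G : ℕ → ℂ) :
    ∑ n ∈ Finset.Ioc 0 N, (if p ∣ n then G n else 0) = ∑ m ∈ Finset.Ioc 0 N, if p * m ≤ N then G (p * m) else 0 := by
  rw [← Finset.sum_filter, ← Finset.sum_filter]
  symm
  apply Finset.sum_nbij (fun m => p * m)
  · intro m hm
    rw [Finset.mem_filter, Finset.mem_Ioc] at hm
    rw [Finset.mem_filter, Finset.mem_Ioc]
    exact ⟨⟨Nat.mul_pos hp hm.1.1, hm.2⟩, Dvd.intro _ rfl⟩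
  · intro a _ b _ h
    exact Nat.eq_of_mul_eq_mul_left hp h
  · intro n hn
    rw [Finset.mem_coe, Finset.mem_filter, Finset.mem_Ioc] at hn
    obtain ⟨⟨h1, h2⟩, m, rfl⟩ := hn
    refine ⟨m, ?_, rfl⟩
    rw [Finset.mem_coe, Finset.mem_filter, Finset.mem_Ioc]
    refine ⟨⟨?_, ?_⟩, h2⟩
    · exact Nat.pos_of_ne_zero (by rintro rfl; simp at h1)
    · exact (Nat.le_mul_of_pos_left m hp).trans h2
  · intro m _; rfl

lemma sum_le_sqrt (N : ℕ) (x : ℕ → ℝ) (hx : ∀ n, 0 ≤ x n) {Y : ℝ} (hY : ∑ n ∈ Finset.Ioc 0 N, (x n)^2 ≤ Y) :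
    ∑ n ∈ Finset.Ioc 0 N, x n ≤ √(N * Y) := by
  apply Real.le_sqrt_of_sq_le
  have h := sq_sum_le_card_mul_sum_sq (s := Finset.Ioc 0 N) (f := x)
  rw [Nat.card_Ioc, Nat.sub_zero] at h
  refine h.trans ?_
  gcongr

/-- the basic inequality of Daboussi, Delange and Kátai -/
lemma katai {θ : ℝ} (hθ : Irrational θ) (P : Finset ℕ) (hP : ∀ p ∈ P, p.Prime) {A : ℝ} (hA : A = ∑ p ∈ P, (1:ℝ) / p) :
    ∃ B : ℝ, 0 ≤ B ∧ ∀ N : ℕ, ∀ g : ℕ → ℂ, MF g →
      A * ‖∑ n ∈ Finset.Ioc 0 N, g n * chr θ n‖ ≤ √(N * (N * A + 2 * A * P.card)) + 2 * N * ∑ p ∈ P, (1:ℝ)/p^2 + √(N * (N * A + B)) := by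
  classical
  have hA0 : 0 ≤ A := by rw [hA]; exact Finset.sum_nonneg (fun p _ => by positivity)
  -- bounds for the off-diagonal terms
  have hB : ∀ p q : ℕ, ∃ B : ℝ, 0 ≤ B ∧ (p ≠ q → ∀ K : ℕ, ‖∑ m ∈ Finset.Ioc 0 K, chr (p * θ - q * θ) m‖ ≤ B) := by
    intro p q
    by_cases hpq : p = q
    · exact ⟨0, le_rfl, fun h => absurd hpq h⟩
    · have hirr : Irrational ((p:ℝ) * θ - q * θ) := by
        have : (p:ℝ) * θ - q * θ = ((p - q : ℤ) : ℝ) * θ := by push_cast; ring
        rw [this]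
        exact hθ.intCast_mul (sub_ne_zero.mpr (by exact_mod_cast hpq))
      obtain ⟨B, hB0, hB⟩ := geom_bdd hirr
      exact ⟨B, hB0, fun _ => hB⟩
  choose B hB0 hB using hB
  refine ⟨∑ p ∈ P, ∑ q ∈ P, B p q, Finset.sum_nonneg (fun p _ => Finset.sum_nonneg (fun q _ => hB0 p q)), ?_⟩
  intro N g hg
  obtain ⟨hg1, hg2⟩ := hg
  set F := chr θ with hF
  have hFn : ∀ n, ‖F n‖ = 1 := fun n => norm_chr θ n
  set S := ∑ n ∈ Finset.Ioc 0 N, g n * F n with hS
  set S1 := ∑ n ∈ Finset.Ioc 0 N, ((om P n : ℝ) : ℂ) * (g n * F n) with hS1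
  -- step 1
  have s1 : ‖(A:ℂ) * S - S1‖ ≤ √(N * (N * A + 2 * A * P.card)) := by
    have h1 : (A:ℂ) * S - S1 = ∑ n ∈ Finset.Ioc 0 N, ((A - om P n : ℝ) : ℂ) * (g n * F n) := by
      rw [hS, hS1, Finset.mul_sum, ← Finset.sum_sub_distrib]
      apply Finset.sum_congr rfl
      intro n _
      push_cast; ring
    rw [h1]
    refine (norm_sum_le _ _).trans ?_
    have h2 : ∀ n ∈ Finset.Ioc 0 N, ‖((A - om P n : ℝ) : ℂ) * (g n * F n)‖ ≤ |om P n - A| := by
      intro n _
      rw [norm_mul, Complex.norm_real, Real.norm_eq_abs, norm_mul, hFn, mul_one, abs_sub_comm]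
      exact mul_le_of_le_one_right (abs_nonneg _) (hg1 n)
    refine (Finset.sum_le_sum h2).trans ?_
    apply sum_le_sqrt N (fun n => |om P n - A|) (fun n => abs_nonneg _)
    simp only [sq_abs]
    exact TK P hP N hA
  -- step 2
  set S2 := ∑ p ∈ P, ∑ m ∈ Finset.Ioc 0 N, (if p * m ≤ N then g p * g m * F (p * m) else 0) with hS2
  have s2 : ‖S1 - S2‖ ≤ 2 * N * ∑ p ∈ P, (1:ℝ)/p^2 := by
    have h1 : S1 = ∑ p ∈ P, ∑ m ∈ Finset.Ioc 0 N, (if p * m ≤ N then g (p * m) * F (p * m) else 0) := by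
      rw [hS1]
      unfold om
      have h2 : ∀ n, (((∑ p ∈ P, if p ∣ n then (1:ℝ) else 0 : ℝ)) : ℂ) * (g n * F n) = ∑ p ∈ P, if p ∣ n then g n * F n else 0 := by
        intro n
        push_cast
        rw [Finset.sum_mul]
        apply Finset.sum_congr rfl
        intro p _
        split_ifs <;> simp
      simp only [h2]
      rw [Finset.sum_comm]
      apply Finset.sum_congr rfl
      intro p hp
      exact dvd_sum N (hP p hp).pos (fun n => g n * F n)
    rw [h1, hS2, ← Finset.sum_sub_distrib]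
    refine (norm_sum_le _ _).trans ?_
    rw [Finset.mul_sum]
    apply Finset.sum_le_sum
    intro p hp
    have hp0 : (0:ℝ) < p := by exact_mod_cast (hP p hp).pos
    rw [← Finset.sum_sub_distrib]
    refine (norm_sum_le _ _).trans ?_
    have h3 : ∀ m ∈ Finset.Ioc 0 N, ‖(if p * m ≤ N then g (p * m) * F (p * m) else 0) - (if p * m ≤ N then g p * g m * F (p * m) else 0)‖ ≤
        2 * (if p ∣ m ∧ p * m ≤ N then 1 else 0) := by
      intro m _
      by_cases h4 : p * m ≤ N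
      · rw [if_pos h4, if_pos h4]
        by_cases h5 : p ∣ m
        · rw [if_pos ⟨h5, h4⟩, ← sub_mul, norm_mul, hFn, mul_one]
          refine (norm_sub_le _ _).trans ?_
          rw [norm_mul]
          have := hg1 (p * m)
          have := mul_le_one₀ (hg1 p) (norm_nonneg _) (hg1 m)
          linarith
        · have hc : Nat.Coprime p m := (Nat.Prime.coprime_iff_not_dvd (hP p hp)).mpr h5
          rw [hg2 p m hc, sub_self, norm_zero]
          split_ifs <;> norm_num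
      · rw [if_neg h4, if_neg h4, sub_self, norm_zero]
        split_ifs <;> norm_num
    refine (Finset.sum_le_sum h3).trans ?_
    rw [← Finset.mul_sum]
    have h4 : ∑ m ∈ Finset.Ioc 0 N, (if p ∣ m ∧ p * m ≤ N then (1:ℝ) else 0) ≤ N * ((1:ℝ)/p^2) := by
      have h5 : ∑ m ∈ Finset.Ioc 0 N, (if p ∣ m ∧ p * m ≤ N then (1:ℝ) else 0) ≤ ∑ m ∈ Finset.Ioc 0 (N/p), (if p ∣ m then (1:ℝ) else 0) := by
        rw [← Finset.sum_filter, ← Finset.sum_filter]
        apply Finset.sum_le_sum_of_subset_of_nonneg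
        · intro m hm
          rw [Finset.mem_filter, Finset.mem_Ioc] at hm ⊢
          refine ⟨⟨hm.1.1, ?_⟩, hm.2.1⟩
          rw [Nat.le_div_iff_mul_le (hP p hp).pos, mul_comm]
          exact hm.2.2
        · intro _ _ _; norm_num
      refine h5.trans ?_
      rw [cnt_dvd]
      have h6 : ((N / p / p : ℕ) : ℝ) ≤ ((N / p : ℕ):ℝ) / p := Nat.cast_div_le
      have h7 : ((N / p : ℕ):ℝ) ≤ (N:ℝ) / p := Nat.cast_div_le
      calc ((N / p / p : ℕ) : ℝ) ≤ ((N / p : ℕ):ℝ) / p := h6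
        _ ≤ ((N:ℝ) / p) / p := by gcongr
        _ = _ := by rw [sq]; field_simp
    linarith
  -- step 3
  have s3 : ‖S2‖ ≤ √(N * (N * A + ∑ p ∈ P, ∑ q ∈ P, B p q)) := by
    set D : ℕ → ℂ := fun m => ∑ p ∈ P, if p * m ≤ N then g p * F (p * m) else 0 with hD
    have h1 : S2 = ∑ m ∈ Finset.Ioc 0 N, g m * D m := by
      rw [hS2, Finset.sum_comm]
      apply Finset.sum_congr rfl
      intro m _
      rw [hD, Finset.mul_sum]
      apply Finset.sum_congr rfl
      intro p _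
      split_ifs
      · ring
      · simp
    rw [h1]
    refine (norm_sum_le _ _).trans ?_
    have h2 : ∀ m ∈ Finset.Ioc 0 N, ‖g m * D m‖ ≤ ‖D m‖ := by
      intro m _
      rw [norm_mul]
      exact mul_le_of_le_one_left (norm_nonneg _) (hg1 m)
    refine (Finset.sum_le_sum h2).trans ?_
    apply sum_le_sqrt N (fun m => ‖D m‖) (fun m => norm_nonneg _)
    -- the sum of squares
    have h3 : ∀ m, ((‖D m‖ : ℝ) : ℂ)^2 = ∑ p ∈ P, ∑ q ∈ P, (if p * m ≤ N then g p * F (p * m) else 0) *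
        (starRingEnd ℂ) (if q * m ≤ N then g q * F (q * m) else 0) := by
      intro m
      rw [← Complex.mul_conj', hD, map_sum, Finset.sum_mul_sum]
    have h4 : ((∑ m ∈ Finset.Ioc 0 N, ‖D m‖^2 : ℝ) : ℂ) = ∑ p ∈ P, ∑ q ∈ P, ∑ m ∈ Finset.Ioc 0 N,
        (if p * m ≤ N then g p * F (p * m) else 0) * (starRingEnd ℂ) (if q * m ≤ N then g q * F (q * m) else 0) := by
      rw [Complex.ofReal_sum]
      simp only [Complex.ofReal_pow, h3]
      rw [Finset.sum_comm]
      apply Finset.sum_congr rfl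
      intro p _
      rw [Finset.sum_comm]
    have h5 : ∑ m ∈ Finset.Ioc 0 N, ‖D m‖^2 = ‖((∑ m ∈ Finset.Ioc 0 N, ‖D m‖^2 : ℝ) : ℂ)‖ := by
      rw [Complex.norm_real, Real.norm_of_nonneg]
      exact Finset.sum_nonneg (fun m _ => by positivity)
    rw [h5, h4]
    refine (norm_sum_le _ _).trans ?_
    have h6 : ∀ p ∈ P, ∀ q ∈ P, ‖∑ m ∈ Finset.Ioc 0 N,
        (if p * m ≤ N then g p * F (p * m) else 0) * (starRingEnd ℂ) (if q * m ≤ N then g q * F (q * m) else 0)‖ ≤
        (if p = q then N * ((1:ℝ)/p) else 0) + B p q := by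
      intro p hp q hq
      have hp0 : (0:ℝ) < p := by exact_mod_cast (hP p hp).pos
      by_cases hpq : p = q
      · subst hpq
        rw [if_pos rfl]
        refine (norm_sum_le _ _).trans ?_
        have h7 : ∀ m ∈ Finset.Ioc 0 N, ‖(if p * m ≤ N then g p * F (p * m) else 0) * (starRingEnd ℂ) (if p * m ≤ N then g p * F (p * m) else 0)‖ ≤
            (if p * m ≤ N then (1:ℝ) else 0) := by
          intro m _
          split_ifs with h8
          · rw [norm_mul, RCLike.norm_conj, norm_mul, hFn, mul_one]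
            exact mul_le_one₀ (hg1 p) (norm_nonneg _) (hg1 p)
          · simp
        refine (Finset.sum_le_sum h7).trans ?_
        have h8 := dvd_sum N (hP p hp).pos (fun _ => (1:ℂ))
        have h9 : ∑ m ∈ Finset.Ioc 0 N, (if p * m ≤ N then (1:ℝ) else 0) = ((N / p : ℕ) : ℝ) := by
          rw [← cnt_dvd]
          have := h8.symm
          exact_mod_cast this
        rw [h9]
        have h10 : ((N / p : ℕ) : ℝ) ≤ N * ((1:ℝ)/p) := by rw [mul_one_div]; exact Nat.cast_div_le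
        linarith [hB0 p p]
      · rw [if_neg hpq, zero_add]
        have h7 : ∀ m ∈ Finset.Ioc 0 N, (if p * m ≤ N then g p * F (p * m) else 0) * (starRingEnd ℂ) (if q * m ≤ N then g q * F (q * m) else 0) =
            if m ≤ min (N/p) (N/q) then (g p * (starRingEnd ℂ) (g q)) * chr (p * θ - q * θ) m else 0 := by
          intro m _
          have e1 : p * m ≤ N ↔ m ≤ N / p := by
            rw [Nat.le_div_iff_mul_le (hP p hp).pos, mul_comm]
          have e2 : q * m ≤ N ↔ m ≤ N / q := by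
            rw [Nat.le_div_iff_mul_le (hP q hq).pos, mul_comm]
          by_cases h8 : p * m ≤ N
          · by_cases h9 : q * m ≤ N
            · rw [if_pos h8, if_pos h9, if_pos (le_min (e1.mp h8) (e2.mp h9)), map_mul]
              have h10 : F (p * m) * (starRingEnd ℂ) (F (q * m)) = chr (p * θ - q * θ) m := by
                rw [hF, chr_conj]
                unfold chr
                rw [← Complex.exp_add]
                congr 1
                push_cast; ring
              rw [← h10]; ring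
            · have hne : ¬ m ≤ min (N/p) (N/q) := fun hh => h9 (e2.mpr (hh.trans (min_le_right _ _)))
              rw [if_neg h9, if_neg hne, map_zero, mul_zero]
          · have hne : ¬ m ≤ min (N/p) (N/q) := fun hh => h8 (e1.mpr (hh.trans (min_le_left _ _)))
            rw [if_neg h8, if_neg hne, zero_mul]
        rw [Finset.sum_congr rfl h7, ← Finset.sum_filter, ← Finset.mul_sum]
        have h8 : (Finset.Ioc 0 N).filter (fun m => m ≤ min (N/p) (N/q)) = Finset.Ioc 0 (min (N/p) (N/q)) := by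
          ext m
          rw [Finset.mem_filter, Finset.mem_Ioc, Finset.mem_Ioc]
          constructor
          · rintro ⟨h1, h2⟩; exact ⟨h1.1, h2⟩
          · rintro ⟨h1, h2⟩
            exact ⟨⟨h1, h2.trans ((min_le_left _ _).trans (Nat.div_le_self _ _))⟩, h2⟩
        rw [h8, norm_mul, norm_mul, RCLike.norm_conj]
        have h9 := hB p q hpq (min (N/p) (N/q))
        have h10 := mul_le_one₀ (hg1 p) (norm_nonneg _) (hg1 q)
        calc ‖g p‖ * ‖g q‖ * _ ≤ 1 * B p q := mul_le_mul h10 h9 (norm_nonneg _) zero_le_one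
          _ = _ := one_mul _
    refine (Finset.sum_le_sum (fun p hp => (norm_sum_le _ _).trans (Finset.sum_le_sum (fun q hq => h6 p hp q hq)))).trans (le_of_eq ?_)
    simp only [Finset.sum_add_distrib]
    congr 1
    rw [hA, Finset.mul_sum]
    apply Finset.sum_congr rfl
    intro p hp
    rw [Finset.sum_ite_eq, if_pos hp]
  have hfin : ‖(A:ℂ) * S‖ ≤ √(N * (N * A + 2 * A * P.card)) + 2 * N * ∑ p ∈ P, (1:ℝ)/p^2 + √(N * (N * A + ∑ p ∈ P, ∑ q ∈ P, B p q)) := by
    have e : (A:ℂ) * S = ((A:ℂ) * S - S1) + (S1 - S2) + S2 := by ring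
    rw [e]
    refine (norm_add_le _ _).trans ?_
    refine (add_le_add (norm_add_le _ _) le_rfl).trans ?_
    linarith
  rw [norm_mul, Complex.norm_real, Real.norm_of_nonneg hA0] at hfin
  exact hfin

/-- Daboussi's theorem, uniform version -/
theorem daboussi {θ : ℝ} (hθ : Irrational θ) {η : ℝ} (hη : 0 < η) : ∃ N0 : ℕ, ∀ N : ℕ, N0 ≤ N → ∀ g : ℕ → ℂ, MF g →
    ‖∑ n ∈ Finset.Ioc 0 N, g n * chr θ n‖ ≤ η * N := by
  -- the constant
  have hsum2 : Summable (fun n : ℕ => (1:ℝ)/(n:ℝ)^2) := Real.summable_one_div_nat_pow.mpr (by norm_num)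
  set C0 : ℝ := ∑' n : ℕ, (1:ℝ)/(n:ℝ)^2 with hC0
  have hC00 : 0 ≤ C0 := tsum_nonneg (fun n => by positivity)
  -- many primes
  set A0 : ℝ := (16 + 4 * C0) / η + 32 / η^2 + 1 with hA0
  have hdiv : ∃ P : Finset ℕ, (∀ p ∈ P, p.Prime) ∧ A0 ≤ ∑ p ∈ P, (1:ℝ)/p := by
    by_contra hcon
    push Not at hcon
    apply Nat.Primes.not_summable_one_div
    apply summable_of_sum_le (c := A0)
    · intro p; positivity
    · intro u
      have := hcon (u.map ⟨Subtype.val, Subtype.val_injective⟩) (by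
        intro p hp
        rw [Finset.mem_map] at hp
        obtain ⟨q, _, rfl⟩ := hp
        exact q.2)
      rw [Finset.sum_map] at this
      exact this.le
  obtain ⟨P, hP, hPA⟩ := hdiv
  set A : ℝ := ∑ p ∈ P, (1:ℝ)/p with hA
  obtain ⟨B, hB0, hB⟩ := katai hθ P hP hA
  have hA1 : 1 ≤ A := by
    have : 0 ≤ (16 + 4 * C0) / η + 32 / η^2 := by positivity
    linarith
  have hApos : 0 < A := by linarith
  have hCP : ∑ p ∈ P, (1:ℝ)/(p:ℝ)^2 ≤ C0 := hsum2.sum_le_tsum P (fun n _ => by positivity)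
  obtain ⟨N0, hN0⟩ := exists_nat_ge (2 * (P.card : ℝ) + B)
  refine ⟨N0 + 1, fun N hN g hg => ?_⟩
  have hNpos : (0:ℝ) < N := by exact_mod_cast (by omega : 0 < N)
  have hNN : 2 * (P.card : ℝ) + B ≤ N := hN0.trans (by exact_mod_cast (by omega : N0 ≤ N))
  have hPc : (0:ℝ) ≤ P.card := Nat.cast_nonneg _
  have h1 := hB N g hg
  have e1 : √(N * (N * A + 2 * A * P.card)) ≤ N * √(2 * A) := by
    rw [show (N:ℝ) * √(2 * A) = √(N^2 * (2 * A)) by
      rw [Real.sqrt_mul (sq_nonneg (N:ℝ)) (2*A), Real.sqrt_sq hNpos.le]]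
    apply Real.sqrt_le_sqrt
    nlinarith [mul_nonneg hNpos.le hApos.le, mul_nonneg (mul_nonneg hNpos.le hApos.le) hPc]
  have e2 : √(N * (N * A + B)) ≤ N * √(2 * A) := by
    rw [show (N:ℝ) * √(2 * A) = √(N^2 * (2 * A)) by
      rw [Real.sqrt_mul (sq_nonneg (N:ℝ)) (2*A), Real.sqrt_sq hNpos.le]]
    apply Real.sqrt_le_sqrt
    have : B ≤ N * A := by nlinarith
    nlinarith
  have e3 : √(2 * A) ≤ η * A / 4 := by
    rw [Real.sqrt_le_left (by positivity)]
    have h2 : 32 / η^2 ≤ A := by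
      have : 0 ≤ (16 + 4 * C0) / η := by positivity
      linarith
    rw [div_le_iff₀ (by positivity)] at h2
    nlinarith
  have e4 : 2 * C0 ≤ η * A / 2 := by
    have h2 : (16 + 4 * C0) / η ≤ A := by
      have : 0 ≤ 32 / η^2 := by positivity
      linarith
    rw [div_le_iff₀ hη] at h2
    linarith
  have h3 : A * ‖∑ n ∈ Finset.Ioc 0 N, g n * chr θ n‖ ≤ A * (η * N) := by
    calc _ ≤ _ := h1
      _ ≤ N * (η * A / 4) + 2 * N * C0 + N * (η * A / 4) := by
          have a1 := e1.trans (mul_le_mul_of_nonneg_left e3 hNpos.le)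
          have a2 := e2.trans (mul_le_mul_of_nonneg_left e3 hNpos.le)
          have a3 : 2 * N * ∑ p ∈ P, (1:ℝ)/(p:ℝ)^2 ≤ 2 * N * C0 := by gcongr
          linarith
      _ ≤ A * (η * N) := by nlinarith
  exact le_of_mul_le_mul_left h3 hApos

end Pool.Agent.H425R3.JL
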