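import Mathlib
import Pool.Agent.H425R3.JL.C1
import Pool.Agent.H425R3.JL.F3

open Filter Topology MeasureTheory
open Pool.Agent.H383.AP Pool.Agent.H383.Gauss
open Pool.Agent.H383.Gen

namespace Pool.Agent.H425R3.JL

open Pool.Agent.H383

/-- trigonometric polynomials with frequencies in `GI` are, up to their mean, orthogonal to multiplicative functions -/
lemma TG_mult {t : ℕ → ℂ} (ht : t ∈ TG GI) : ∃ L : ℂ,
    (∀ S : ℕ → Finset ℕ, AvOK GI S → Tendsto (fun j => cav (S j) t) atTop (𝓝 L)) ∧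
    ∀ η : ℝ, 0 < η → ∃ N0 : ℕ, ∀ N : ℕ, N0 ≤ N → ∀ g : ℕ → ℂ, MF g →
      ‖∑ n ∈ Finset.range N, g (n+1) * (t n - L)‖ ≤ η * N := by
  unfold TG at ht
  induction ht using Submodule.span_induction with
  | mem x hx =>
    obtain ⟨θ, hθ, rfl⟩ := hx
    refine ⟨mc θ, fun S hS => hS θ hθ, fun η hη => ?_⟩
    rcases GI_int_or_irr hθ with hk | hirr
    · refine ⟨0, fun N _ g hg => ?_⟩
      obtain ⟨k, rfl⟩ := hk
      have h1 : ∀ n : ℕ, chr (k:ℝ) n = 1 := by
        intro n
        unfold chr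
        rw [Complex.exp_eq_one_iff]
        exact ⟨k * n, by push_cast; ring⟩
      have h2 : mc (k:ℝ) = 1 := HasMean.unique (chr_mean _) (chr_mean_int ⟨k, rfl⟩)
      simp only [h1, h2, sub_self, mul_zero, Finset.sum_const_zero, norm_zero]
      positivity
    · obtain ⟨N0, hN0⟩ := daboussi hirr hη
      refine ⟨N0, fun N hN g hg => ?_⟩
      have h0 : mc θ = 0 := HasMean.unique (chr_mean _) (chr_mean_non (fun ⟨k, hk⟩ => hirr ⟨k, by rw [hk]; simp⟩))
      have h1 := hN0 N hN g hg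
      have h2 : ∑ n ∈ Finset.range N, g (n+1) * (chr θ n - mc θ) = chr (-θ) 1 * ∑ n ∈ Finset.Ioc 0 N, g n * chr θ n := by
        have e1 : ∑ n ∈ Finset.Ioc 0 N, g n * chr θ n = ∑ n ∈ Finset.range N, g (n+1) * chr θ (n+1) := by
          rw [← sum_Icc_range N (fun n => g n * chr θ n)]
          rfl
        rw [e1, Finset.mul_sum]
        apply Finset.sum_congr rfl
        intro n _
        rw [h0, sub_zero]
        have e2 : chr θ n = chr (-θ) 1 * chr θ (n+1) := by
          unfold chr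
          rw [← Complex.exp_add]
          congr 1
          push_cast; ring
        rw [e2]; ring
      rw [h2, norm_mul]
      have h3 : ‖chr (-θ) 1‖ = 1 := by
        unfold chr
        rw [Complex.norm_exp_ofReal_mul_I]
      rw [h3, one_mul]
      exact h1
  | zero =>
    refine ⟨0, fun S _ => ?_, fun η hη => ⟨0, fun N _ g _ => ?_⟩⟩
    · have : (fun j => cav (S j) 0) = fun _ => (0:ℂ) := by
        funext j; simp [cav]
      rw [this]; exact tendsto_const_nhds
    · simp only [Pi.zero_apply, sub_self, mul_zero, Finset.sum_const_zero, norm_zero]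
      positivity
  | add x y hx hy ihx ihy =>
    obtain ⟨L1, h1, k1⟩ := ihx
    obtain ⟨L2, h2, k2⟩ := ihy
    refine ⟨L1 + L2, fun S hS => ?_, fun η hη => ?_⟩
    · have := (h1 S hS).add (h2 S hS)
      refine this.congr (fun j => ?_)
      rw [cav_add]
    · obtain ⟨N1, hN1⟩ := k1 (η/2) (by positivity)
      obtain ⟨N2, hN2⟩ := k2 (η/2) (by positivity)
      refine ⟨max N1 N2, fun N hN g hg => ?_⟩
      have a1 := hN1 N ((le_max_left _ _).trans hN) g hg
      have a2 := hN2 N ((le_max_right _ _).trans hN) g hg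
      have e : ∑ n ∈ Finset.range N, g (n+1) * ((x + y) n - (L1 + L2)) =
          ∑ n ∈ Finset.range N, g (n+1) * (x n - L1) + ∑ n ∈ Finset.range N, g (n+1) * (y n - L2) := by
        rw [← Finset.sum_add_distrib]
        apply Finset.sum_congr rfl
        intro n _
        simp only [Pi.add_apply]; ring
      rw [e]
      refine (norm_add_le _ _).trans ?_
      linarith
  | smul c x hx ih =>
    obtain ⟨L1, h1, k1⟩ := ih
    refine ⟨c * L1, fun S hS => ?_, fun η hη => ?_⟩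
    · have := (h1 S hS).const_mul c
      refine this.congr (fun j => ?_)
      rw [cav_smul, smul_eq_mul]
    · obtain ⟨N1, hN1⟩ := k1 (η/(‖c‖+1)) (by positivity)
      refine ⟨N1, fun N hN g hg => ?_⟩
      have a1 := hN1 N hN g hg
      have e : ∑ n ∈ Finset.range N, g (n+1) * ((c • x) n - c * L1) =
          c * ∑ n ∈ Finset.range N, g (n+1) * (x n - L1) := by
        rw [Finset.mul_sum]
        apply Finset.sum_congr rfl
        intro n _
        simp only [Pi.smul_apply, smul_eq_mul]; ring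
      rw [e, norm_mul]
      calc ‖c‖ * ‖∑ n ∈ Finset.range N, g (n+1) * (x n - L1)‖ ≤ (‖c‖ + 1) * (η/(‖c‖+1) * N) := by
            apply mul_le_mul (by linarith) a1 (norm_nonneg _) (by positivity)
        _ = η * N := by field_simp

variable {ι : Type*} [Fintype ι]

/-- orthogonality to multiplicative functions -/
theorem mult_main {U : ℕ → ℕ → ι → ℝ} (hU : ∀ M i, (fun n => ((U M n i : ℝ) : ℂ)) ∈ TG GI)
    {e : ℕ → ι → ℝ} (h : ApU U e RS)
    {f : (ι → ℝ) → ℝ} (hf : Continuous f) (hC : ∃ C : ℝ, ∀ x, |f x| ≤ C * (1 + q x)) {I : ℝ}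
    (hI : Tendsto (fun j => fav (RS j) (fun n => f (e n))) atTop (𝓝 I)) {η : ℝ} (hη : 0 < η) :
    ∃ N0 : ℕ, ∀ N : ℕ, N0 ≤ N → ∀ g : ℕ → ℂ, MF g →
      ‖∑ n ∈ Finset.range N, g (n+1) * ((f (e n) - I : ℝ) : ℂ)‖ ≤ η * N := by
  obtain ⟨t, ht, j0, hj0⟩ := approx hU RS_ne h hf hC (η := η/4) (by positivity)
  obtain ⟨L, hL, hM⟩ := TG_mult ht
  have hLI : ‖(I:ℂ) - L‖ ≤ η/4 := by
    have h1 : Tendsto (fun j => ‖cav (RS j) (fun n => ((f (e n) : ℝ) : ℂ)) - cav (RS j) t‖) atTop (𝓝 ‖(I:ℂ) - L‖) := by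
      apply Tendsto.norm
      apply Tendsto.sub _ (hL RS (AvOK_RS GI))
      simp only [cav_ofReal]
      exact (Complex.continuous_ofReal.tendsto _).comp hI
    apply le_of_tendsto h1
    filter_upwards [eventually_ge_atTop j0] with j hj
    exact (norm_cav_sub_le _ _ _).trans (hj0 j hj)
  obtain ⟨N1, hN1⟩ := hM (η/4) (by positivity)
  refine ⟨max (j0+1) N1, fun N hN g hg => ?_⟩
  have hN2 : j0 + 1 ≤ N := (le_max_left _ _).trans hN
  have a1 := hN1 N ((le_max_right _ _).trans hN) g hg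
  have a2 := hj0 (N-1) (by omega)
  have hNpos : (0:ℝ) < N := by exact_mod_cast (by omega : 0 < N)
  unfold fav RS at a2
  rw [Finset.card_range, show N - 1 + 1 = N by omega, div_le_iff₀ hNpos] at a2
  have e1 : ∑ n ∈ Finset.range N, g (n+1) * ((f (e n) - I : ℝ) : ℂ) =
      ∑ n ∈ Finset.range N, g (n+1) * (((f (e n) : ℝ) : ℂ) - t n) + ∑ n ∈ Finset.range N, g (n+1) * (t n - L)
        - ∑ n ∈ Finset.range N, g (n+1) * ((I:ℂ) - L) := by
    rw [← Finset.sum_add_distrib, ← Finset.sum_sub_distrib]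
    apply Finset.sum_congr rfl
    intro n _
    push_cast; ring
  have a3 : ‖∑ n ∈ Finset.range N, g (n+1) * (((f (e n) : ℝ) : ℂ) - t n)‖ ≤ η/4 * N := by
    refine (norm_sum_le _ _).trans ((Finset.sum_le_sum (fun n _ => ?_)).trans a2)
    rw [norm_mul]
    calc _ ≤ 1 * ‖((f (e n) : ℝ) : ℂ) - t n‖ := mul_le_mul_of_nonneg_right (hg.1 _) (norm_nonneg _)
      _ = _ := one_mul _
  have a4 : ‖∑ n ∈ Finset.range N, g (n+1) * ((I:ℂ) - L)‖ ≤ η/4 * N := by
    refine (norm_sum_le _ _).trans ((Finset.sum_le_sum (g := fun _ => η/4) (fun n _ => ?_)).trans (le_of_eq ?_))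
    · rw [norm_mul]
      calc _ ≤ 1 * (η/4) := mul_le_mul (hg.1 _) hLI (norm_nonneg _) zero_le_one
        _ = _ := one_mul _
    · rw [Finset.sum_const, Finset.card_range, nsmul_eq_mul]; ring
  rw [e1]
  refine (norm_sub_le _ _).trans ?_
  have := norm_add_le (∑ n ∈ Finset.range N, g (n+1) * (((f (e n) : ℝ) : ℂ) - t n)) (∑ n ∈ Finset.range N, g (n+1) * (t n - L))
  nlinarith

/-- the version for sets -/
theorem mult_set {e : ℕ → ι → ℝ} {μ : ProbabilityMeasure (ι → ℝ)}
    (hI : ∀ f : (ι → ℝ) → ℝ, Continuous f → (∃ C : ℝ, ∀ x, |f x| ≤ C * (1 + q x)) →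
      Tendsto (fun j => fav (RS j) (fun n => f (e n))) atTop (𝓝 (∫ x, f x ∂(μ : Measure (ι → ℝ)))))
    (hm : ∀ f : (ι → ℝ) → ℝ, Continuous f → (∃ C : ℝ, ∀ x, |f x| ≤ C * (1 + q x)) → ∀ η : ℝ, 0 < η →
      ∃ N0 : ℕ, ∀ N : ℕ, N0 ≤ N → ∀ g : ℕ → ℂ, MF g →
      ‖∑ n ∈ Finset.range N, g (n+1) * ((f (e n) - ∫ x, f x ∂(μ : Measure (ι → ℝ)) : ℝ) : ℂ)‖ ≤ η * N)
    {A : Set (ι → ℝ)} (hA : (μ : Measure (ι → ℝ)) (frontier A) = 0) [DecidablePred (fun n => e n ∈ A)]
    {η : ℝ} (hη : 0 < η) :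
    ∃ N0 : ℕ, ∀ N : ℕ, N0 ≤ N → ∀ g : ℕ → ℂ, MF g →
      ‖∑ n ∈ Finset.range N, g (n+1) * (((if e n ∈ A then 1 else 0) - (μ : Measure (ι → ℝ)).real A : ℝ) : ℂ)‖ ≤ η * N := by
  -- upper approximations of closed sets
  have key : ∀ F : Set (ι → ℝ), IsClosed F → ∃ f : (ι → ℝ) → ℝ, Continuous f ∧ (∀ x, 0 ≤ f x) ∧ (∀ x, f x ≤ 1) ∧
      (∀ x ∈ F, f x = 1) ∧ ∫ x, f x ∂(μ : Measure (ι → ℝ)) ≤ (μ : Measure (ι → ℝ)).real F + η/8 := by
    intro F hF
    have hδ : ∀ n : ℕ, (0:ℝ) < 1/((n:ℝ)+1) := fun n => by positivity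
    have h1 := tendsto_lintegral_thickenedIndicator_of_isClosed (μ := (μ : Measure (ι → ℝ))) hF hδ tendsto_one_div_add_atTop_nhds_zero_nat
    have h2 := (ENNReal.tendsto_toReal (measure_ne_top _ F)).comp h1
    have h3 := (h2.eventually (gt_mem_nhds (show ((μ : Measure (ι → ℝ)) F).toReal < (μ : Measure (ι → ℝ)).real F + η/8 by
      change (μ : Measure (ι → ℝ)).real F < _; linarith))).exists
    obtain ⟨n, hn⟩ := h3
    refine ⟨fun x => (thickenedIndicator (hδ n) F x : ℝ), ?_, fun x => NNReal.coe_nonneg _, fun x => ?_, fun x hx => ?_, ?_⟩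
    · exact NNReal.continuous_coe.comp (thickenedIndicator (hδ n) F).continuous
    · exact_mod_cast thickenedIndicator_le_one (hδ n) F x
    · simp only [thickenedIndicator_one (hδ n) F hx, NNReal.coe_one]
    · rw [← BoundedContinuousFunction.toReal_lintegral_coe_eq_integral]
      exact hn.le
  obtain ⟨f2, c2, p2, q2, r2, i2⟩ := key (closure A) isClosed_closure
  obtain ⟨f3, c3, p3, q3, r3, i3⟩ := key (closure Aᶜ) isClosed_closure
  have hbd : ∀ f : (ι → ℝ) → ℝ, (∀ x, 0 ≤ f x) → (∀ x, f x ≤ 2) → ∃ C : ℝ, ∀ x, |f x| ≤ C * (1 + q x) := by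
    intro f h1 h2
    refine ⟨2, fun x => ?_⟩
    rw [abs_of_nonneg (h1 x)]
    have := q_nonneg x
    have := h2 x
    linarith
  -- measures
  have hm1 : (μ : Measure (ι → ℝ)).real (closure A) = (μ : Measure (ι → ℝ)).real A := by
    apply measureReal_congr
    have h1 : closure A ≤ᵐ[(μ : Measure (ι → ℝ))] A := by
      rw [ae_le_set]
      refine measure_mono_null ?_ hA
      intro x hx
      exact ⟨hx.1, fun h => hx.2 (interior_subset h)⟩
    have h2 : A ≤ᵐ[(μ : Measure (ι → ℝ))] closure A := HasSubset.Subset.eventuallyLE subset_closure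
    exact h1.antisymm h2
  have hfr : frontier Aᶜ = frontier A := frontier_compl A
  have hm2 : (μ : Measure (ι → ℝ)).real (closure Aᶜ) = 1 - (μ : Measure (ι → ℝ)).real A := by
    have h1 : (closure Aᶜ) = (interior A)ᶜ := closure_compl
    have h2 : (μ : Measure (ι → ℝ)).real (interior A) = (μ : Measure (ι → ℝ)).real A := by
      apply measureReal_congr
      have h1 : A ≤ᵐ[(μ : Measure (ι → ℝ))] interior A := by
        rw [ae_le_set]
        refine measure_mono_null ?_ hA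
        intro x hx
        exact ⟨subset_closure hx.1, hx.2⟩
      have h2 : interior A ≤ᵐ[(μ : Measure (ι → ℝ))] A := HasSubset.Subset.eventuallyLE interior_subset
      exact h2.antisymm h1
    rw [h1, probReal_compl_eq_one_sub isOpen_interior.measurableSet, h2]
  -- the two functions
  have hint : ∀ f : (ι → ℝ) → ℝ, Continuous f → (∀ x, 0 ≤ f x) → (∀ x, f x ≤ 2) → Integrable f (μ : Measure (ι → ℝ)) := by
    intro f hf h1 h2
    refine Integrable.of_bound hf.aestronglyMeasurable 2 (ae_of_all _ (fun x => ?_))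
    rw [Real.norm_eq_abs, abs_of_nonneg (h1 x)]; exact h2 x
  have hsum : ∀ x, 0 ≤ f2 x + f3 x - 1 := by
    intro x
    by_cases hx : x ∈ A
    · have := r2 x (subset_closure hx)
      have := p3 x
      linarith
    · have := r3 x (subset_closure hx)
      have := p2 x
      linarith
  have hdiff : ∀ x, (x ∈ A → |f2 x - 1| ≤ f2 x + f3 x - 1) ∧ (x ∉ A → |f2 x - 0| ≤ f2 x + f3 x - 1) := by
    intro x
    constructor
    · intro hx
      have h1 := r2 x (subset_closure hx)
      rw [h1, sub_self, abs_zero]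
      have := p3 x; linarith
    · intro hx
      have h1 := r3 x (subset_closure hx)
      rw [sub_zero, abs_of_nonneg (p2 x), h1]; linarith
  have hI2 : ∫ x, (f2 x + f3 x) ∂(μ : Measure (ι → ℝ)) ≤ 1 + η/4 := by
    rw [integral_add (hint f2 c2 p2 (fun x => (q2 x).trans (by norm_num))) (hint f3 c3 p3 (fun x => (q3 x).trans (by norm_num)))]
    linarith
  have hI3 : |(∫ x, f2 x ∂(μ : Measure (ι → ℝ))) - (μ : Measure (ι → ℝ)).real A| ≤ η/8 := by
    rw [abs_le]
    constructor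
    · have h1 : (μ : Measure (ι → ℝ)).real (closure A) ≤ ∫ x, f2 x ∂(μ : Measure (ι → ℝ)) := by
        rw [← integral_indicator_one isClosed_closure.measurableSet]
        apply integral_mono
        · exact (integrable_const 1).indicator isClosed_closure.measurableSet
        · exact hint f2 c2 p2 (fun x => (q2 x).trans (by norm_num))
        · intro x
          by_cases hx : x ∈ closure A
          · rw [Set.indicator_of_mem hx, r2 x hx]; rfl
          · rw [Set.indicator_of_notMem hx]; exact p2 x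
      linarith
    · linarith
  have hlim := hI (fun x => f2 x + f3 x) (c2.add c3) (hbd _ (fun x => add_nonneg (p2 x) (p3 x)) (fun x => by linarith [q2 x, q3 x]))
  have hlim2 := (hlim.eventually (gt_mem_nhds (show ∫ x, (f2 x + f3 x) ∂(μ : Measure (ι → ℝ)) < 1 + η/2 by linarith)))
  obtain ⟨j0, hj0⟩ := eventually_atTop.mp hlim2
  obtain ⟨N1, hN1⟩ := hm f2 c2 (hbd f2 p2 (fun x => (q2 x).trans (by norm_num))) (η/8) (by positivity)
  refine ⟨max (j0+1) N1, fun N hN g hg => ?_⟩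
  have hN2 : j0 + 1 ≤ N := (le_max_left _ _).trans hN
  have a1 := hN1 N ((le_max_right _ _).trans hN) g hg
  have a2 := (hj0 (N-1) (by omega)).le
  have hNpos : (0:ℝ) < N := by exact_mod_cast (by omega : 0 < N)
  unfold fav RS at a2
  rw [Finset.card_range, show N - 1 + 1 = N by omega, div_le_iff₀ hNpos] at a2
  set I2 : ℝ := ∫ x, f2 x ∂(μ : Measure (ι → ℝ)) with hI2d
  set mA : ℝ := (μ : Measure (ι → ℝ)).real A with hmA
  have e1 : ∑ n ∈ Finset.range N, g (n+1) * (((if e n ∈ A then 1 else 0) - mA : ℝ) : ℂ) =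
      ∑ n ∈ Finset.range N, g (n+1) * ((f2 (e n) - I2 : ℝ) : ℂ)
        - ∑ n ∈ Finset.range N, g (n+1) * ((f2 (e n) - (if e n ∈ A then 1 else 0) : ℝ) : ℂ)
        + ∑ n ∈ Finset.range N, g (n+1) * ((I2 - mA : ℝ) : ℂ) := by
    rw [← Finset.sum_sub_distrib, ← Finset.sum_add_distrib]
    apply Finset.sum_congr rfl
    intro n _
    push_cast; ring
  have a3 : ‖∑ n ∈ Finset.range N, g (n+1) * ((f2 (e n) - (if e n ∈ A then 1 else 0) : ℝ) : ℂ)‖ ≤ η/2 * N := by
    refine (norm_sum_le _ _).trans ((Finset.sum_le_sum (g := fun n => (f2 (e n) + f3 (e n)) - 1) (fun n _ => ?_)).trans ?_)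
    · rw [norm_mul, Complex.norm_real, Real.norm_eq_abs]
      calc _ ≤ 1 * |f2 (e n) - (if e n ∈ A then (1:ℝ) else 0)| := mul_le_mul_of_nonneg_right (hg.1 _) (abs_nonneg _)
        _ ≤ _ := by
            rw [one_mul]
            split_ifs with hx
            · exact (hdiff (e n)).1 hx
            · exact (hdiff (e n)).2 hx
    · rw [Finset.sum_sub_distrib, Finset.sum_const, Finset.card_range, nsmul_eq_mul, mul_one]
      linarith
  have a4 : ‖∑ n ∈ Finset.range N, g (n+1) * ((I2 - mA : ℝ) : ℂ)‖ ≤ η/8 * N := by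
    refine (norm_sum_le _ _).trans ((Finset.sum_le_sum (g := fun _ => η/8) (fun n _ => ?_)).trans (le_of_eq ?_))
    · rw [norm_mul, Complex.norm_real, Real.norm_eq_abs]
      calc _ ≤ 1 * (η/8) := mul_le_mul (hg.1 _) hI3 (abs_nonneg _) zero_le_one
        _ = _ := one_mul _
    · rw [Finset.sum_const, Finset.card_range, nsmul_eq_mul]; ring
  rw [e1]
  refine (norm_add_le _ _).trans ?_
  have := norm_sub_le (∑ n ∈ Finset.range N, g (n+1) * ((f2 (e n) - I2 : ℝ) : ℂ)) (∑ n ∈ Finset.range N, g (n+1) * ((f2 (e n) - (if e n ∈ A then 1 else 0) : ℝ) : ℂ))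
  nlinarith

end Pool.Agent.H425R3.JL
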