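import Mathlib
import Pool.Agent.H425R3.JL.C2

open Filter Topology MeasureTheory
open Pool.Agent.H383.AP Pool.Agent.H383.Gauss
open Pool.Agent.H383.Gen

namespace Pool.Agent.H425R3.JL

open Pool.Agent.H383

open Classical in
theorem final_mult {Ex : ℝ → ℝ} {af : ℕ → ℝ} {φ : ℝ} {κ : ℕ → ℕ} {X : ℕ → ℝ → ℝ} (hD : Data Ex af φ κ X)
    {k : ℕ} (a : Fin k → ℕ) (b c : Fin k → ℝ) (ha : ∀ i, 0 < a i)
    (hP : ∀ i, ∀ n : ℕ, 1 ≤ n → 0 < (a i:ℝ) * (n:ℝ)^2 + b i * n + c i) :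
    ∃ μ : ProbabilityMeasure (Fin k → ℝ),
      Integrable (fun x : Fin k → ℝ => ∑ i, x i ^ 2) (μ : Measure (Fin k → ℝ)) ∧
      (∀ i, ∃ g : ℂ → ℂ, Differentiable ℂ g ∧ (∀ x : ℝ, 0 ≤ (g x).re ∧ (g x).im = 0) ∧
        (μ : Measure (Fin k → ℝ)).map (fun x => x i) = volume.withDensity (fun x : ℝ => ENNReal.ofReal (g x).re) ∧
        ∀ u v : ℝ, u < v → 0 < (μ : Measure (Fin k → ℝ)) {x | u < x i ∧ x i < v}) ∧
      (∀ f : (Fin k → ℝ) → ℝ, Continuous f → (∃ C : ℝ, ∀ x, |f x| ≤ C * (1 + ∑ i, x i ^ 2)) →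
        ∀ η : ℝ, 0 < η → ∃ N₀ : ℕ, ∀ N : ℕ, N₀ ≤ N → ∀ g : ℕ → ℂ, (∀ n, ‖g n‖ ≤ 1) →
          (∀ m n : ℕ, m.Coprime n → g (m * n) = g m * g n) →
          ‖∑ n ∈ Finset.Icc 1 N, g n * ((f (fun i => Ex ((a i:ℝ) * (n:ℝ)^2 + b i * n + c i))
            - ∫ x, f x ∂(μ : Measure (Fin k → ℝ)) : ℝ) : ℂ)‖ ≤ η * N) ∧
      (∀ A : Set (Fin k → ℝ), (μ : Measure (Fin k → ℝ)) (frontier A) = 0 →
        ∀ η : ℝ, 0 < η → ∃ N₀ : ℕ, ∀ N : ℕ, N₀ ≤ N → ∀ g : ℕ → ℂ, (∀ n, ‖g n‖ ≤ 1) →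
          (∀ m n : ℕ, m.Coprime n → g (m * n) = g m * g n) →
          ‖∑ n ∈ (Finset.Icc 1 N).filter (fun n : ℕ => (fun i => Ex ((a i:ℝ) * (n:ℝ)^2 + b i * n + c i)) ∈ A), g n
            - (μ : Measure (Fin k → ℝ)).real A * ∑ n ∈ Finset.Icc 1 N, g n‖ ≤ η * N) := by
  -- shifted polynomials
  set b' : Fin k → ℝ := fun i => 2 * a i + b i with hb'
  set c' : Fin k → ℝ := fun i => a i + b i + c i with hc'
  have hsh : ∀ i, ∀ n : ℕ, (a i:ℝ) * (n:ℝ)^2 + b' i * n + c' i = (a i:ℝ) * ((n+1 : ℕ):ℝ)^2 + b i * ((n+1 : ℕ):ℝ) + c i := by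
    intro i n; simp only [hb', hc']; push_cast; ring
  have hP' : ∀ i, ∀ n : ℕ, 0 < (a i:ℝ) * (n:ℝ)^2 + b' i * n + c' i := by
    intro i n; rw [hsh]; exact hP i (n+1) (by omega)
  set e : ℕ → Fin k → ℝ := fun n i => Ex ((a i:ℝ) * (n:ℝ)^2 + b' i * n + c' i) with he
  set G : ℕ → Fin k → ℝ := fun n i => Ex ((a i:ℝ) * (n:ℝ)^2 + b i * n + c i) with hG
  have heG : ∀ n, e n = G (n+1) := by
    intro n; funext i; simp only [he, hG]; rw [hsh]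
  have hΓ : ∀ i, ∀ m : ℕ, √(κ (a i):ℝ) * √(m:ℝ) ∈ GI := by
    intro i m
    rw [← Real.sqrt_mul (Nat.cast_nonneg _), ← Nat.cast_mul]
    exact sqrt_GI _
  have hU : ∀ M i, (fun n => ((UU (fun _ => af) (fun _ => φ) (fun i => √(κ (a i):ℝ)) (fun i => X (a i) (b' i)) M n i : ℝ) : ℂ)) ∈ TG GI :=
    fun M i => UU_TG (a := fun _ => af) (φ := fun _ => φ) (α := fun i => √(κ (a i):ℝ)) (X := fun i => X (a i) (b' i)) hΓ M i
  have hAp : ApU (UU (fun _ => af) (fun _ => φ) (fun i => √(κ (a i):ℝ)) (fun i => X (a i) (b' i))) e RS :=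
    ApU_RS (a := fun _ => af) (φ := fun _ => φ) (α := fun i => √(κ (a i):ℝ)) (X := fun i => X (a i) (b' i))
      (fun i => hD.ap _ _ _ (ha i) (hP' i))
  obtain ⟨μ, hμ1, hμ2⟩ := law hU RS_ne (AvOK_RS GI) hAp
  have hmain : ∀ f : (Fin k → ℝ) → ℝ, Continuous f → (∃ C : ℝ, ∀ x, |f x| ≤ C * (1 + q x)) → ∀ η : ℝ, 0 < η →
      ∃ N0 : ℕ, ∀ N : ℕ, N0 ≤ N → ∀ g : ℕ → ℂ, MF g →
      ‖∑ n ∈ Finset.range N, g (n+1) * ((f (e n) - ∫ x, f x ∂(μ : Measure (Fin k → ℝ)) : ℝ) : ℂ)‖ ≤ η * N :=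
    fun f hf hC η hη => mult_main hU hAp hf hC (hμ2 f hf hC) hη
  refine ⟨μ, hμ1, ?_, ?_, ?_⟩
  · intro i
    obtain ⟨ν, g, g1, g2, g3, g4, g5⟩ := hD.law1 (a i) (b' i) (c' i) (ha i) (hP' i)
    have hm : (μ : Measure (Fin k → ℝ)).map (fun x => x i) = (ν : Measure ℝ) :=
      marg (S := RS) (e := e) i (fun f hf hC => (hμ2 f hf hC)) g5
    refine ⟨g, g1, g2, by rw [hm, g3], ?_⟩
    intro u v huv
    have h1 := g4 u v huv
    rw [← hm, Measure.map_apply (measurable_pi_apply i) measurableSet_Ioo] at h1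
    exact h1
  · intro f hf hC η hη
    obtain ⟨N0, hN0⟩ := hmain f hf hC η hη
    refine ⟨N0, fun N hN g hg1 hg2 => ?_⟩
    have h1 := hN0 N hN g ⟨hg1, hg2⟩
    have h2 : ∑ n ∈ Finset.Icc 1 N, g n * ((f (G n) - ∫ x, f x ∂(μ : Measure (Fin k → ℝ)) : ℝ) : ℂ) =
        ∑ n ∈ Finset.range N, g (n+1) * ((f (e n) - ∫ x, f x ∂(μ : Measure (Fin k → ℝ)) : ℝ) : ℂ) := by
      rw [sum_Icc_range]
      apply Finset.sum_congr rfl
      intro n _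
      rw [heG]
    rw [h2]
    exact h1
  · intro A hA η hη
    obtain ⟨N0, hN0⟩ := mult_set (e := e) (μ := μ) hμ2 hmain hA hη
    refine ⟨N0, fun N hN g hg1 hg2 => ?_⟩
    have h1 := hN0 N hN g ⟨hg1, hg2⟩
    have h2 : ∑ n ∈ (Finset.Icc 1 N).filter (fun n : ℕ => G n ∈ A), g n
            - (μ : Measure (Fin k → ℝ)).real A * ∑ n ∈ Finset.Icc 1 N, g n =
        ∑ n ∈ Finset.range N, g (n+1) * (((if e n ∈ A then 1 else 0) - (μ : Measure (Fin k → ℝ)).real A : ℝ) : ℂ) := by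
      rw [Finset.sum_filter, Finset.mul_sum, ← Finset.sum_sub_distrib, sum_Icc_range]
      apply Finset.sum_congr rfl
      intro n _
      rw [heG]
      split_ifs
      · push_cast; ring
      · push_cast; ring
    rw [h2]
    exact h1

end Pool.Agent.H425R3.JL
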